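import Pool.Agent.H94.Pol.Slot
import Pool.Agent.H94.Pol.Data.A01
import Pool.Agent.H94.Pol.Data.A02
import Pool.Agent.H94.Pol.Data.A04
import Pool.Agent.H94.Pol.Data.A06
import Pool.Agent.H94.Pol.Data.A07
import Pool.Agent.H94.Pol.Data.A08
import Pool.Agent.H94.Pol.Data.A09
import Pool.Agent.H94.Pol.Data.A10
import Pool.Agent.H94.Pol.Data.A11
import Pool.Agent.H94.Pol.Data.A12
import Pool.Agent.H94.Pol.Data.A13
import Pool.Agent.H94.Pol.Data.A14
import Pool.Agent.H94.Pol.Data.A15
import Pool.Agent.H94.Pol.Data.A16
import Pool.Agent.H94.Pol.Data.B01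
import Pool.Agent.H94.Pol.Data.B02
import Pool.Agent.H94.Pol.Data.B03
import Pool.Agent.H94.Pol.Data.B04

/-! Slots of the data base. -/

namespace Pool.H94.Pol

def sl_2_4_9_211 : ℕ := nat_lit 0x40001008040201000049201008040201248040001008040201248049201008040201000000000200008000008200000000000000400010080402010000492010080402010000000002000000000040001008040201000000000000400010000000040000000000d3003210f

theorem so_2_4_9_211 : sl_2_4_9_211 < 2 ^ 1024 ∧ SlotOK sl_2_4_9_211 :=
  ⟨by decide +kernel, slot_of (by decide +kernel) (by decide +kernel) (by decide +kernel) t1_2_4_9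
    t2_2_4_9_211 (by decide +kernel)⟩

def sl_2_4_9_305 : ℕ := nat_lit 0x800020000000920000800020024800000000800020024800920000800020000000000020000800000820000000000000000000008000200000009200008000200000000000200000000000000000800020000000000000000000000000000000000000131003210f

theorem so_2_4_9_305 : sl_2_4_9_305 < 2 ^ 1024 ∧ SlotOK sl_2_4_9_305 :=
  ⟨by decide +kernel, slot_of (by decide +kernel) (by decide +kernel) (by decide +kernel) t1_2_4_9
    t2_2_4_9_305 (by decide +kernel)⟩

def sl_2_4_9_383 : ℕ := nat_lit 0x92000000000002480000000000000002480092000000000000000000002000080000082000000000000000000000000000000000920000000000000000000020000000000000000000000000000000000000000000000000000000000017f003210f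

theorem so_2_4_9_383 : sl_2_4_9_383 < 2 ^ 1024 ∧ SlotOK sl_2_4_9_383 :=
  ⟨by decide +kernel, slot_of (by decide +kernel) (by decide +kernel) (by decide +kernel) t1_2_4_9
    t2_2_4_9_383 (by decide +kernel)⟩

def sl_2_5_8_128 : ℕ := nat_lit 0x7fc0201ff8000200007fc0201000000200007fc0201000000200007fc020100000020000703800700000700000700000484040407fc0201000000200007fc02010000002000070000070000040407fc020100000020000700000400000200000000000000000000080002850f

theorem so_2_5_8_128 : sl_2_5_8_128 < 2 ^ 1024 ∧ SlotOK sl_2_5_8_128 :=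
  ⟨by decide +kernel, slot_of (by decide +kernel) (by decide +kernel) (by decide +kernel) t1_2_5_8
    (T2_of (by decide) (by decide) (by decide) (Or.inl (by decide)) (Or.inl (by decide)) (Or.inl (by decide)) : T2 2 5 8 128 tb_2_5_8) (by decide +kernel)⟩

def sl_2_5_8_139 : ℕ := nat_lit 0x40001ff80000000000400010000000000000400010000000000000400010000000000000380000000000000000000008000000004000100000000000004000100000000000000000000000000000400010000000000000000000000000000000000000000000008b002850f

theorem so_2_5_8_139 : sl_2_5_8_139 < 2 ^ 1024 ∧ SlotOK sl_2_5_8_139 :=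
  ⟨by decide +kernel, slot_of (by decide +kernel) (by decide +kernel) (by decide +kernel) t1_2_5_8
    t2_2_5_8_139 (by decide +kernel)⟩

def sl_2_5_8_255 : ℕ := nat_lit 0x1ff8000000000000001000000000000000001000000000000000001000000000000038000000000000000000000800000000000010000000000000000010000000000000000000000000000000001000000000000000000000000000000000000000000000ff002850f

theorem so_2_5_8_255 : sl_2_5_8_255 < 2 ^ 1024 ∧ SlotOK sl_2_5_8_255 :=
  ⟨by decide +kernel, slot_of (by decide +kernel) (by decide +kernel) (by decide +kernel) t1_2_5_8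
    t2_2_5_8_255 (by decide +kernel)⟩

def sl_2_6_9_128 : ℕ := nat_lit 0x4964a00924964b24924964a00004964b24004964a00924964b24924964a00924964b2400482492480490482492482490000000004964a00924964b24924964a00004964b240048249248049000004964a00004964b2400480490004964a00004800000000000000080003b911

theorem so_2_6_9_128 : sl_2_6_9_128 < 2 ^ 1024 ∧ SlotOK sl_2_6_9_128 :=
  ⟨by decide +kernel, slot_of (by decide +kernel) (by decide +kernel) (by decide +kernel) t1_2_6_9
    (T2_of (by decide) (by decide) (by decide) (Or.inl (by decide)) (Or.inl (by decide)) (Or.inl (by decide)) : T2 2 6 9 128 tb_2_6_9) (by decide +kernel)⟩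

def sl_2_6_9_511 : ℕ := nat_lit 0x920000124920000000000000124000000000920000124920000000920000124000020120000100020120020100000000000000009200001249200000000000001240000201200001000000000000000000124000000100000000000000000000000000001ff003b911

theorem so_2_6_9_511 : sl_2_6_9_511 < 2 ^ 1024 ∧ SlotOK sl_2_6_9_511 :=
  ⟨by decide +kernel, slot_of (by decide +kernel) (by decide +kernel) (by decide +kernel) t1_2_6_9
    t2_2_6_9_511 (by decide +kernel)⟩

def sl_2_8_9_128 : ℕ := nat_lit 0x248000000000000000248000000000000049248000000000000000248000000000200000200001200000200000000000000000002480000000000000002480000000002000002000000000000000248000000000200000000000000000000000000000080004e113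

theorem so_2_8_9_128 : sl_2_8_9_128 < 2 ^ 1024 ∧ SlotOK sl_2_8_9_128 :=
  ⟨by decide +kernel, slot_of (by decide +kernel) (by decide +kernel) (by decide +kernel) t1_2_8_9
    (T2_of (by decide) (by decide) (by decide) (Or.inl (by decide)) (Or.inl (by decide)) (Or.inl (by decide)) : T2 2 8 9 128 tb_2_8_9) (by decide +kernel)⟩

def sl_2_8_9_170 : ℕ := nat_lit 0x2480000000000000002480000000000000492480000000000000002480000000002000002000012000002000000000000000000024800000000000000024800000000020000020000000000000002480000000002000000000000000000000000000000aa004e113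

theorem so_2_8_9_170 : sl_2_8_9_170 < 2 ^ 1024 ∧ SlotOK sl_2_8_9_170 :=
  ⟨by decide +kernel, slot_of (by decide +kernel) (by decide +kernel) (by decide +kernel) t1_2_8_9
    t2_2_8_9_170 (by decide +kernel)⟩

def sl_2_8_9_255 : ℕ := nat_lit 0x490000000000000000000000000000000000000000010000000000000000000000000000000000000000000000000000000000000000000000000000000000000000000000000000000000000000000000000ff004e113

theorem so_2_8_9_255 : sl_2_8_9_255 < 2 ^ 1024 ∧ SlotOK sl_2_8_9_255 :=
  ⟨by decide +kernel, slot_of (by decide +kernel) (by decide +kernel) (by decide +kernel) t1_2_8_9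
    t2_2_8_9_255 (by decide +kernel)⟩

def sl_2_9_9_128 : ℕ := nat_lit 0x40001928064a01000064801928064a01920040001928064a01920064801928064a0100002080082082002082082080000000000040001928064a01000064801928064a010000208008208000000040001928064a0100002080000040001000000004000000000080005ba14

theorem so_2_9_9_128 : sl_2_9_9_128 < 2 ^ 1024 ∧ SlotOK sl_2_9_9_128 :=
  ⟨by decide +kernel, slot_of (by decide +kernel) (by decide +kernel) (by decide +kernel) t1_2_9_9
    (T2_of (by decide) (by decide) (by decide) (Or.inl (by decide)) (Or.inl (by decide)) (Or.inl (by decide)) : T2 2 9 9 128 tb_2_9_9) (by decide +kernel)⟩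

def sl_2_9_9_383 : ℕ := nat_lit 0x80002000000000000080002000000000000080002000000000000080002000000000000000000000000000000000000000000000800020000000000000800020000000000000000000000000000080002000000000000000000000000000000000000017f005ba14

theorem so_2_9_9_383 : sl_2_9_9_383 < 2 ^ 1024 ∧ SlotOK sl_2_9_9_383 :=
  ⟨by decide +kernel, slot_of (by decide +kernel) (by decide +kernel) (by decide +kernel) t1_2_9_9
    t2_2_9_9_383 (by decide +kernel)⟩

def sl_2_9_12_128 : ℕ := nat_lit 0x24a00928000000000024a00928024800000024a00928000000000024a0092802480000082000082080082000082080000000000024a00928000000000024a009280248000008200008208000000024a0092800000000082000000000000000000000000000000080009a117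

theorem so_2_9_12_128 : sl_2_9_12_128 < 2 ^ 1024 ∧ SlotOK sl_2_9_12_128 :=
  ⟨by decide +kernel, slot_of (by decide +kernel) (by decide +kernel) (by decide +kernel) t1_2_9_12
    (T2_of (by decide) (by decide) (by decide) (Or.inl (by decide)) (Or.inl (by decide)) (Or.inl (by decide)) : T2 2 9 12 128 tb_2_9_12) (by decide +kernel)⟩

def sl_3_3_4_432 : ℕ := nat_lit 0x369b4006d369b4006d369b4006d369b4006d369b4006d369b4006d369b4006d369b4006d24124124124124124124124100000000369b4006d369b4006d369b4006d369b4006d2412412412410000369b4006d369b4006d24124100369b4006d2410001b410000001b0000760a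

theorem so_3_3_4_432 : sl_3_3_4_432 < 2 ^ 1024 ∧ SlotOK sl_3_3_4_432 :=
  ⟨by decide +kernel, slot_of (by decide +kernel) (by decide +kernel) (by decide +kernel) t1_3_3_4
    (T2_of (by decide) (by decide) (by decide) (Or.inl (by decide)) (Or.inl (by decide)) (Or.inl (by decide)) : T2 3 3 4 432 tb_3_3_4) (by decide +kernel)⟩

def sl_3_3_4_539 : ℕ := nat_lit 0x36800006d00000000036800000000000006d36800000000000000036800000000000006d2010002000012000002000010000000036800000000000000036800000000000006d200000200001000036800000000000000020000000000000000000000000000000021b000760a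

theorem so_3_3_4_539 : sl_3_3_4_539 < 2 ^ 1024 ∧ SlotOK sl_3_3_4_539 :=
  ⟨by decide +kernel, slot_of (by decide +kernel) (by decide +kernel) (by decide +kernel) t1_3_3_4
    t2_3_3_4_539 (by decide +kernel)⟩

def sl_3_3_4_863 : ℕ := nat_lit 0x6d00000000000000000000000006d00000000000000000000000000000000006d0010000000010000000000010000000000000000000000000000000000000000006d000000000001000000000000000000000000000000000000000000000000000000035f000760a

theorem so_3_3_4_863 : sl_3_3_4_863 < 2 ^ 1024 ∧ SlotOK sl_3_3_4_863 :=
  ⟨by decide +kernel, slot_of (by decide +kernel) (by decide +kernel) (by decide +kernel) t1_3_3_4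
    t2_3_3_4_863 (by decide +kernel)⟩

def sl_3_3_5_432 : ℕ := nat_lit 0x5b00000b65b00000b65b00000b65b00000b65b00000b65b00000b65b00000b65b00000b6402402402402402402402402000000005b00000b65b00000b65b00000b65b00000b640240240240200005b00000b65b00000b6402402005b00000b640200000000000001b0000b30b

theorem so_3_3_5_432 : sl_3_3_5_432 < 2 ^ 1024 ∧ SlotOK sl_3_3_5_432 :=
  ⟨by decide +kernel, slot_of (by decide +kernel) (by decide +kernel) (by decide +kernel) t1_3_3_5
    (T2_of (by decide) (by decide) (by decide) (Or.inl (by decide)) (Or.inl (by decide)) (Or.inl (by decide)) : T2 3 3 5 432 tb_3_3_5) (by decide +kernel)⟩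

def sl_3_3_8_432 : ℕ := nat_lit 0x5b2d800b65b00000b65b2d800b65b00000b65b2d800b65b00000b65b2d800b65b00000b6482402482402482402482402000000005b2d800b65b00000b65b2d800b65b00000b648240248240200005b2d800b65b00000b6482402005b00000b640200000000000001b0002360e

theorem so_3_3_8_432 : sl_3_3_8_432 < 2 ^ 1024 ∧ SlotOK sl_3_3_8_432 :=
  ⟨by decide +kernel, slot_of (by decide +kernel) (by decide +kernel) (by decide +kernel) t1_3_3_8
    (T2_of (by decide) (by decide) (by decide) (Or.inl (by decide)) (Or.inl (by decide)) (Or.inl (by decide)) : T2 3 3 8 432 tb_3_3_8) (by decide +kernel)⟩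

def sl_3_3_8_479 : ℕ := nat_lit 0x2d800000000000b6002d80000000000000002d80000000000000002d800000000000b608000208000008000008000200000000002d80000000000000002d800000000000000800000800000000002d800000000000000800000000000000000000000000000001df002360e

theorem so_3_3_8_479 : sl_3_3_8_479 < 2 ^ 1024 ∧ SlotOK sl_3_3_8_479 :=
  ⟨by decide +kernel, slot_of (by decide +kernel) (by decide +kernel) (by decide +kernel) t1_3_3_8
    t2_3_3_8_479 (by decide +kernel)⟩

def sl_3_3_8_690 : ℕ := nat_lit 0xb6002d80000000000000000000000000000000002d800000000000b600000208000000000008000200000000000000000000000000002d8000000000000000000008000000000000000000000000000000000000000000000000000000000002b2002360e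

theorem so_3_3_8_690 : sl_3_3_8_690 < 2 ^ 1024 ∧ SlotOK sl_3_3_8_690 :=
  ⟨by decide +kernel, slot_of (by decide +kernel) (by decide +kernel) (by decide +kernel) t1_3_3_8
    t2_3_3_8_690 (by decide +kernel)⟩

def sl_3_3_8_767 : ℕ := nat_lit 0xb60000000000000000000000020000000000000000000000000000000000000000000000000000000000000000000000000000000000000000000000000000000000000002ff002360e

theorem so_3_3_8_767 : sl_3_3_8_767 < 2 ^ 1024 ∧ SlotOK sl_3_3_8_767 :=
  ⟨by decide +kernel, slot_of (by decide +kernel) (by decide +kernel) (by decide +kernel) t1_3_3_8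
    t2_3_3_8_767 (by decide +kernel)⟩

def sl_3_3_10_432 : ℕ := nat_lit 0x6d00000000000000006d00000000000000006d00000000000000006d0000010000010000010000010000000000000000000000006d00000000000000006d000001000001000000000000000000006d0000010000000000000000000000000001b00041e10

theorem so_3_3_10_432 : sl_3_3_10_432 < 2 ^ 1024 ∧ SlotOK sl_3_3_10_432 :=
  ⟨by decide +kernel, slot_of (by decide +kernel) (by decide +kernel) (by decide +kernel) t1_3_3_10
    (T2_of (by decide) (by decide) (by decide) (Or.inl (by decide)) (Or.inl (by decide)) (Or.inl (by decide)) : T2 3 3 10 432 tb_3_3_10) (by decide +kernel)⟩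

def sl_3_3_10_531 : ℕ := nat_lit 0x6d00000000000000000000000000000000000000000000000000006d0000010000000000000000010000000000000000000000000000000000000000000000000000000000000000000000000000000000000000000000000000000000000002130041e10

theorem so_3_3_10_531 : sl_3_3_10_531 < 2 ^ 1024 ∧ SlotOK sl_3_3_10_531 :=
  ⟨by decide +kernel, slot_of (by decide +kernel) (by decide +kernel) (by decide +kernel) t1_3_3_10
    t2_3_3_10_531 (by decide +kernel)⟩

def sl_3_3_16_432 : ℕ := nat_lit 0x1b4006d36800006d001b4000036800006d001b4006d36800006d001b4000036800006d04120104020104120104020100000000001b4006d36800006d001b4000036800006d0412010402010000001b4000036800006d0402010000000000000000000000000001b00103616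

theorem so_3_3_16_432 : sl_3_3_16_432 < 2 ^ 1024 ∧ SlotOK sl_3_3_16_432 :=
  ⟨by decide +kernel, slot_of (by decide +kernel) (by decide +kernel) (by decide +kernel) t1_3_3_16
    (T2_of (by decide) (by decide) (by decide) (Or.inl (by decide)) (Or.inl (by decide)) (Or.inl (by decide)) : T2 3 3 16 432 tb_3_3_16) (by decide +kernel)⟩

def sl_3_3_16_539 : ℕ := nat_lit 0x6d00000000000000000000000000000000000000000000000000000000000000000100000000000000000000000000000000000000000000000000000000000000000000000000000000000000000000000000000000000000000000000000000000000021b0103616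

theorem so_3_3_16_539 : sl_3_3_16_539 < 2 ^ 1024 ∧ SlotOK sl_3_3_16_539 :=
  ⟨by decide +kernel, slot_of (by decide +kernel) (by decide +kernel) (by decide +kernel) t1_3_3_16
    t2_3_3_16_539 (by decide +kernel)⟩

def sl_3_3_20_432 : ℕ := nat_lit 0x920000000000000000000000000920000000920000000000000000000000000920020000000020020000000020000000000000009200000000000000000000000009200200000000200000000000000000000000000000000000000000000000000000001b001f761a

theorem so_3_3_20_432 : sl_3_3_20_432 < 2 ^ 1024 ∧ SlotOK sl_3_3_20_432 :=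
  ⟨by decide +kernel, slot_of (by decide +kernel) (by decide +kernel) (by decide +kernel) t1_3_3_20
    (T2_of (by decide) (by decide) (by decide) (Or.inl (by decide)) (Or.inl (by decide)) (Or.inl (by decide)) : T2 3 3 20 432 tb_3_3_20) (by decide +kernel)⟩

def sl_3_4_4_432 : ℕ := nat_lit 0x6f80000df6f80000df6f80000df6f80000df6f80000df6f80000df6f80000df6f80000df603603603603603603603603000000006f80000df6f80000df6f80000df6f80000df60360360360300006f80000df6f80000df603603006f80000df60300000000000001b00009b0b

theorem so_3_4_4_432 : sl_3_4_4_432 < 2 ^ 1024 ∧ SlotOK sl_3_4_4_432 :=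
  ⟨by decide +kernel, slot_of (by decide +kernel) (by decide +kernel) (by decide +kernel) t1_3_4_4
    (T2_of (by decide) (by decide) (by decide) (Or.inl (by decide)) (Or.inl (by decide)) (Or.inl (by decide)) : T2 3 4 4 432 tb_3_4_4) (by decide +kernel)⟩

def sl_3_4_4_1022 : ℕ := nat_lit 0xdf0000000df0000000000000000000000000df0000000df000000003003000000003003000000000000000000000000000000000df0000000df00000000300300000000000000000000000000000000000000000000000000000003fe0009b0b

theorem so_3_4_4_1022 : sl_3_4_4_1022 < 2 ^ 1024 ∧ SlotOK sl_3_4_4_1022 :=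
  ⟨by decide +kernel, slot_of (by decide +kernel) (by decide +kernel) (by decide +kernel) t1_3_4_4
    t2_3_4_4_1022 (by decide +kernel)⟩

def sl_3_4_6_432 : ℕ := nat_lit 0x400016d805b60100005b6016d805b6016d80400016d805b6016d805b6016d805b601000018600618618018618618600000000000400016d805b60100005b6016d805b60100001860061860000000400016d805b601000018600000400010000000040000000001b0001330d

theorem so_3_4_6_432 : sl_3_4_6_432 < 2 ^ 1024 ∧ SlotOK sl_3_4_6_432 :=
  ⟨by decide +kernel, slot_of (by decide +kernel) (by decide +kernel) (by decide +kernel) t1_3_4_6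
    (T2_of (by decide) (by decide) (by decide) (Or.inl (by decide)) (Or.inl (by decide)) (Or.inl (by decide)) : T2 3 4 6 432 tb_3_4_6) (by decide +kernel)⟩

def sl_3_4_6_575 : ℕ := nat_lit 0x4000149805260100005b6014980526016d80400014980526016d805b6014980526010000104006104180104186104000000000004000149805260100005b60149805260100001040061040000000400014980526010000104000004000100000000400000000023f001330d

theorem so_3_4_6_575 : sl_3_4_6_575 < 2 ^ 1024 ∧ SlotOK sl_3_4_6_575 :=
  ⟨by decide +kernel, slot_of (by decide +kernel) (by decide +kernel) (by decide +kernel) t1_3_4_6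
    t2_3_4_6_575 (by decide +kernel)⟩

def sl_3_4_6_647 : ℕ := nat_lit 0x4000100804020100005b6010080402016d80400010080402016d805b6010080402010000000006000180000186000000000000004000100804020100005b601008040201000000000600000000004000100804020100000000000040001000000004000000000287001330d

theorem so_3_4_6_647 : sl_3_4_6_647 < 2 ^ 1024 ∧ SlotOK sl_3_4_6_647 :=
  ⟨by decide +kernel, slot_of (by decide +kernel) (by decide +kernel) (by decide +kernel) t1_3_4_6
    t2_3_4_6_647 (by decide +kernel)⟩

def sl_3_4_6_713 : ℕ := nat_lit 0x1b6000000000006d80000000000000006d801b6000000000000000000006000180000186000000000000000000000000000000001b6000000000000000000006000000000000000000000000000000000000000000000000000000000002c9001330d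

theorem so_3_4_6_713 : sl_3_4_6_713 < 2 ^ 1024 ∧ SlotOK sl_3_4_6_713 :=
  ⟨by decide +kernel, slot_of (by decide +kernel) (by decide +kernel) (by decide +kernel) t1_3_4_6
    t2_3_4_6_713 (by decide +kernel)⟩

def sl_3_4_6_800 : ℕ := nat_lit 0x1b6000000000006d80000000000000006d801b6000000000000000000006000180000186000000000000000000000000000000001b600000000000000000000600000000000000000000000000000000000000000000000000000000000320001330d

theorem so_3_4_6_800 : sl_3_4_6_800 < 2 ^ 1024 ∧ SlotOK sl_3_4_6_800 :=
  ⟨by decide +kernel, slot_of (by decide +kernel) (by decide +kernel) (by decide +kernel) t1_3_4_6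
    t2_3_4_6_800 (by decide +kernel)⟩

def sl_3_4_6_1022 : ℕ := nat_lit 0x1b6000000000006d80000000000000006d801b6000000000000000000006000180000186000000000000000000000000000000001b6000000000000000000006000000000000000000000000000000000000000000000000000000000003fe001330d

theorem so_3_4_6_1022 : sl_3_4_6_1022 < 2 ^ 1024 ∧ SlotOK sl_3_4_6_1022 :=
  ⟨by decide +kernel, slot_of (by decide +kernel) (by decide +kernel) (by decide +kernel) t1_3_4_6
    t2_3_4_6_1022 (by decide +kernel)⟩

def sl_3_4_7_432 : ℕ := nat_lit 0x6f80000df0000000006f80000000000000df6f80000df0000000006f80000000000000df603000600003603000600003000000006f80000df0000000006f80000000000000df60300060000300006f80000000000000006000000000000000000000000000000001b0001b20e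

theorem so_3_4_7_432 : sl_3_4_7_432 < 2 ^ 1024 ∧ SlotOK sl_3_4_7_432 :=
  ⟨by decide +kernel, slot_of (by decide +kernel) (by decide +kernel) (by decide +kernel) t1_3_4_7
    (T2_of (by decide) (by decide) (by decide) (Or.inl (by decide)) (Or.inl (by decide)) (Or.inl (by decide)) : T2 3 4 7 432 tb_3_4_7) (by decide +kernel)⟩

def sl_3_4_8_432 : ℕ := nat_lit 0x1240000ff9240000ff9240000ff9240000ff9240000ff9240000001240000ff924000000103903903903903900103900088888081240000ff9240000001240000ff92400000010390010390008081240000ff9240000001039000812400000010000000000000001b00025b0f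

theorem so_3_4_8_432 : sl_3_4_8_432 < 2 ^ 1024 ∧ SlotOK sl_3_4_8_432 :=
  ⟨by decide +kernel, slot_of (by decide +kernel) (by decide +kernel) (by decide +kernel) t1_3_4_8
    (T2_of (by decide) (by decide) (by decide) (Or.inl (by decide)) (Or.inl (by decide)) (Or.inl (by decide)) : T2 3 4 8 432 tb_3_4_8) (by decide +kernel)⟩

def sl_3_4_8_863 : ℕ := nat_lit 0x248000000ff8000000248000000ff80000002480000000000000002480000000000080380080380080000080000808000000000024800000000000000024800000000000800000800000000000002480000000000080000000000000000000000000000035f0025b0f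

theorem so_3_4_8_863 : sl_3_4_8_863 < 2 ^ 1024 ∧ SlotOK sl_3_4_8_863 :=
  ⟨by decide +kernel, slot_of (by decide +kernel) (by decide +kernel) (by decide +kernel) t1_3_4_8
    t2_3_4_8_863 (by decide +kernel)⟩

def sl_3_4_8_1022 : ℕ := nat_lit 0xff8000000000000000ff8000000000000000000000000000000000000000038000038000000000000080800000000000000000000000000000000000000000000000000000000000000000000000000000000000000000000000000000000003fe0025b0f

theorem so_3_4_8_1022 : sl_3_4_8_1022 < 2 ^ 1024 ∧ SlotOK sl_3_4_8_1022 :=
  ⟨by decide +kernel, slot_of (by decide +kernel) (by decide +kernel) (by decide +kernel) t1_3_4_8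
    t2_3_4_8_1022 (by decide +kernel)⟩

def sl_3_4_8_1168 : ℕ := nat_lit 0x248000000000000000248000000000000000000000000000000000000000008000008000000000000000000000000000000000000000000000000000000000000000000000000000000000000000000000000000000000000000000000000004900025b0f

theorem so_3_4_8_1168 : sl_3_4_8_1168 < 2 ^ 1024 ∧ SlotOK sl_3_4_8_1168 :=
  ⟨by decide +kernel, slot_of (by decide +kernel) (by decide +kernel) (by decide +kernel) t1_3_4_8
    t2_3_4_8_1168 (by decide +kernel)⟩

def sl_3_4_9_432 : ℕ := nat_lit 0x268009a4d26800084d268009a4d26800084d268009a4d26800084d268009a4d26800084d20920120920120920120920100000000268009a4d26800084d268009a4d26800084d2092012092010000268009a4d26800084d2092010026800084d20100200000000001b00033410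

theorem so_3_4_9_432 : sl_3_4_9_432 < 2 ^ 1024 ∧ SlotOK sl_3_4_9_432 :=
  ⟨by decide +kernel, slot_of (by decide +kernel) (by decide +kernel) (by decide +kernel) t1_3_4_9
    (T2_of (by decide) (by decide) (by decide) (Or.inl (by decide)) (Or.inl (by decide)) (Or.inl (by decide)) : T2 3 4 9 432 tb_3_4_9) (by decide +kernel)⟩

def sl_3_4_9_755 : ℕ := nat_lit 0x84d00000084d00000084d00000084d00000084d00000084d00000084d00000084d0010010010010010010010010000000000000084d00000084d00000084d00000084d001001001001000000000084d00000084d0010010000000084d00100000000000002f30033410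

theorem so_3_4_9_755 : sl_3_4_9_755 < 2 ^ 1024 ∧ SlotOK sl_3_4_9_755 :=
  ⟨by decide +kernel, slot_of (by decide +kernel) (by decide +kernel) (by decide +kernel) t1_3_4_9
    t2_3_4_9_755 (by decide +kernel)⟩

def sl_3_4_9_1022 : ℕ := nat_lit 0x4d00000084d00000004d00000084d00000004d00000084d00000004d00000084d0010010010010010010010010000000000000004d00000084d00000004d00000084d001001001001000000000004d00000084d0010010000000004d00100000000000003fe0033410

theorem so_3_4_9_1022 : sl_3_4_9_1022 < 2 ^ 1024 ∧ SlotOK sl_3_4_9_1022 :=
  ⟨by decide +kernel, slot_of (by decide +kernel) (by decide +kernel) (by decide +kernel) t1_3_4_9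
    t2_3_4_9_1022 (by decide +kernel)⟩

def sl_3_4_9_1278 : ℕ := nat_lit 0x4d0000000040000000000000000000000000040000000040000000010000000000000000000000000000000000000000000000000400000000400000000000000000000000000000000000000000000000000000000000000000004fe0033410

theorem so_3_4_9_1278 : sl_3_4_9_1278 < 2 ^ 1024 ∧ SlotOK sl_3_4_9_1278 :=
  ⟨by decide +kernel, slot_of (by decide +kernel) (by decide +kernel) (by decide +kernel) t1_3_4_9
    t2_3_4_9_1278 (by decide +kernel)⟩

def sl_3_4_9_1363 : ℕ := nat_lit 0x40000000040000000000000000000000000040000000040000000000000000000000000000000000000000000000000000000000400000000400000000000000000000000000000000000000000000000000000000000000000005530033410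

theorem so_3_4_9_1363 : sl_3_4_9_1363 < 2 ^ 1024 ∧ SlotOK sl_3_4_9_1363 :=
  ⟨by decide +kernel, slot_of (by decide +kernel) (by decide +kernel) (by decide +kernel) t1_3_4_9
    t2_3_4_9_1363 (by decide +kernel)⟩

def sl_3_4_12_432 : ℕ := nat_lit 0x36800006d36800006d36800006d36800006d36800006d36800006d36800006d36800006d2012012012012012012012010000000036800006d36800006d36800006d36800006d201201201201000036800006d36800006d2012010036800006d20100000000000001b00071b13

theorem so_3_4_12_432 : sl_3_4_12_432 < 2 ^ 1024 ∧ SlotOK sl_3_4_12_432 :=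
  ⟨by decide +kernel, slot_of (by decide +kernel) (by decide +kernel) (by decide +kernel) t1_3_4_12
    (T2_of (by decide) (by decide) (by decide) (Or.inl (by decide)) (Or.inl (by decide)) (Or.inl (by decide)) : T2 3 4 12 432 tb_3_4_12) (by decide +kernel)⟩

def sl_3_4_12_863 : ℕ := nat_lit 0x36800006d00000006d36800006d00000006d36800006d00000006d36800006d00000006d2010012010012010012010010000000036800006d00000006d36800006d00000006d201001201001000036800006d00000006d2010010000000006d001000000000000035f0071b13

theorem so_3_4_12_863 : sl_3_4_12_863 < 2 ^ 1024 ∧ SlotOK sl_3_4_12_863 :=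
  ⟨by decide +kernel, slot_of (by decide +kernel) (by decide +kernel) (by decide +kernel) t1_3_4_12
    t2_3_4_12_863 (by decide +kernel)⟩

def sl_3_4_12_1006 : ℕ := nat_lit 0x36800006d0000000003680000000000000003680000000000000003680000000000000002010002000002000002000000000000036800000000000000036800000000000000020000020000000003680000000000000002000000000000000000000000000000003ee0071b13

theorem so_3_4_12_1006 : sl_3_4_12_1006 < 2 ^ 1024 ∧ SlotOK sl_3_4_12_1006 :=
  ⟨by decide +kernel, slot_of (by decide +kernel) (by decide +kernel) (by decide +kernel) t1_3_4_12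
    t2_3_4_12_1006 (by decide +kernel)⟩

def sl_3_4_16_432 : ℕ := nat_lit 0x6f80000df0000000006f80000df0000000df6f80000df0000000006f80000df0000000df603000603003603000603003000000006f80000df0000000006f80000df0000000df60300060300300006f80000df0000000006030000000000000000000000000000001b00105b17

theorem so_3_4_16_432 : sl_3_4_16_432 < 2 ^ 1024 ∧ SlotOK sl_3_4_16_432 :=
  ⟨by decide +kernel, slot_of (by decide +kernel) (by decide +kernel) (by decide +kernel) t1_3_4_16
    (T2_of (by decide) (by decide) (by decide) (Or.inl (by decide)) (Or.inl (by decide)) (Or.inl (by decide)) : T2 3 4 16 432 tb_3_4_16) (by decide +kernel)⟩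

def sl_3_4_16_755 : ℕ := nat_lit 0xdf0000000df0000000000000000000000000df0000000df000000003003000000003003000000000000000000000000000000000df0000000df00000000300300000000000000000000000000000000000000000000000000000002f30105b17

theorem so_3_4_16_755 : sl_3_4_16_755 < 2 ^ 1024 ∧ SlotOK sl_3_4_16_755 :=
  ⟨by decide +kernel, slot_of (by decide +kernel) (by decide +kernel) (by decide +kernel) t1_3_4_16
    t2_3_4_16_755 (by decide +kernel)⟩

def sl_3_4_16_1022 : ℕ := nat_lit 0xdf0000000000000000000000000df0000000df000000000003000000003003000000000000000000000000000000000000000000df00000000000300000000000000000000000000000000000000000000000000000003fe0105b17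

theorem so_3_4_16_1022 : sl_3_4_16_1022 < 2 ^ 1024 ∧ SlotOK sl_3_4_16_1022 :=
  ⟨by decide +kernel, slot_of (by decide +kernel) (by decide +kernel) (by decide +kernel) t1_3_4_16
    t2_3_4_16_1022 (by decide +kernel)⟩

def sl_3_4_18_432 : ℕ := nat_lit 0x12600498000000490012600498012400490012600498000000000012600498012400000410010410410410000410400000000000126004980000000000126004980124000004100004104000000012600498000000000410000000000000000000000000000001b00172319

theorem so_3_4_18_432 : sl_3_4_18_432 < 2 ^ 1024 ∧ SlotOK sl_3_4_18_432 :=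
  ⟨by decide +kernel, slot_of (by decide +kernel) (by decide +kernel) (by decide +kernel) t1_3_4_18
    (T2_of (by decide) (by decide) (by decide) (Or.inl (by decide)) (Or.inl (by decide)) (Or.inl (by decide)) : T2 3 4 18 432 tb_3_4_18) (by decide +kernel)⟩

def sl_3_4_18_1022 : ℕ := nat_lit 0x490000000000012400490000000000000000000000000000012400000000010000410000000000400000000000000000000000000000000000000124000000000000004000000000000000000000000000000000000000000000000000000003fe0172319

theorem so_3_4_18_1022 : sl_3_4_18_1022 < 2 ^ 1024 ∧ SlotOK sl_3_4_18_1022 :=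
  ⟨by decide +kernel, slot_of (by decide +kernel) (by decide +kernel) (by decide +kernel) t1_3_4_18
    t2_3_4_18_1022 (by decide +kernel)⟩

def sl_3_4_21_432 : ℕ := nat_lit 0x6d00000006d00000006d00000006d00000006d00000006d00000006d00000006d0010010010010010010010010000000000000006d00000006d00000006d00000006d001001001001000000000006d00000006d0010010000000006d00100000000000001b0024881c

theorem so_3_4_21_432 : sl_3_4_21_432 < 2 ^ 1024 ∧ SlotOK sl_3_4_21_432 :=
  ⟨by decide +kernel, slot_of (by decide +kernel) (by decide +kernel) (by decide +kernel) t1_3_4_21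
    (T2_of (by decide) (by decide) (by decide) (Or.inl (by decide)) (Or.inl (by decide)) (Or.inl (by decide)) : T2 3 4 21 432 tb_3_4_21) (by decide +kernel)⟩

def sl_3_4_21_767 : ℕ := nat_lit 0x6d00000006d00000000000000000000000006d00000006d0000000010010000000010010000000000000000000000000000000006d00000006d00000000100100000000000000000000000000000000000000000000000000000002ff024881c

theorem so_3_4_21_767 : sl_3_4_21_767 < 2 ^ 1024 ∧ SlotOK sl_3_4_21_767 :=
  ⟨by decide +kernel, slot_of (by decide +kernel) (by decide +kernel) (by decide +kernel) t1_3_4_21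
    t2_3_4_21_767 (by decide +kernel)⟩

def sl_3_4_21_986 : ℕ := nat_lit 0x6d0000000000000000000000000000010000000000000000000000000000000000000000000000000000000000000000000000000000000000000000000000000000000000000000003da024881c

theorem so_3_4_21_986 : sl_3_4_21_986 < 2 ^ 1024 ∧ SlotOK sl_3_4_21_986 :=
  ⟨by decide +kernel, slot_of (by decide +kernel) (by decide +kernel) (by decide +kernel) t1_3_4_21
    t2_3_4_21_986 (by decide +kernel)⟩

def sl_3_4_24_432 : ℕ := nat_lit 0x6d80000000000000006d80000006d80000006d80000006d80000006d8000000000018000018018018018018000000000000000006d80000000000000006d800000000001800001800000000000006d8000000000018000000000000000000000000000001b00365b1f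

theorem so_3_4_24_432 : sl_3_4_24_432 < 2 ^ 1024 ∧ SlotOK sl_3_4_24_432 :=
  ⟨by decide +kernel, slot_of (by decide +kernel) (by decide +kernel) (by decide +kernel) t1_3_4_24
    (T2_of (by decide) (by decide) (by decide) (Or.inl (by decide)) (Or.inl (by decide)) (Or.inl (by decide)) : T2 3 4 24 432 tb_3_4_24) (by decide +kernel)⟩

def sl_3_4_24_575 : ℕ := nat_lit 0x4980000000000000004980000006d80000004980000006d80000004980000000000100000100180100180100000000000000000049800000000000000049800000000001000001000000000000004980000000000100000000000000000000000000000023f0365b1f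

theorem so_3_4_24_575 : sl_3_4_24_575 < 2 ^ 1024 ∧ SlotOK sl_3_4_24_575 :=
  ⟨by decide +kernel, slot_of (by decide +kernel) (by decide +kernel) (by decide +kernel) t1_3_4_24
    t2_3_4_24_575 (by decide +kernel)⟩

def sl_3_4_24_647 : ℕ := nat_lit 0x80000000000000000080000006d80000000080000006d8000000008000000000000000000018000018000000000000000000000080000000000000000080000000000000000000000000000000008000000000000000000000000000000000000000002870365b1f

theorem so_3_4_24_647 : sl_3_4_24_647 < 2 ^ 1024 ∧ SlotOK sl_3_4_24_647 :=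
  ⟨by decide +kernel, slot_of (by decide +kernel) (by decide +kernel) (by decide +kernel) t1_3_4_24
    t2_3_4_24_647 (by decide +kernel)⟩

def sl_3_4_24_1022 : ℕ := nat_lit 0x6d80000000000000006d8000000000000000000000000000018000018000000000000000000000000000000000000000000000000000000000000000000000000000000000000000000000000000000000000000000003fe0365b1f

theorem so_3_4_24_1022 : sl_3_4_24_1022 < 2 ^ 1024 ∧ SlotOK sl_3_4_24_1022 :=
  ⟨by decide +kernel, slot_of (by decide +kernel) (by decide +kernel) (by decide +kernel) t1_3_4_24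
    t2_3_4_24_1022 (by decide +kernel)⟩

def sl_3_4_27_432 : ℕ := nat_lit 0x2681000042681000042681000042681000042681000042681000042681000042681000042002002002002002002002000000000026810000426810000426810000426810000420020020020000002681000042681000042002000026810000420000001000000001b004d3e22

theorem so_3_4_27_432 : sl_3_4_27_432 < 2 ^ 1024 ∧ SlotOK sl_3_4_27_432 :=
  ⟨by decide +kernel, slot_of (by decide +kernel) (by decide +kernel) (by decide +kernel) t1_3_4_27
    (T2_of (by decide) (by decide) (by decide) (Or.inl (by decide)) (Or.inl (by decide)) (Or.inl (by decide)) : T2 3 4 27 432 tb_3_4_27) (by decide +kernel)⟩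

def sl_3_4_27_623 : ℕ := nat_lit 0x400000000000000000000000000000000000000000000000000000000000000000000000000000000000000000000000000000000000000000000000000000000000000000000000000000000000000000000000000000000000000000000000000000026f04d3e22

theorem so_3_4_27_623 : sl_3_4_27_623 < 2 ^ 1024 ∧ SlotOK sl_3_4_27_623 :=
  ⟨by decide +kernel, slot_of (by decide +kernel) (by decide +kernel) (by decide +kernel) t1_3_4_27
    t2_3_4_27_623 (by decide +kernel)⟩

def sl_3_5_8_432 : ℕ := nat_lit 0xdf0000000000000000000000000000000000df000000000003000000000003000000000000000000000000000000000000000000df00000000000300000000000000000000000000000000000000000000000000000001b00029810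

theorem so_3_5_8_432 : sl_3_5_8_432 < 2 ^ 1024 ∧ SlotOK sl_3_5_8_432 :=
  ⟨by decide +kernel, slot_of (by decide +kernel) (by decide +kernel) (by decide +kernel) t1_3_5_8
    (T2_of (by decide) (by decide) (by decide) (Or.inl (by decide)) (Or.inl (by decide)) (Or.inl (by decide)) : T2 3 5 8 432 tb_3_5_8) (by decide +kernel)⟩

def sl_3_5_8_690 : ℕ := nat_lit 0xdf0000000000000000000000000000000000df000000000003000000000003000000000000000000000000000000000000000000df00000000000300000000000000000000000000000000000000000000000000000002b20029810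

theorem so_3_5_8_690 : sl_3_5_8_690 < 2 ^ 1024 ∧ SlotOK sl_3_5_8_690 :=
  ⟨by decide +kernel, slot_of (by decide +kernel) (by decide +kernel) (by decide +kernel) t1_3_5_8
    t2_3_5_8_690 (by decide +kernel)⟩

def sl_3_5_8_1022 : ℕ := nat_lit 0xdf0000000000000000000000030000000000000000000000000000000000000000000000000000000000000000000000000000000000000000000000000000000000000003fe0029810

theorem so_3_5_8_1022 : sl_3_5_8_1022 < 2 ^ 1024 ∧ SlotOK sl_3_5_8_1022 :=
  ⟨by decide +kernel, slot_of (by decide +kernel) (by decide +kernel) (by decide +kernel) t1_3_5_8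
    t2_3_5_8_1022 (by decide +kernel)⟩

def sl_3_5_12_432 : ℕ := nat_lit 0x5b00000b60000000b65b00000b60000000b65b00000b60000000b65b00000b60000000b6402002402002402002402002000000005b00000b60000000b65b00000b60000000b640200240200200005b00000b60000000b6402002000000000b600200000000000001b00075814

theorem so_3_5_12_432 : sl_3_5_12_432 < 2 ^ 1024 ∧ SlotOK sl_3_5_12_432 :=
  ⟨by decide +kernel, slot_of (by decide +kernel) (by decide +kernel) (by decide +kernel) t1_3_5_12
    (T2_of (by decide) (by decide) (by decide) (Or.inl (by decide)) (Or.inl (by decide)) (Or.inl (by decide)) : T2 3 5 12 432 tb_3_5_12) (by decide +kernel)⟩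

def sl_3_5_12_690 : ℕ := nat_lit 0xb60000000b60000000b60000000b60000000b60000000b60000000b60000000b6002002002002002002002002000000000000000b60000000b60000000b60000000b600200200200200000000000b60000000b6002002000000000b600200000000000002b20075814

theorem so_3_5_12_690 : sl_3_5_12_690 < 2 ^ 1024 ∧ SlotOK sl_3_5_12_690 :=
  ⟨by decide +kernel, slot_of (by decide +kernel) (by decide +kernel) (by decide +kernel) t1_3_5_12
    t2_3_5_12_690 (by decide +kernel)⟩

def sl_3_6_8_432 : ℕ := nat_lit 0x200005b4036db68000200b6db4036d000000200b6db4036db68000200b6db4036d00000516802d14002d16802d14000000000000200005b4036db68000200b6db4036d00000516802d1400000000200005b4036d000005140000002000000000000000000001b0002f311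

theorem so_3_6_8_432 : sl_3_6_8_432 < 2 ^ 1024 ∧ SlotOK sl_3_6_8_432 :=
  ⟨by decide +kernel, slot_of (by decide +kernel) (by decide +kernel) (by decide +kernel) t1_3_6_8
    (T2_of (by decide) (by decide) (by decide) (Or.inl (by decide)) (Or.inl (by decide)) (Or.inl (by decide)) : T2 3 6 8 432 tb_3_6_8) (by decide +kernel)⟩

def sl_3_6_8_485 : ℕ := nat_lit 0x200000040325928000200928040325000000200928040325928000200928040325000000120020100020120020100000000000002000000403259280002009280403250000001200201000000000200000040325000000100000002000000000000000000001e5002f311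

theorem so_3_6_8_485 : sl_3_6_8_485 < 2 ^ 1024 ∧ SlotOK sl_3_6_8_485 :=
  ⟨by decide +kernel, slot_of (by decide +kernel) (by decide +kernel) (by decide +kernel) t1_3_6_8
    t2_3_6_8_485 (by decide +kernel)⟩

def sl_3_6_8_554 : ℕ := nat_lit 0x2000000403259280002009280403250000002009280403259280002009280403250000001200201000201200201000000000000020000004032592800020092804032500000012002010000000002000000403250000001000000020000000000000000000022a002f311

theorem so_3_6_8_554 : sl_3_6_8_554 < 2 ^ 1024 ∧ SlotOK sl_3_6_8_554 :=
  ⟨by decide +kernel, slot_of (by decide +kernel) (by decide +kernel) (by decide +kernel) t1_3_6_8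
    t2_3_6_8_554 (by decide +kernel)⟩

def sl_3_6_8_647 : ℕ := nat_lit 0x20000004032592800020092804032500000020092804032592800020092804032500000012002010002012002010000000000000200000040325928000200928040325000000120020100000000020000004032500000010000000200000000000000000000287002f311

theorem so_3_6_8_647 : sl_3_6_8_647 < 2 ^ 1024 ∧ SlotOK sl_3_6_8_647 :=
  ⟨by decide +kernel, slot_of (by decide +kernel) (by decide +kernel) (by decide +kernel) t1_3_6_8
    t2_3_6_8_647 (by decide +kernel)⟩

def sl_3_6_8_713 : ℕ := nat_lit 0x1008000000008000001000000000008000001008000000008000001000000000000000000000000000000000000000000000000010080000000080000010000000000000000000000000000000001000000000000000000000000000000000002c9002f311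

theorem so_3_6_8_713 : sl_3_6_8_713 < 2 ^ 1024 ∧ SlotOK sl_3_6_8_713 :=
  ⟨by decide +kernel, slot_of (by decide +kernel) (by decide +kernel) (by decide +kernel) t1_3_6_8
    t2_3_6_8_713 (by decide +kernel)⟩

def sl_3_6_8_1294 : ℕ := nat_lit 0x10080000000080000010000000000080000010080000000080000010000000000000000000000000000000000000000000000000100800000000800000100000000000000000000000000000000010000000000000000000000000000000000050e002f311

theorem so_3_6_8_1294 : sl_3_6_8_1294 < 2 ^ 1024 ∧ SlotOK sl_3_6_8_1294 :=
  ⟨by decide +kernel, slot_of (by decide +kernel) (by decide +kernel) (by decide +kernel) t1_3_6_8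
    t2_3_6_8_1294 (by decide +kernel)⟩

def sl_3_6_16_432 : ℕ := nat_lit 0x1b60000001b6006d80000000000000006d801b60000001b6000000000006006180000186006000000000000000000000000000001b60000001b6000000000006006000000000000000000000000000000000000000000000000000000001b0010f319

theorem so_3_6_16_432 : sl_3_6_16_432 < 2 ^ 1024 ∧ SlotOK sl_3_6_16_432 :=
  ⟨by decide +kernel, slot_of (by decide +kernel) (by decide +kernel) (by decide +kernel) t1_3_6_16
    (T2_of (by decide) (by decide) (by decide) (Or.inl (by decide)) (Or.inl (by decide)) (Or.inl (by decide)) : T2 3 6 16 432 tb_3_6_16) (by decide +kernel)⟩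

def sl_3_6_16_554 : ℕ := nat_lit 0x126000000126004980000000000000004980126000000126000000000004004100000104004000000000000000000000000000001260000001260000000000040040000000000000000000000000000000000000000000000000000000022a010f319

theorem so_3_6_16_554 : sl_3_6_16_554 < 2 ^ 1024 ∧ SlotOK sl_3_6_16_554 :=
  ⟨by decide +kernel, slot_of (by decide +kernel) (by decide +kernel) (by decide +kernel) t1_3_6_16
    t2_3_6_16_554 (by decide +kernel)⟩

def sl_3_6_16_647 : ℕ := nat_lit 0x20000000020000800000000000000000800020000000020000000000000000000000000000000000000000000000000000000000200000000200000000000000000000000000000000000000000000000000000000000000000000000287010f319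

theorem so_3_6_16_647 : sl_3_6_16_647 < 2 ^ 1024 ∧ SlotOK sl_3_6_16_647 :=
  ⟨by decide +kernel, slot_of (by decide +kernel) (by decide +kernel) (by decide +kernel) t1_3_6_16
    t2_3_6_16_647 (by decide +kernel)⟩

def sl_3_7_8_432 : ℕ := nat_lit 0x40000008040200000040000008040200008040000008040200008040000008040200000000000000000000000000000000000000400000080402000000400000080402000000000000000000000040000008040200000000000000400000000000000000000001b00037212

theorem so_3_7_8_432 : sl_3_7_8_432 < 2 ^ 1024 ∧ SlotOK sl_3_7_8_432 :=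
  ⟨by decide +kernel, slot_of (by decide +kernel) (by decide +kernel) (by decide +kernel) t1_3_7_8
    (T2_of (by decide) (by decide) (by decide) (Or.inl (by decide)) (Or.inl (by decide)) (Or.inl (by decide)) : T2 3 7 8 432 tb_3_7_8) (by decide +kernel)⟩

def sl_3_7_8_575 : ℕ := nat_lit 0x2000000000000000002000080000000000002000080000000000002000000000000000000000000000000000000000000000000020000000000000000020000000000000000000000000000000002000000000000000000000000000000000000023f0037212

theorem so_3_7_8_575 : sl_3_7_8_575 < 2 ^ 1024 ∧ SlotOK sl_3_7_8_575 :=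
  ⟨by decide +kernel, slot_of (by decide +kernel) (by decide +kernel) (by decide +kernel) t1_3_7_8
    t2_3_7_8_575 (by decide +kernel)⟩

def sl_3_7_8_616 : ℕ := nat_lit 0x8000000000000000008000000000000000000000000000000000000000000000000000000000000000000000000000000000000000000000000000000000000000000000000000000000000000000000000000000002680037212

theorem so_3_7_8_616 : sl_3_7_8_616 < 2 ^ 1024 ∧ SlotOK sl_3_7_8_616 :=
  ⟨by decide +kernel, slot_of (by decide +kernel) (by decide +kernel) (by decide +kernel) t1_3_7_8
    t2_3_7_8_616 (by decide +kernel)⟩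

def sl_3_7_8_1035 : ℕ := nat_lit 0x80000000000000000080000000000000000000000000000000000000000000000000000000000000000000000000000000000000000000000000000000000000000000000000000000000000000000000000000000040b0037212

theorem so_3_7_8_1035 : sl_3_7_8_1035 < 2 ^ 1024 ∧ SlotOK sl_3_7_8_1035 :=
  ⟨by decide +kernel, slot_of (by decide +kernel) (by decide +kernel) (by decide +kernel) t1_3_7_8
    t2_3_7_8_1035 (by decide +kernel)⟩

def sl_3_7_9_432 : ℕ := nat_lit 0x490000000000000000000000000000000000490000000000010000000000010000000000000000000000000000000000000000004900000000000100000000000000000000000000000000000000000000000000000001b00044b13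

theorem so_3_7_9_432 : sl_3_7_9_432 < 2 ^ 1024 ∧ SlotOK sl_3_7_9_432 :=
  ⟨by decide +kernel, slot_of (by decide +kernel) (by decide +kernel) (by decide +kernel) t1_3_7_9
    (T2_of (by decide) (by decide) (by decide) (Or.inl (by decide)) (Or.inl (by decide)) (Or.inl (by decide)) : T2 3 7 9 432 tb_3_7_9) (by decide +kernel)⟩

def sl_3_8_8_432 : ℕ := nat_lit 0xdf6f80000df0000000db6f80000df0000000df6f80000df0000000006f80000df003603003603003603000603000000000000000df6f80000df0000000006f80000df00360300060300000000000006f80000df0006030000000000000000000000000001b00041b13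

theorem so_3_8_8_432 : sl_3_8_8_432 < 2 ^ 1024 ∧ SlotOK sl_3_8_8_432 :=
  ⟨by decide +kernel, slot_of (by decide +kernel) (by decide +kernel) (by decide +kernel) t1_3_8_8
    (T2_of (by decide) (by decide) (by decide) (Or.inl (by decide)) (Or.inl (by decide)) (Or.inl (by decide)) : T2 3 8 8 432 tb_3_8_8) (by decide +kernel)⟩

def sl_3_8_8_719 : ℕ := nat_lit 0xdb0000000000000000000000000000000000000000000000000000030000000000000000000000000000000000000000000000000000000000000000000000000000000000000000000000000000000000000000000000000000002cf0041b13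

theorem so_3_8_8_719 : sl_3_8_8_719 < 2 ^ 1024 ∧ SlotOK sl_3_8_8_719 :=
  ⟨by decide +kernel, slot_of (by decide +kernel) (by decide +kernel) (by decide +kernel) t1_3_8_8
    t2_3_8_8_719 (by decide +kernel)⟩

def sl_3_8_9_432 : ℕ := nat_lit 0x928000000920000000928000000920000000928000000000000000928000000000020020020020020000020000000000000000009280000000000000009280000000000200000200000000000000928000000000020000000000000000000000000000001b0004f414

theorem so_3_8_9_432 : sl_3_8_9_432 < 2 ^ 1024 ∧ SlotOK sl_3_8_9_432 :=
  ⟨by decide +kernel, slot_of (by decide +kernel) (by decide +kernel) (by decide +kernel) t1_3_8_9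
    (T2_of (by decide) (by decide) (by decide) (Or.inl (by decide)) (Or.inl (by decide)) (Or.inl (by decide)) : T2 3 8 9 432 tb_3_8_9) (by decide +kernel)⟩

def sl_3_8_9_1725 : ℕ := nat_lit 0x928000000920000000928000000920000000928000000000000000928000000000020020020020020000020000000000000000009280000000000000009280000000000200000200000000000000928000000000020000000000000000000000000000006bd004f414

theorem so_3_8_9_1725 : sl_3_8_9_1725 < 2 ^ 1024 ∧ SlotOK sl_3_8_9_1725 :=
  ⟨by decide +kernel, slot_of (by decide +kernel) (by decide +kernel) (by decide +kernel) t1_3_8_9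
    t2_3_8_9_1725 (by decide +kernel)⟩

def sl_3_8_12_432 : ℕ := nat_lit 0x5b00000925b00000925b00000925b00000925b00000925b00000925b00000925b0000092402402402402402402402402000000005b00000925b00000925b00000925b000009240240240240200005b00000925b0000092402402005b000009240200000000000001b0008db17

theorem so_3_8_12_432 : sl_3_8_12_432 < 2 ^ 1024 ∧ SlotOK sl_3_8_12_432 :=
  ⟨by decide +kernel, slot_of (by decide +kernel) (by decide +kernel) (by decide +kernel) t1_3_8_12
    (T2_of (by decide) (by decide) (by decide) (Or.inl (by decide)) (Or.inl (by decide)) (Or.inl (by decide)) : T2 3 8 12 432 tb_3_8_12) (by decide +kernel)⟩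

def sl_3_8_12_863 : ℕ := nat_lit 0x9200000009200000009200000009200000009200000009200000009200000009200200200200200200200200200000000000000092000000092000000092000000092002002002002000000000009200000009200200200000000092002000000000000035f008db17

theorem so_3_8_12_863 : sl_3_8_12_863 < 2 ^ 1024 ∧ SlotOK sl_3_8_12_863 :=
  ⟨by decide +kernel, slot_of (by decide +kernel) (by decide +kernel) (by decide +kernel) t1_3_8_12
    t2_3_8_12_863 (by decide +kernel)⟩

def sl_3_8_16_432 : ℕ := nat_lit 0x248000000ff8000000248000000ff8000000248000000000000000248000000000008038008038008000008000080800000000002480000000000000002480000000000080000080000000000000248000000000008000000000000000000000000000001b00121b1b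

theorem so_3_8_16_432 : sl_3_8_16_432 < 2 ^ 1024 ∧ SlotOK sl_3_8_16_432 :=
  ⟨by decide +kernel, slot_of (by decide +kernel) (by decide +kernel) (by decide +kernel) t1_3_8_16
    (T2_of (by decide) (by decide) (by decide) (Or.inl (by decide)) (Or.inl (by decide)) (Or.inl (by decide)) : T2 3 8 16 432 tb_3_8_16) (by decide +kernel)⟩

def sl_3_8_16_863 : ℕ := nat_lit 0x2480000000000000002480000000000000000000000000000000000000000080000080000000000000000000000000000000000000000000000000000000000000000000000000000000000000000000000000000000000000000000000000035f0121b1b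

theorem so_3_8_16_863 : sl_3_8_16_863 < 2 ^ 1024 ∧ SlotOK sl_3_8_16_863 :=
  ⟨by decide +kernel, slot_of (by decide +kernel) (by decide +kernel) (by decide +kernel) t1_3_8_16
    t2_3_8_16_863 (by decide +kernel)⟩

def sl_3_8_18_432 : ℕ := nat_lit 0x1000004b01000000001000924b01000920001000004b01000000001000004b0100092000400002402000400000402000000000001000004b01000000001000004b010009200040000040200000001000004b01000000004000000010000000000000000000001b0018e31d

theorem so_3_8_18_432 : sl_3_8_18_432 < 2 ^ 1024 ∧ SlotOK sl_3_8_18_432 :=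
  ⟨by decide +kernel, slot_of (by decide +kernel) (by decide +kernel) (by decide +kernel) t1_3_8_18
    (T2_of (by decide) (by decide) (by decide) (Or.inl (by decide)) (Or.inl (by decide)) (Or.inl (by decide)) : T2 3 8 18 432 tb_3_8_18) (by decide +kernel)⟩

def sl_3_8_18_719 : ℕ := nat_lit 0x920000000000000000000000000000000000000000000000000000020000000000000000000000000000000000000000000000000000000000000000000000000000000000000000000000000000000000000000000000000000002cf018e31d

theorem so_3_8_18_719 : sl_3_8_18_719 < 2 ^ 1024 ∧ SlotOK sl_3_8_18_719 :=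
  ⟨by decide +kernel, slot_of (by decide +kernel) (by decide +kernel) (by decide +kernel) t1_3_8_18
    t2_3_8_18_719 (by decide +kernel)⟩

def sl_3_8_24_432 : ℕ := nat_lit 0x5b40000b68000000b6db40000000000000b6db40000b68000000b6db4000000000502802d00002d02802d00000000000000000005b40000b68000000b6db4000000000502802d0000000000000005b40000000005000000000000000000000000000001b00381b23

theorem so_3_8_24_432 : sl_3_8_24_432 < 2 ^ 1024 ∧ SlotOK sl_3_8_24_432 :=
  ⟨by decide +kernel, slot_of (by decide +kernel) (by decide +kernel) (by decide +kernel) t1_3_8_24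
    (T2_of (by decide) (by decide) (by decide) (Or.inl (by decide)) (Or.inl (by decide)) (Or.inl (by decide)) : T2 3 8 24 432 tb_3_8_24) (by decide +kernel)⟩

def sl_3_8_24_485 : ℕ := nat_lit 0x40000928000000928040000000000000928040000928000000928040000000000020020000020020020000000000000000000000400009280000009280400000000000200200000000000000000040000000000000000000000000000000000000001e50381b23

theorem so_3_8_24_485 : sl_3_8_24_485 < 2 ^ 1024 ∧ SlotOK sl_3_8_24_485 :=
  ⟨by decide +kernel, slot_of (by decide +kernel) (by decide +kernel) (by decide +kernel) t1_3_8_24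
    t2_3_8_24_485 (by decide +kernel)⟩

def sl_3_8_24_647 : ℕ := nat_lit 0x40000928000000928040000000000000928040000928000000928040000000000020020000020020020000000000000000000000400009280000009280400000000000200200000000000000000040000000000000000000000000000000000000002870381b23

theorem so_3_8_24_647 : sl_3_8_24_647 < 2 ^ 1024 ∧ SlotOK sl_3_8_24_647 :=
  ⟨by decide +kernel, slot_of (by decide +kernel) (by decide +kernel) (by decide +kernel) t1_3_8_24
    t2_3_8_24_647 (by decide +kernel)⟩

def ch_1_0 : List ℕ := [sl_2_4_9_211, sl_2_4_9_305, sl_2_4_9_383, sl_2_5_8_128, sl_2_5_8_139, sl_2_5_8_255, sl_2_6_9_128, sl_2_6_9_511, sl_2_8_9_128, sl_2_8_9_170, sl_2_8_9_255, sl_2_9_9_128]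

theorem ch_1_0_ok : ∀ s ∈ ch_1_0, s < 2 ^ 1024 ∧ SlotOK s :=
  List.forall_mem_cons.2 ⟨so_2_4_9_211, List.forall_mem_cons.2 ⟨so_2_4_9_305, List.forall_mem_cons.2 ⟨so_2_4_9_383, List.forall_mem_cons.2 ⟨so_2_5_8_128, List.forall_mem_cons.2 ⟨so_2_5_8_139, List.forall_mem_cons.2 ⟨so_2_5_8_255, List.forall_mem_cons.2 ⟨so_2_6_9_128, List.forall_mem_cons.2 ⟨so_2_6_9_511, List.forall_mem_cons.2 ⟨so_2_8_9_128, List.forall_mem_cons.2 ⟨so_2_8_9_170, List.forall_mem_cons.2 ⟨so_2_8_9_255, List.forall_mem_cons.2 ⟨so_2_9_9_128, List.forall_mem_nil _⟩⟩⟩⟩⟩⟩⟩⟩⟩⟩⟩⟩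

def ch_1_1 : List ℕ := [sl_2_9_9_383, sl_2_9_12_128, sl_3_3_4_432, sl_3_3_4_539, sl_3_3_4_863, sl_3_3_5_432, sl_3_3_8_432, sl_3_3_8_479, sl_3_3_8_690, sl_3_3_8_767, sl_3_3_10_432, sl_3_3_10_531]

theorem ch_1_1_ok : ∀ s ∈ ch_1_1, s < 2 ^ 1024 ∧ SlotOK s :=
  List.forall_mem_cons.2 ⟨so_2_9_9_383, List.forall_mem_cons.2 ⟨so_2_9_12_128, List.forall_mem_cons.2 ⟨so_3_3_4_432, List.forall_mem_cons.2 ⟨so_3_3_4_539, List.forall_mem_cons.2 ⟨so_3_3_4_863, List.forall_mem_cons.2 ⟨so_3_3_5_432, List.forall_mem_cons.2 ⟨so_3_3_8_432, List.forall_mem_cons.2 ⟨so_3_3_8_479, List.forall_mem_cons.2 ⟨so_3_3_8_690, List.forall_mem_cons.2 ⟨so_3_3_8_767, List.forall_mem_cons.2 ⟨so_3_3_10_432, List.forall_mem_cons.2 ⟨so_3_3_10_531, List.forall_mem_nil _⟩⟩⟩⟩⟩⟩⟩⟩⟩⟩⟩⟩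

def ch_1_2 : List ℕ := [sl_3_3_16_432, sl_3_3_16_539, sl_3_3_20_432, sl_3_4_4_432, sl_3_4_4_1022, sl_3_4_6_432, sl_3_4_6_575, sl_3_4_6_647, sl_3_4_6_713, sl_3_4_6_800, sl_3_4_6_1022, sl_3_4_7_432]

theorem ch_1_2_ok : ∀ s ∈ ch_1_2, s < 2 ^ 1024 ∧ SlotOK s :=
  List.forall_mem_cons.2 ⟨so_3_3_16_432, List.forall_mem_cons.2 ⟨so_3_3_16_539, List.forall_mem_cons.2 ⟨so_3_3_20_432, List.forall_mem_cons.2 ⟨so_3_4_4_432, List.forall_mem_cons.2 ⟨so_3_4_4_1022, List.forall_mem_cons.2 ⟨so_3_4_6_432, List.forall_mem_cons.2 ⟨so_3_4_6_575, List.forall_mem_cons.2 ⟨so_3_4_6_647, List.forall_mem_cons.2 ⟨so_3_4_6_713, List.forall_mem_cons.2 ⟨so_3_4_6_800, List.forall_mem_cons.2 ⟨so_3_4_6_1022, List.forall_mem_cons.2 ⟨so_3_4_7_432, List.forall_mem_nil _⟩⟩⟩⟩⟩⟩⟩⟩⟩⟩⟩⟩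

def ch_1_3 : List ℕ := [sl_3_4_8_432, sl_3_4_8_863, sl_3_4_8_1022, sl_3_4_8_1168, sl_3_4_9_432, sl_3_4_9_755, sl_3_4_9_1022, sl_3_4_9_1278, sl_3_4_9_1363, sl_3_4_12_432, sl_3_4_12_863, sl_3_4_12_1006]

theorem ch_1_3_ok : ∀ s ∈ ch_1_3, s < 2 ^ 1024 ∧ SlotOK s :=
  List.forall_mem_cons.2 ⟨so_3_4_8_432, List.forall_mem_cons.2 ⟨so_3_4_8_863, List.forall_mem_cons.2 ⟨so_3_4_8_1022, List.forall_mem_cons.2 ⟨so_3_4_8_1168, List.forall_mem_cons.2 ⟨so_3_4_9_432, List.forall_mem_cons.2 ⟨so_3_4_9_755, List.forall_mem_cons.2 ⟨so_3_4_9_1022, List.forall_mem_cons.2 ⟨so_3_4_9_1278, List.forall_mem_cons.2 ⟨so_3_4_9_1363, List.forall_mem_cons.2 ⟨so_3_4_12_432, List.forall_mem_cons.2 ⟨so_3_4_12_863, List.forall_mem_cons.2 ⟨so_3_4_12_1006, List.forall_mem_nil _⟩⟩⟩⟩⟩⟩⟩⟩⟩⟩⟩⟩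

def ch_1_4 : List ℕ := [sl_3_4_16_432, sl_3_4_16_755, sl_3_4_16_1022, sl_3_4_18_432, sl_3_4_18_1022, sl_3_4_21_432, sl_3_4_21_767, sl_3_4_21_986, sl_3_4_24_432, sl_3_4_24_575, sl_3_4_24_647, sl_3_4_24_1022]

theorem ch_1_4_ok : ∀ s ∈ ch_1_4, s < 2 ^ 1024 ∧ SlotOK s :=
  List.forall_mem_cons.2 ⟨so_3_4_16_432, List.forall_mem_cons.2 ⟨so_3_4_16_755, List.forall_mem_cons.2 ⟨so_3_4_16_1022, List.forall_mem_cons.2 ⟨so_3_4_18_432, List.forall_mem_cons.2 ⟨so_3_4_18_1022, List.forall_mem_cons.2 ⟨so_3_4_21_432, List.forall_mem_cons.2 ⟨so_3_4_21_767, List.forall_mem_cons.2 ⟨so_3_4_21_986, List.forall_mem_cons.2 ⟨so_3_4_24_432, List.forall_mem_cons.2 ⟨so_3_4_24_575, List.forall_mem_cons.2 ⟨so_3_4_24_647, List.forall_mem_cons.2 ⟨so_3_4_24_1022, List.forall_mem_nil _⟩⟩⟩⟩⟩⟩⟩⟩⟩⟩⟩⟩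

def ch_1_5 : List ℕ := [sl_3_4_27_432, sl_3_4_27_623, sl_3_5_8_432, sl_3_5_8_690, sl_3_5_8_1022, sl_3_5_12_432, sl_3_5_12_690, sl_3_6_8_432, sl_3_6_8_485, sl_3_6_8_554, sl_3_6_8_647, sl_3_6_8_713]

theorem ch_1_5_ok : ∀ s ∈ ch_1_5, s < 2 ^ 1024 ∧ SlotOK s :=
  List.forall_mem_cons.2 ⟨so_3_4_27_432, List.forall_mem_cons.2 ⟨so_3_4_27_623, List.forall_mem_cons.2 ⟨so_3_5_8_432, List.forall_mem_cons.2 ⟨so_3_5_8_690, List.forall_mem_cons.2 ⟨so_3_5_8_1022, List.forall_mem_cons.2 ⟨so_3_5_12_432, List.forall_mem_cons.2 ⟨so_3_5_12_690, List.forall_mem_cons.2 ⟨so_3_6_8_432, List.forall_mem_cons.2 ⟨so_3_6_8_485, List.forall_mem_cons.2 ⟨so_3_6_8_554, List.forall_mem_cons.2 ⟨so_3_6_8_647, List.forall_mem_cons.2 ⟨so_3_6_8_713, List.forall_mem_nil _⟩⟩⟩⟩⟩⟩⟩⟩⟩⟩⟩⟩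

def ch_1_6 : List ℕ := [sl_3_6_8_1294, sl_3_6_16_432, sl_3_6_16_554, sl_3_6_16_647, sl_3_7_8_432, sl_3_7_8_575, sl_3_7_8_616, sl_3_7_8_1035, sl_3_7_9_432, sl_3_8_8_432, sl_3_8_8_719, sl_3_8_9_432]

theorem ch_1_6_ok : ∀ s ∈ ch_1_6, s < 2 ^ 1024 ∧ SlotOK s :=
  List.forall_mem_cons.2 ⟨so_3_6_8_1294, List.forall_mem_cons.2 ⟨so_3_6_16_432, List.forall_mem_cons.2 ⟨so_3_6_16_554, List.forall_mem_cons.2 ⟨so_3_6_16_647, List.forall_mem_cons.2 ⟨so_3_7_8_432, List.forall_mem_cons.2 ⟨so_3_7_8_575, List.forall_mem_cons.2 ⟨so_3_7_8_616, List.forall_mem_cons.2 ⟨so_3_7_8_1035, List.forall_mem_cons.2 ⟨so_3_7_9_432, List.forall_mem_cons.2 ⟨so_3_8_8_432, List.forall_mem_cons.2 ⟨so_3_8_8_719, List.forall_mem_cons.2 ⟨so_3_8_9_432, List.forall_mem_nil _⟩⟩⟩⟩⟩⟩⟩⟩⟩⟩⟩⟩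

def ch_1_7 : List ℕ := [sl_3_8_9_1725, sl_3_8_12_432, sl_3_8_12_863, sl_3_8_16_432, sl_3_8_16_863, sl_3_8_18_432, sl_3_8_18_719, sl_3_8_24_432, sl_3_8_24_485, sl_3_8_24_647]

theorem ch_1_7_ok : ∀ s ∈ ch_1_7, s < 2 ^ 1024 ∧ SlotOK s :=
  List.forall_mem_cons.2 ⟨so_3_8_9_1725, List.forall_mem_cons.2 ⟨so_3_8_12_432, List.forall_mem_cons.2 ⟨so_3_8_12_863, List.forall_mem_cons.2 ⟨so_3_8_16_432, List.forall_mem_cons.2 ⟨so_3_8_16_863, List.forall_mem_cons.2 ⟨so_3_8_18_432, List.forall_mem_cons.2 ⟨so_3_8_18_719, List.forall_mem_cons.2 ⟨so_3_8_24_432, List.forall_mem_cons.2 ⟨so_3_8_24_485, List.forall_mem_cons.2 ⟨so_3_8_24_647, List.forall_mem_nil _⟩⟩⟩⟩⟩⟩⟩⟩⟩⟩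

end Pool.H94.Pol
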