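import Pool.Agent.H94.Pol.Slot
import Pool.Agent.H94.Pol.Data.A01
import Pool.Agent.H94.Pol.Data.A02
import Pool.Agent.H94.Pol.Data.A03
import Pool.Agent.H94.Pol.Data.A04
import Pool.Agent.H94.Pol.Data.A05
import Pool.Agent.H94.Pol.Data.A06
import Pool.Agent.H94.Pol.Data.A07
import Pool.Agent.H94.Pol.Data.A08
import Pool.Agent.H94.Pol.Data.A09
import Pool.Agent.H94.Pol.Data.A10
import Pool.Agent.H94.Pol.Data.A11
import Pool.Agent.H94.Pol.Data.A12
import Pool.Agent.H94.Pol.Data.A13
import Pool.Agent.H94.Pol.Data.A14
import Pool.Agent.H94.Pol.Data.A15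
import Pool.Agent.H94.Pol.Data.A16
import Pool.Agent.H94.Pol.Data.B01
import Pool.Agent.H94.Pol.Data.B02
import Pool.Agent.H94.Pol.Data.B03
import Pool.Agent.H94.Pol.Data.B04

/-! Slots of the data base. -/

namespace Pool.H94.Pol

def sl_3_8_24_713 : ℕ := nat_lit 0x8000000008000000000000000008000000008000000008000000000000000000000000000000000000000000000000000000000080000000080000000000000000000000000000000000000000000000000000000000000000000000000002c90381b23

theorem so_3_8_24_713 : sl_3_8_24_713 < 2 ^ 1024 ∧ SlotOK sl_3_8_24_713 :=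
  ⟨by decide +kernel, slot_of (by decide +kernel) (by decide +kernel) (by decide +kernel) t1_3_8_24
    t2_3_8_24_713 (by decide +kernel)⟩

def sl_3_8_24_1294 : ℕ := nat_lit 0x80000000080000000000000000080000000080000000080000000000000000000000000000000000000000000000000000000000800000000800000000000000000000000000000000000000000000000000000000000000000000000000050e0381b23

theorem so_3_8_24_1294 : sl_3_8_24_1294 < 2 ^ 1024 ∧ SlotOK sl_3_8_24_1294 :=
  ⟨by decide +kernel, slot_of (by decide +kernel) (by decide +kernel) (by decide +kernel) t1_3_8_24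
    t2_3_8_24_1294 (by decide +kernel)⟩

def sl_3_8_27_432 : ℕ := nat_lit 0x200000000200000000200000000200000000200000000200000000200000000200000000000000000000000000000000000000002000000002000000002000000002000000000000000000000000200000000200000000000000002000000000000000000000001b004efe26

theorem so_3_8_27_432 : sl_3_8_27_432 < 2 ^ 1024 ∧ SlotOK sl_3_8_27_432 :=
  ⟨by decide +kernel, slot_of (by decide +kernel) (by decide +kernel) (by decide +kernel) t1_3_8_27
    (T2_of (by decide) (by decide) (by decide) (Or.inl (by decide)) (Or.inl (by decide)) (Or.inl (by decide)) : T2 3 8 27 432 tb_3_8_27) (by decide +kernel)⟩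

def sl_3_9_16_432 : ℕ := nat_lit 0x2000000400000000002000004d0000000000200000040000000000200000040000000000000000010000000000000000000000002000000400000000002000000400000000000000000000000000200000040000000000000000000000000000000000000000001b0012f41c

theorem so_3_9_16_432 : sl_3_9_16_432 < 2 ^ 1024 ∧ SlotOK sl_3_9_16_432 :=
  ⟨by decide +kernel, slot_of (by decide +kernel) (by decide +kernel) (by decide +kernel) t1_3_9_16
    (T2_of (by decide) (by decide) (by decide) (Or.inl (by decide)) (Or.inl (by decide)) (Or.inl (by decide)) : T2 3 9 16 432 tb_3_9_16) (by decide +kernel)⟩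

def sl_3_9_16_1725 : ℕ := nat_lit 0x400000000000000004d0000000000000000040000000000000000040000000000000000010000000000000000000000000000000400000000000000000400000000000000000000000000000000040000000000000000000000000000000000000000006bd012f41c

theorem so_3_9_16_1725 : sl_3_9_16_1725 < 2 ^ 1024 ∧ SlotOK sl_3_9_16_1725 :=
  ⟨by decide +kernel, slot_of (by decide +kernel) (by decide +kernel) (by decide +kernel) t1_3_9_16
    t2_3_9_16_1725 (by decide +kernel)⟩

def sl_3_12_16_432 : ℕ := nat_lit 0x6d36800004900000000036800004900000006d3680000490000000003680000490012010002010012010002010000000000000006d36800004900000000036800004900120100020100000000000003680000490002010000000000000000000000000001b0016db1f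

theorem so_3_12_16_432 : sl_3_12_16_432 < 2 ^ 1024 ∧ SlotOK sl_3_12_16_432 :=
  ⟨by decide +kernel, slot_of (by decide +kernel) (by decide +kernel) (by decide +kernel) t1_3_12_16
    (T2_of (by decide) (by decide) (by decide) (Or.inl (by decide)) (Or.inl (by decide)) (Or.inl (by decide)) : T2 3 12 16 432 tb_3_12_16) (by decide +kernel)⟩

def sl_3_12_16_863 : ℕ := nat_lit 0x6d00000004900000000000000004900000006d0000000490000000000000000490010010000010010010000010000000000000006d000000049000000000000000049001001000001000000000000000000004900000100000000000000000000000000035f016db1f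

theorem so_3_12_16_863 : sl_3_12_16_863 < 2 ^ 1024 ∧ SlotOK sl_3_12_16_863 :=
  ⟨by decide +kernel, slot_of (by decide +kernel) (by decide +kernel) (by decide +kernel) t1_3_12_16
    t2_3_12_16_863 (by decide +kernel)⟩

def sl_3_16_16_432 : ℕ := nat_lit 0xdf0000000000000000000000000000000000df000000000000000000000000000003000000000003000000000000000000000000df00000000000000000000000000000300000000000000000000000000000000000000000000000000000000000000001b00201b23

theorem so_3_16_16_432 : sl_3_16_16_432 < 2 ^ 1024 ∧ SlotOK sl_3_16_16_432 :=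
  ⟨by decide +kernel, slot_of (by decide +kernel) (by decide +kernel) (by decide +kernel) t1_3_16_16
    (T2_of (by decide) (by decide) (by decide) (Or.inl (by decide)) (Or.inl (by decide)) (Or.inl (by decide)) : T2 3 16 16 432 tb_3_16_16) (by decide +kernel)⟩

def sl_3_16_18_432 : ℕ := nat_lit 0x8000000000000200008000000000000000000000000000000200000000000000000000000000000000000000000000000000000000000000000002000000000000000000000000000000000000000000000000000000000000000000000001b0026e325

theorem so_3_16_18_432 : sl_3_16_18_432 < 2 ^ 1024 ∧ SlotOK sl_3_16_18_432 :=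
  ⟨by decide +kernel, slot_of (by decide +kernel) (by decide +kernel) (by decide +kernel) t1_3_16_18
    (T2_of (by decide) (by decide) (by decide) (Or.inl (by decide)) (Or.inl (by decide)) (Or.inl (by decide)) : T2 3 16 18 432 tb_3_16_18) (by decide +kernel)⟩

def sl_3_16_24_432 : ℕ := nat_lit 0x6d80000000000000006d8000000000000000000000000000018000018000000000000000000000000000000000000000000000000000000000000000000000000000000000000000000000000000000000000000000001b00461b2b

theorem so_3_16_24_432 : sl_3_16_24_432 < 2 ^ 1024 ∧ SlotOK sl_3_16_24_432 :=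
  ⟨by decide +kernel, slot_of (by decide +kernel) (by decide +kernel) (by decide +kernel) t1_3_16_24
    (T2_of (by decide) (by decide) (by decide) (Or.inl (by decide)) (Or.inl (by decide)) (Or.inl (by decide)) : T2 3 16 24 432 tb_3_16_24) (by decide +kernel)⟩

def sl_3_16_24_575 : ℕ := nat_lit 0x4980000000000000004980000000000000000000000000000100000100000000000000000000000000000000000000000000000000000000000000000000000000000000000000000000000000000000000000000000023f0461b2b

theorem so_3_16_24_575 : sl_3_16_24_575 < 2 ^ 1024 ∧ SlotOK sl_3_16_24_575 :=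
  ⟨by decide +kernel, slot_of (by decide +kernel) (by decide +kernel) (by decide +kernel) t1_3_16_24
    t2_3_16_24_575 (by decide +kernel)⟩

def sl_3_16_24_647 : ℕ := nat_lit 0x8000000000000000008000000000000000000000000000000000000000000000000000000000000000000000000000000000000000000000000000000000000000000000000000000000000000000000000000000002870461b2b

theorem so_3_16_24_647 : sl_3_16_24_647 < 2 ^ 1024 ∧ SlotOK sl_3_16_24_647 :=
  ⟨by decide +kernel, slot_of (by decide +kernel) (by decide +kernel) (by decide +kernel) t1_3_16_24
    t2_3_16_24_647 (by decide +kernel)⟩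

def sl_3_16_27_432 : ℕ := nat_lit 0x1000000000000000001000000000000000001000000000000000001000000000000000000000000000000000000000000000000010000000000000000010000000000000000000000000000000001000000000000000000000000000000000000000000000001b005cfe2e

theorem so_3_16_27_432 : sl_3_16_27_432 < 2 ^ 1024 ∧ SlotOK sl_3_16_27_432 :=
  ⟨by decide +kernel, slot_of (by decide +kernel) (by decide +kernel) (by decide +kernel) t1_3_16_27
    (T2_of (by decide) (by decide) (by decide) (Or.inl (by decide)) (Or.inl (by decide)) (Or.inl (by decide)) : T2 3 16 27 432 tb_3_16_27) (by decide +kernel)⟩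

def sl_4_4_5_1024 : ℕ := nat_lit 0x1ff8000001ff8000001ff8000001000000001000000001ff8000001ff800000100003803803800000003803800088800880000001000000001ff8000001ff8000001000000038038000088000000100000000100000000000000001000000000000000000400000fd0d

theorem so_4_4_5_1024 : sl_4_4_5_1024 < 2 ^ 1024 ∧ SlotOK sl_4_4_5_1024 :=
  ⟨by decide +kernel, slot_of (by decide +kernel) (by decide +kernel) (by decide +kernel) t1_4_4_5
    (T2_of (by decide) (by decide) (by decide) (Or.inl (by decide)) (Or.inl (by decide)) (Or.inl (by decide)) : T2 4 4 5 1024 tb_4_4_5) (by decide +kernel)⟩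

def sl_4_4_5_1483 : ℕ := nat_lit 0x8000000008000000008000000000000000000000000008000000008000000000000000000000000000000000000000000000000000000000080000000080000000000000000000000000000000000000000000000000000000000000000000000000005cb000fd0d

theorem so_4_4_5_1483 : sl_4_4_5_1483 < 2 ^ 1024 ∧ SlotOK sl_4_4_5_1483 :=
  ⟨by decide +kernel, slot_of (by decide +kernel) (by decide +kernel) (by decide +kernel) t1_4_4_5
    t2_4_4_5_1483 (by decide +kernel)⟩

def sl_4_4_9_1024 : ℕ := nat_lit 0x1000000001db8000001498000001000000001498000001498000001498000001000000030010000010010010000000000000000010000000014980000014980000010000000100100000000000001000000001000000000000000010000000000000000004000035911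

theorem so_4_4_9_1024 : sl_4_4_9_1024 < 2 ^ 1024 ∧ SlotOK sl_4_4_9_1024 :=
  ⟨by decide +kernel, slot_of (by decide +kernel) (by decide +kernel) (by decide +kernel) t1_4_4_9
    (T2_of (by decide) (by decide) (by decide) (Or.inl (by decide)) (Or.inl (by decide)) (Or.inl (by decide)) : T2 4 4 9 1024 tb_4_4_9) (by decide +kernel)⟩

def sl_4_4_9_1278 : ℕ := nat_lit 0x928000000008000000000000000008000000008000000008000000000000020000000000000000000000000000000000000000000080000000080000000000000000000000000000000000000000000000000000000000000000000000000004fe0035911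

theorem so_4_4_9_1278 : sl_4_4_9_1278 < 2 ^ 1024 ∧ SlotOK sl_4_4_9_1278 :=
  ⟨by decide +kernel, slot_of (by decide +kernel) (by decide +kernel) (by decide +kernel) t1_4_4_9
    t2_4_4_9_1278 (by decide +kernel)⟩

def sl_4_4_9_2045 : ℕ := nat_lit 0x8000000008000000000000000008000000008000000008000000000000000000000000000000000000000000000000000000000080000000080000000000000000000000000000000000000000000000000000000000000000000000000007fd0035911

theorem so_4_4_9_2045 : sl_4_4_9_2045 < 2 ^ 1024 ∧ SlotOK sl_4_4_9_2045 :=
  ⟨by decide +kernel, slot_of (by decide +kernel) (by decide +kernel) (by decide +kernel) t1_4_4_9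
    t2_4_4_9_2045 (by decide +kernel)⟩

def sl_4_4_25_1024 : ℕ := nat_lit 0x80000000080000000000000000080000000080000000080000000000000000000000000000000000000000000000000000000000800000000800000000000000000000000000000000000000000000000000000000000000000000000000040003d8921

theorem so_4_4_25_1024 : sl_4_4_25_1024 < 2 ^ 1024 ∧ SlotOK sl_4_4_25_1024 :=
  ⟨by decide +kernel, slot_of (by decide +kernel) (by decide +kernel) (by decide +kernel) t1_4_4_25
    (T2_of (by decide) (by decide) (by decide) (Or.inl (by decide)) (Or.inl (by decide)) (Or.inl (by decide)) : T2 4 4 25 1024 tb_4_4_25) (by decide +kernel)⟩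

def sl_4_4_27_1024 : ℕ := nat_lit 0x4900000004900000000000000000000000000000000004900000000100100000000000100000000000000000000000000000000000000000049000000000001000000000000000000000000000000000000000000000000000000040004d6323

theorem so_4_4_27_1024 : sl_4_4_27_1024 < 2 ^ 1024 ∧ SlotOK sl_4_4_27_1024 :=
  ⟨by decide +kernel, slot_of (by decide +kernel) (by decide +kernel) (by decide +kernel) t1_4_4_27
    (T2_of (by decide) (by decide) (by decide) (Or.inl (by decide)) (Or.inl (by decide)) (Or.inl (by decide)) : T2 4 4 27 1024 tb_4_4_27) (by decide +kernel)⟩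

def sl_4_5_9_1024 : ℕ := nat_lit 0x249248000249248000249248000249000000249000000249248000249248000249000048048048040040048048040000000000002490000002492480002492480002490000400480480400000000249000000249000040040000002490000400000000000004000039612

theorem so_4_5_9_1024 : sl_4_5_9_1024 < 2 ^ 1024 ∧ SlotOK sl_4_5_9_1024 :=
  ⟨by decide +kernel, slot_of (by decide +kernel) (by decide +kernel) (by decide +kernel) t1_4_5_9
    (T2_of (by decide) (by decide) (by decide) (Or.inl (by decide)) (Or.inl (by decide)) (Or.inl (by decide)) : T2 4 5 9 1024 tb_4_5_9) (by decide +kernel)⟩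

def sl_4_5_9_1227 : ℕ := nat_lit 0x1248000001248000001248000001000000001000000001248000001248000001000008008008000000008008000000000000000010000000012480000012480000010000000080080000000000001000000001000000000000000010000000000000000004cb0039612

theorem so_4_5_9_1227 : sl_4_5_9_1227 < 2 ^ 1024 ∧ SlotOK sl_4_5_9_1227 :=
  ⟨by decide +kernel, slot_of (by decide +kernel) (by decide +kernel) (by decide +kernel) t1_4_5_9
    t2_4_5_9_1227 (by decide +kernel)⟩

def sl_4_5_9_1841 : ℕ := nat_lit 0x1008000001008000001008000001000000001000000001008000001008000001000000000000000000000000000000000000000010000000010080000010080000010000000000000000000000001000000001000000000000000010000000000000000007310039612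

theorem so_4_5_9_1841 : sl_4_5_9_1841 < 2 ^ 1024 ∧ SlotOK sl_4_5_9_1841 :=
  ⟨by decide +kernel, slot_of (by decide +kernel) (by decide +kernel) (by decide +kernel) t1_4_5_9
    t2_4_5_9_1841 (by decide +kernel)⟩

def sl_4_5_9_1997 : ℕ := nat_lit 0x8000000008000000008000000000000000000000000008000000008000000000000000000000000000000000000000000000000000000000080000000080000000000000000000000000000000000000000000000000000000000000000000000000007cd0039612

theorem so_4_5_9_1997 : sl_4_5_9_1997 < 2 ^ 1024 ∧ SlotOK sl_4_5_9_1997 :=
  ⟨by decide +kernel, slot_of (by decide +kernel) (by decide +kernel) (by decide +kernel) t1_4_5_9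
    t2_4_5_9_1997 (by decide +kernel)⟩

def sl_4_5_16_1024 : ℕ := nat_lit 0x16d8000000ff80000010000000000000000016d8000000ff8000001000000018038000000018038000008000800000000000000016d8000000ff8000001000000018038000008000000000000000100000000000000000000000000000000000400010bd19

theorem so_4_5_16_1024 : sl_4_5_16_1024 < 2 ^ 1024 ∧ SlotOK sl_4_5_16_1024 :=
  ⟨by decide +kernel, slot_of (by decide +kernel) (by decide +kernel) (by decide +kernel) t1_4_5_16
    (T2_of (by decide) (by decide) (by decide) (Or.inl (by decide)) (Or.inl (by decide)) (Or.inl (by decide)) : T2 4 5 16 1024 tb_4_5_16) (by decide +kernel)⟩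

def sl_4_5_16_1997 : ℕ := nat_lit 0x8000000008000000000000000000000000008000000008000000000000000000000000000000000000000000000000000000000080000000080000000000000000000000000000000000000000000000000000000000000000000000000007cd010bd19

theorem so_4_5_16_1997 : sl_4_5_16_1997 < 2 ^ 1024 ∧ SlotOK sl_4_5_16_1997 :=
  ⟨by decide +kernel, slot_of (by decide +kernel) (by decide +kernel) (by decide +kernel) t1_4_5_16
    t2_4_5_16_1997 (by decide +kernel)⟩

def sl_4_5_36_1024 : ℕ := nat_lit 0x1000000001000000001000000001000000001000000001000000001000000001000000000000000000000000000000000000000010000000010000000010000000010000000000000000000000001000000001000000000000000010000000000000000004000b6fd2d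

theorem so_4_5_36_1024 : sl_4_5_36_1024 < 2 ^ 1024 ∧ SlotOK sl_4_5_36_1024 :=
  ⟨by decide +kernel, slot_of (by decide +kernel) (by decide +kernel) (by decide +kernel) t1_4_5_36
    (T2_of (by decide) (by decide) (by decide) (Or.inl (by decide)) (Or.inl (by decide)) (Or.inl (by decide)) : T2 4 5 36 1024 tb_4_5_36) (by decide +kernel)⟩

def sl_4_5_36_1841 : ℕ := nat_lit 0x1000000001000000001000000001000000001000000001000000001000000001000000000000000000000000000000000000000010000000010000000010000000010000000000000000000000001000000001000000000000000010000000000000000007310b6fd2d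

theorem so_4_5_36_1841 : sl_4_5_36_1841 < 2 ^ 1024 ∧ SlotOK sl_4_5_36_1841 :=
  ⟨by decide +kernel, slot_of (by decide +kernel) (by decide +kernel) (by decide +kernel) t1_4_5_36
    t2_4_5_36_1841 (by decide +kernel)⟩

def sl_4_6_9_1024 : ℕ := nat_lit 0x101a44069100004069101a44069100004069101a44069100004069101a4406910000406904100104100104100104100100000000101a44069100004069101a440691000040690410010410010000101a44069100004069041001001000040690010100000000000400003f113

theorem so_4_6_9_1024 : sl_4_6_9_1024 < 2 ^ 1024 ∧ SlotOK sl_4_6_9_1024 :=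
  ⟨by decide +kernel, slot_of (by decide +kernel) (by decide +kernel) (by decide +kernel) t1_4_6_9
    (T2_of (by decide) (by decide) (by decide) (Or.inl (by decide)) (Or.inl (by decide)) (Or.inl (by decide)) : T2 4 6 9 1024 tb_4_6_9) (by decide +kernel)⟩

def sl_4_6_9_2045 : ℕ := nat_lit 0x8000200000000200008000200000000200008000200000000690008000200000000690000000000000000010000010000000000080002000000002000080002000000002000000000000000000008000200000000200000000000000002000000000000000007fd003f113

theorem so_4_6_9_2045 : sl_4_6_9_2045 < 2 ^ 1024 ∧ SlotOK sl_4_6_9_2045 :=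
  ⟨by decide +kernel, slot_of (by decide +kernel) (by decide +kernel) (by decide +kernel) t1_4_6_9
    t2_4_6_9_2045 (by decide +kernel)⟩

def sl_4_6_21_1024 : ℕ := nat_lit 0x20000800020000000020000800000000000020000800020000000020000800000000000000000000000000000000000000000000200008000200000000200008000000000000000000000000000020000800000000000000000000000000000000000000000400025451f

theorem so_4_6_21_1024 : sl_4_6_21_1024 < 2 ^ 1024 ∧ SlotOK sl_4_6_21_1024 :=
  ⟨by decide +kernel, slot_of (by decide +kernel) (by decide +kernel) (by decide +kernel) t1_4_6_21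
    (T2_of (by decide) (by decide) (by decide) (Or.inl (by decide)) (Or.inl (by decide)) (Or.inl (by decide)) : T2 4 6 21 1024 tb_4_6_21) (by decide +kernel)⟩

def sl_4_6_21_2454 : ℕ := nat_lit 0x20000000000000000000000000000000000020000000000000000000000000000000000000000000000000000000000000000000200000000000000000000000000000000000000000000000000000000000000000000000000000000000000000996025451f

theorem so_4_6_21_2454 : sl_4_6_21_2454 < 2 ^ 1024 ∧ SlotOK sl_4_6_21_2454 :=
  ⟨by decide +kernel, slot_of (by decide +kernel) (by decide +kernel) (by decide +kernel) t1_4_6_21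
    t2_4_6_21_2454 (by decide +kernel)⟩

def sl_4_7_12_1024 : ℕ := nat_lit 0xdf0000000000000000000000000df0000000df0000000000000000000000000df003000000003003000000003000000000000000df0000000000000000000000000df00300000000300000000000000000000000000000000000000000000000000000004000085717

theorem so_4_7_12_1024 : sl_4_7_12_1024 < 2 ^ 1024 ∧ SlotOK sl_4_7_12_1024 :=
  ⟨by decide +kernel, slot_of (by decide +kernel) (by decide +kernel) (by decide +kernel) t1_4_7_12
    (T2_of (by decide) (by decide) (by decide) (Or.inl (by decide)) (Or.inl (by decide)) (Or.inl (by decide)) : T2 4 7 12 1024 tb_4_7_12) (by decide +kernel)⟩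

def sl_4_7_12_1168 : ℕ := nat_lit 0xdf0000000df0000000000000000000000000df000000000003003000000003000000000000000000000000000000000000000000df00000000000300000000000000000000000000000000000000000000000000000004900085717

theorem so_4_7_12_1168 : sl_4_7_12_1168 < 2 ^ 1024 ∧ SlotOK sl_4_7_12_1168 :=
  ⟨by decide +kernel, slot_of (by decide +kernel) (by decide +kernel) (by decide +kernel) t1_4_7_12
    t2_4_7_12_1168 (by decide +kernel)⟩

def sl_4_7_12_1818 : ℕ := nat_lit 0xdf00000000000000000000000000000000000000000300000000000000000000000000000000000000000000000000000000000000000000000000000000000000000000000000000000000000000000000071a0085717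

theorem so_4_7_12_1818 : sl_4_7_12_1818 < 2 ^ 1024 ∧ SlotOK sl_4_7_12_1818 :=
  ⟨by decide +kernel, slot_of (by decide +kernel) (by decide +kernel) (by decide +kernel) t1_4_7_12
    t2_4_7_12_1818 (by decide +kernel)⟩

def sl_4_8_9_1024 : ℕ := nat_lit 0x1248000001000000001248000001ff8000001248000001ff8000001248000001000008000008038008038008000000808000000012480000010000000012480000010000080000080000000000001248000001000008000000000010000000000000000004000051915

theorem so_4_8_9_1024 : sl_4_8_9_1024 < 2 ^ 1024 ∧ SlotOK sl_4_8_9_1024 :=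
  ⟨by decide +kernel, slot_of (by decide +kernel) (by decide +kernel) (by decide +kernel) t1_4_8_9
    (T2_of (by decide) (by decide) (by decide) (Or.inl (by decide)) (Or.inl (by decide)) (Or.inl (by decide)) : T2 4 8 9 1024 tb_4_8_9) (by decide +kernel)⟩

def sl_4_8_9_1534 : ℕ := nat_lit 0x1248000001000000001248000001b68000001248000001b68000001248000001000008000008028008028008000000000000000012480000010000000012480000010000080000080000000000001248000001000008000000000010000000000000000005fe0051915

theorem so_4_8_9_1534 : sl_4_8_9_1534 < 2 ^ 1024 ∧ SlotOK sl_4_8_9_1534 :=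
  ⟨by decide +kernel, slot_of (by decide +kernel) (by decide +kernel) (by decide +kernel) t1_4_8_9
    t2_4_8_9_1534 (by decide +kernel)⟩

def sl_4_8_9_1690 : ℕ := nat_lit 0x10080000010000000010080000019280000010080000019280000010080000010000000000000200000200000000000000000000100800000100000000100800000100000000000000000000000010080000010000000000000000100000000000000000069a0051915

theorem so_4_8_9_1690 : sl_4_8_9_1690 < 2 ^ 1024 ∧ SlotOK sl_4_8_9_1690 :=
  ⟨by decide +kernel, slot_of (by decide +kernel) (by decide +kernel) (by decide +kernel) t1_4_8_9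
    t2_4_8_9_1690 (by decide +kernel)⟩

def sl_4_8_9_2045 : ℕ := nat_lit 0x928000000000000000928000000000000000000000000000020000020000000000000000000000000000000000000000000000000000000000000000000000000000000000000000000000000000000000000000000007fd0051915

theorem so_4_8_9_2045 : sl_4_8_9_2045 < 2 ^ 1024 ∧ SlotOK sl_4_8_9_2045 :=
  ⟨by decide +kernel, slot_of (by decide +kernel) (by decide +kernel) (by decide +kernel) t1_4_8_9
    t2_4_8_9_2045 (by decide +kernel)⟩

def sl_4_8_9_3347 : ℕ := nat_lit 0x800000000000000000800000000000000000000000000000000000000000000000000000000000000000000000000000000000000000000000000000000000000000000000000000000000000000000000000000000d130051915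

theorem so_4_8_9_3347 : sl_4_8_9_3347 < 2 ^ 1024 ∧ SlotOK sl_4_8_9_3347 :=
  ⟨by decide +kernel, slot_of (by decide +kernel) (by decide +kernel) (by decide +kernel) t1_4_8_9
    t2_4_8_9_3347 (by decide +kernel)⟩

def sl_4_8_27_1024 : ℕ := nat_lit 0x6d80000000000000006d80000000000000000000000000000000000000000180000180000000000000000000000000000000000000000000000000000000000000000000000000000000000000000000000000000000000000000000000000040004f2327

theorem so_4_8_27_1024 : sl_4_8_27_1024 < 2 ^ 1024 ∧ SlotOK sl_4_8_27_1024 :=
  ⟨by decide +kernel, slot_of (by decide +kernel) (by decide +kernel) (by decide +kernel) t1_4_8_27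
    (T2_of (by decide) (by decide) (by decide) (Or.inl (by decide)) (Or.inl (by decide)) (Or.inl (by decide)) : T2 4 8 27 1024 tb_4_8_27) (by decide +kernel)⟩

def sl_4_8_27_1534 : ℕ := nat_lit 0x248000000000000000248000000000000000000000000000000000000000008000008000000000000000000000000000000000000000000000000000000000000000000000000000000000000000000000000000000000000000000000000005fe04f2327

theorem so_4_8_27_1534 : sl_4_8_27_1534 < 2 ^ 1024 ∧ SlotOK sl_4_8_27_1534 :=
  ⟨by decide +kernel, slot_of (by decide +kernel) (by decide +kernel) (by decide +kernel) t1_4_8_27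
    t2_4_8_27_1534 (by decide +kernel)⟩

def sl_4_8_27_1690 : ℕ := nat_lit 0x80000000000000000080000000000000000000000000000000000000000000000000000000000000000000000000000000000000000000000000000000000000000000000000000000000000000000000000000000000000000000000000069a04f2327

theorem so_4_8_27_1690 : sl_4_8_27_1690 < 2 ^ 1024 ∧ SlotOK sl_4_8_27_1690 :=
  ⟨by decide +kernel, slot_of (by decide +kernel) (by decide +kernel) (by decide +kernel) t1_4_8_27
    t2_4_8_27_1690 (by decide +kernel)⟩

def sl_4_9_9_1024 : ℕ := nat_lit 0x20100000020149800020149800020100000020149800020149800020149800020100000001001000001001001000000000000000201000000201498000201498000201000000010010000000000020100000020100000000000000201000000000000000000400005f216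

theorem so_4_9_9_1024 : sl_4_9_9_1024 < 2 ^ 1024 ∧ SlotOK sl_4_9_9_1024 :=
  ⟨by decide +kernel, slot_of (by decide +kernel) (by decide +kernel) (by decide +kernel) t1_4_9_9
    (T2_of (by decide) (by decide) (by decide) (Or.inl (by decide)) (Or.inl (by decide)) (Or.inl (by decide)) : T2 4 9 9 1024 tb_4_9_9) (by decide +kernel)⟩

def sl_4_9_9_2045 : ℕ := nat_lit 0x1000000001008000001008000001000000001008000001008000001008000001000000000000000000000000000000000000000010000000010080000010080000010000000000000000000000001000000001000000000000000010000000000000000007fd005f216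

theorem so_4_9_9_2045 : sl_4_9_9_2045 < 2 ^ 1024 ∧ SlotOK sl_4_9_9_2045 :=
  ⟨by decide +kernel, slot_of (by decide +kernel) (by decide +kernel) (by decide +kernel) t1_4_9_9
    t2_4_9_9_2045 (by decide +kernel)⟩

def sl_4_9_10_1024 : ℕ := nat_lit 0x12600000000000000000000000000000498012600000000000498000000000000000000400000000010400010000000000000000126000000000000000000000000000000004000000000000000000000000000000000000000000000000000000000000000004000070117

theorem so_4_9_10_1024 : sl_4_9_10_1024 < 2 ^ 1024 ∧ SlotOK sl_4_9_10_1024 :=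
  ⟨by decide +kernel, slot_of (by decide +kernel) (by decide +kernel) (by decide +kernel) t1_4_9_10
    (T2_of (by decide) (by decide) (by decide) (Or.inl (by decide)) (Or.inl (by decide)) (Or.inl (by decide)) : T2 4 9 10 1024 tb_4_9_10) (by decide +kernel)⟩

def sl_4_9_10_2045 : ℕ := nat_lit 0x200000000000000000000000000000008000200000000000008000000000000000000000000000000000000000000000000000002000000000000000000000000000000000000000000000000000000000000000000000000000000000000000000000000007fd0070117

theorem so_4_9_10_2045 : sl_4_9_10_2045 < 2 ^ 1024 ∧ SlotOK sl_4_9_10_2045 :=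
  ⟨by decide +kernel, slot_of (by decide +kernel) (by decide +kernel) (by decide +kernel) t1_4_9_10
    t2_4_9_10_2045 (by decide +kernel)⟩

def sl_4_9_12_1024 : ℕ := nat_lit 0x9a4d00000084d000009a4d00000084d000009a4d00000084d000009a4d00000084d00900100900100900100900100000000000009a4d00000084d000009a4d00000084d0090010090010000000009a4d00000084d0090010000000084d0010000000000000400009d919

theorem so_4_9_12_1024 : sl_4_9_12_1024 < 2 ^ 1024 ∧ SlotOK sl_4_9_12_1024 :=
  ⟨by decide +kernel, slot_of (by decide +kernel) (by decide +kernel) (by decide +kernel) t1_4_9_12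
    (T2_of (by decide) (by decide) (by decide) (Or.inl (by decide)) (Or.inl (by decide)) (Or.inl (by decide)) : T2 4 9 12 1024 tb_4_9_12) (by decide +kernel)⟩

def sl_4_9_12_1278 : ℕ := nat_lit 0x80400000080400000084d0000008040000008040000008040000008040000008040000000010000000000000000000000000000080400000080400000080400000080400000000000000000000008040000008040000000000000080400000000000000004fe009d919

theorem so_4_9_12_1278 : sl_4_9_12_1278 < 2 ^ 1024 ∧ SlotOK sl_4_9_12_1278 :=
  ⟨by decide +kernel, slot_of (by decide +kernel) (by decide +kernel) (by decide +kernel) t1_4_9_12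
    t2_4_9_12_1278 (by decide +kernel)⟩

def sl_4_9_12_1477 : ℕ := nat_lit 0x400000080400000004d0000008040000000040000008040000000040000008040000000010000000000000000000000000000000400000080400000000400000080400000000000000000000000040000008040000000000000000400000000000000005c5009d919

theorem so_4_9_12_1477 : sl_4_9_12_1477 < 2 ^ 1024 ∧ SlotOK sl_4_9_12_1477 :=
  ⟨by decide +kernel, slot_of (by decide +kernel) (by decide +kernel) (by decide +kernel) t1_4_9_12
    t2_4_9_12_1477 (by decide +kernel)⟩

def sl_4_9_12_2045 : ℕ := nat_lit 0x40000008040000000040000008040000000040000008040000000040000008040000000000000000000000000000000000000000400000080400000000400000080400000000000000000000000040000008040000000000000000400000000000000007fd009d919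

theorem so_4_9_12_2045 : sl_4_9_12_2045 < 2 ^ 1024 ∧ SlotOK sl_4_9_12_2045 :=
  ⟨by decide +kernel, slot_of (by decide +kernel) (by decide +kernel) (by decide +kernel) t1_4_9_12
    t2_4_9_12_2045 (by decide +kernel)⟩

def sl_4_9_12_2386 : ℕ := nat_lit 0x800000000004000000800000000000000000800000000000000000800000000000000000000000000000000000000000000000008000000000000000008000000000000000000000000000000000800000000000000000000000000000000000952009d919

theorem so_4_9_12_2386 : sl_4_9_12_2386 < 2 ^ 1024 ∧ SlotOK sl_4_9_12_2386 :=
  ⟨by decide +kernel, slot_of (by decide +kernel) (by decide +kernel) (by decide +kernel) t1_4_9_12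
    t2_4_9_12_2386 (by decide +kernel)⟩

def sl_4_9_12_4091 : ℕ := nat_lit 0x800000000000000000800000000000000000800000000000000000800000000000000000000000000000000000000000000000008000000000000000008000000000000000000000000000000000800000000000000000000000000000000000ffb009d919

theorem so_4_9_12_4091 : sl_4_9_12_4091 < 2 ^ 1024 ∧ SlotOK sl_4_9_12_4091 :=
  ⟨by decide +kernel, slot_of (by decide +kernel) (by decide +kernel) (by decide +kernel) t1_4_9_12
    t2_4_9_12_4091 (by decide +kernel)⟩

def sl_4_9_15_1024 : ℕ := nat_lit 0x20000000020000000069000000069000000020000000020000000069000000069000000001001000000001001000000000000000200000000200000000690000000690000000010010000000000020000000020000000000000000200000000000000000400010481c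

theorem so_4_9_15_1024 : sl_4_9_15_1024 < 2 ^ 1024 ∧ SlotOK sl_4_9_15_1024 :=
  ⟨by decide +kernel, slot_of (by decide +kernel) (by decide +kernel) (by decide +kernel) t1_4_9_15
    (T2_of (by decide) (by decide) (by decide) (Or.inl (by decide)) (Or.inl (by decide)) (Or.inl (by decide)) : T2 4 9 15 1024 tb_4_9_15) (by decide +kernel)⟩

def sl_4_9_16_1024 : ℕ := nat_lit 0x100000000049800000149800000000000000100000000049800000149800000000000001001000000001001000000000000000001000000000498000001498000000000000010010000000000000100000000000000000000000000000000000000000000400013191d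

theorem so_4_9_16_1024 : sl_4_9_16_1024 < 2 ^ 1024 ∧ SlotOK sl_4_9_16_1024 :=
  ⟨by decide +kernel, slot_of (by decide +kernel) (by decide +kernel) (by decide +kernel) t1_4_9_16
    (T2_of (by decide) (by decide) (by decide) (Or.inl (by decide)) (Or.inl (by decide)) (Or.inl (by decide)) : T2 4 9 16 1024 tb_4_9_16) (by decide +kernel)⟩

def sl_4_9_16_2045 : ℕ := nat_lit 0x8000000008000000000000000000000000008000000008000000000000000000000000000000000000000000000000000000000080000000080000000000000000000000000000000000000000000000000000000000000000000000000007fd013191d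

theorem so_4_9_16_2045 : sl_4_9_16_2045 < 2 ^ 1024 ∧ SlotOK sl_4_9_16_2045 :=
  ⟨by decide +kernel, slot_of (by decide +kernel) (by decide +kernel) (by decide +kernel) t1_4_9_16
    t2_4_9_16_2045 (by decide +kernel)⟩

def sl_4_9_18_1024 : ℕ := nat_lit 0x4000100804020100005260100804020149804000100804020149805260100804020100000000040001000001040000000000000040001008040201000052601008040201000000000400000000004000100804020100000000000040001000000004000000000400019e11f

theorem so_4_9_18_1024 : sl_4_9_18_1024 < 2 ^ 1024 ∧ SlotOK sl_4_9_18_1024 :=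
  ⟨by decide +kernel, slot_of (by decide +kernel) (by decide +kernel) (by decide +kernel) t1_4_9_18
    (T2_of (by decide) (by decide) (by decide) (Or.inl (by decide)) (Or.inl (by decide)) (Or.inl (by decide)) : T2 4 9 18 1024 tb_4_9_18) (by decide +kernel)⟩

def sl_4_9_18_2045 : ℕ := nat_lit 0x8000200000000200008000200008000000008000200008000200008000200000000000000000000000000000000000000000000080002000000002000080002000000000000000000000000000008000200000000000000000000000000000000000007fd019e11f

theorem so_4_9_18_2045 : sl_4_9_18_2045 < 2 ^ 1024 ∧ SlotOK sl_4_9_18_2045 :=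
  ⟨by decide +kernel, slot_of (by decide +kernel) (by decide +kernel) (by decide +kernel) t1_4_9_18
    t2_4_9_18_2045 (by decide +kernel)⟩

def sl_4_9_18_4091 : ℕ := nat_lit 0x20000000000000800000000000000000800020000000000000000000000000000000000000000000000000000000000000000000200000000000000000000000000000000000000000000000000000000000000000000000000000000ffb019e11f

theorem so_4_9_18_4091 : sl_4_9_18_4091 < 2 ^ 1024 ∧ SlotOK sl_4_9_18_4091 :=
  ⟨by decide +kernel, slot_of (by decide +kernel) (by decide +kernel) (by decide +kernel) t1_4_9_18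
    t2_4_9_18_4091 (by decide +kernel)⟩

def sl_4_9_20_1024 : ℕ := nat_lit 0x248000000248000000000000000000000000248000000248000000000000008008000000008008000000000000000000000000002480000002480000000000000080080000000000000000000000000000000000000000000000000000000004000225921

theorem so_4_9_20_1024 : sl_4_9_20_1024 < 2 ^ 1024 ∧ SlotOK sl_4_9_20_1024 :=
  ⟨by decide +kernel, slot_of (by decide +kernel) (by decide +kernel) (by decide +kernel) t1_4_9_20
    (T2_of (by decide) (by decide) (by decide) (Or.inl (by decide)) (Or.inl (by decide)) (Or.inl (by decide)) : T2 4 9 20 1024 tb_4_9_20) (by decide +kernel)⟩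

def sl_4_9_20_1227 : ℕ := nat_lit 0x248000000248000000000000000000000000248000000248000000000000008008000000008008000000000000000000000000002480000002480000000000000080080000000000000000000000000000000000000000000000000000000004cb0225921

theorem so_4_9_20_1227 : sl_4_9_20_1227 < 2 ^ 1024 ∧ SlotOK sl_4_9_20_1227 :=
  ⟨by decide +kernel, slot_of (by decide +kernel) (by decide +kernel) (by decide +kernel) t1_4_9_20
    t2_4_9_20_1227 (by decide +kernel)⟩

def sl_4_9_20_2301 : ℕ := nat_lit 0x8000000008000000000000000000000000008000000008000000000000000000000000000000000000000000000000000000000080000000080000000000000000000000000000000000000000000000000000000000000000000000000008fd0225921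

theorem so_4_9_20_2301 : sl_4_9_20_2301 < 2 ^ 1024 ∧ SlotOK sl_4_9_20_2301 :=
  ⟨by decide +kernel, slot_of (by decide +kernel) (by decide +kernel) (by decide +kernel) t1_4_9_20
    t2_4_9_20_2301 (by decide +kernel)⟩

def sl_4_9_24_1024 : ℕ := nat_lit 0x40490000040490000040490000040490000040490000040490000040490000040490010010010010010010010010000000000000404900000404900000404900000404900100100100100000000040490000040490010010000000404900100000000000004000391925

theorem so_4_9_24_1024 : sl_4_9_24_1024 < 2 ^ 1024 ∧ SlotOK sl_4_9_24_1024 :=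
  ⟨by decide +kernel, slot_of (by decide +kernel) (by decide +kernel) (by decide +kernel) t1_4_9_24
    (T2_of (by decide) (by decide) (by decide) (Or.inl (by decide)) (Or.inl (by decide)) (Or.inl (by decide)) : T2 4 9 24 1024 tb_4_9_24) (by decide +kernel)⟩

def sl_4_9_24_2045 : ℕ := nat_lit 0x490000000000000000490000000000000000010000010000000000000000000000000000000000000000000000000000000000000000000000000000000000000000000000000000000000000007fd0391925

theorem so_4_9_24_2045 : sl_4_9_24_2045 < 2 ^ 1024 ∧ SlotOK sl_4_9_24_2045 :=
  ⟨by decide +kernel, slot_of (by decide +kernel) (by decide +kernel) (by decide +kernel) t1_4_9_24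
    t2_4_9_24_2045 (by decide +kernel)⟩

def sl_4_9_27_1024 : ℕ := nat_lit 0x4900000004900000000000000000000000000000000004900000000100100000000000100000000000000000000000000000000000000000049000000000001000000000000000000000000000000000000000000000000000000040004ffc28

theorem so_4_9_27_1024 : sl_4_9_27_1024 < 2 ^ 1024 ∧ SlotOK sl_4_9_27_1024 :=
  ⟨by decide +kernel, slot_of (by decide +kernel) (by decide +kernel) (by decide +kernel) t1_4_9_27
    (T2_of (by decide) (by decide) (by decide) (Or.inl (by decide)) (Or.inl (by decide)) (Or.inl (by decide)) : T2 4 9 27 1024 tb_4_9_27) (by decide +kernel)⟩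

def sl_4_9_32_1024 : ℕ := nat_lit 0x24800000024800000000000000024800000024800000000000000000800800000800800000000000000000000000000000000000248000000000000000008000000000000000000000000000000000000000000000000000000000400083192d

theorem so_4_9_32_1024 : sl_4_9_32_1024 < 2 ^ 1024 ∧ SlotOK sl_4_9_32_1024 :=
  ⟨by decide +kernel, slot_of (by decide +kernel) (by decide +kernel) (by decide +kernel) t1_4_9_32
    (T2_of (by decide) (by decide) (by decide) (Or.inl (by decide)) (Or.inl (by decide)) (Or.inl (by decide)) : T2 4 9 32 1024 tb_4_9_32) (by decide +kernel)⟩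

def sl_4_9_32_1534 : ℕ := nat_lit 0x248000000248000000000000000248000000248000000000000000008008000008008000000000000000000000000000000000002480000000000000000080000000000000000000000000000000000000000000000000000000005fe083192d

theorem so_4_9_32_1534 : sl_4_9_32_1534 < 2 ^ 1024 ∧ SlotOK sl_4_9_32_1534 :=
  ⟨by decide +kernel, slot_of (by decide +kernel) (by decide +kernel) (by decide +kernel) t1_4_9_32
    t2_4_9_32_1534 (by decide +kernel)⟩

def sl_4_9_32_1690 : ℕ := nat_lit 0x80000000080000000000000000080000000080000000000000000000000000000000000000000000000000000000000000000000800000000000000000000000000000000000000000000000000000000000000000000000000069a083192d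

theorem so_4_9_32_1690 : sl_4_9_32_1690 < 2 ^ 1024 ∧ SlotOK sl_4_9_32_1690 :=
  ⟨by decide +kernel, slot_of (by decide +kernel) (by decide +kernel) (by decide +kernel) t1_4_9_32
    t2_4_9_32_1690 (by decide +kernel)⟩

def sl_4_9_36_1024 : ℕ := nat_lit 0x1000000001490000001490000001000000001490000001490000001490000001000000010010000010010010000000000000000010000000014900000014900000010000000100100000000000001000000001000000000000000010000000000000000004000b95931

theorem so_4_9_36_1024 : sl_4_9_36_1024 < 2 ^ 1024 ∧ SlotOK sl_4_9_36_1024 :=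
  ⟨by decide +kernel, slot_of (by decide +kernel) (by decide +kernel) (by decide +kernel) t1_4_9_36
    (T2_of (by decide) (by decide) (by decide) (Or.inl (by decide)) (Or.inl (by decide)) (Or.inl (by decide)) : T2 4 9 36 1024 tb_4_9_36) (by decide +kernel)⟩

def sl_4_9_36_2045 : ℕ := nat_lit 0x1000000001000000001000000001000000001000000001000000001000000001000000000000000000000000000000000000000010000000010000000010000000010000000000000000000000001000000001000000000000000010000000000000000007fd0b95931

theorem so_4_9_36_2045 : sl_4_9_36_2045 < 2 ^ 1024 ∧ SlotOK sl_4_9_36_2045 :=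
  ⟨by decide +kernel, slot_of (by decide +kernel) (by decide +kernel) (by decide +kernel) t1_4_9_36
    t2_4_9_36_2045 (by decide +kernel)⟩

def sl_4_12_21_1024 : ℕ := nat_lit 0x4900000000000000000000000000000000004900000000000000000100000000000100000000000000000000000000000000000049000000000000000001000000000000000000000000000000000000000000000000000000000040002b2d25

theorem so_4_12_21_1024 : sl_4_12_21_1024 < 2 ^ 1024 ∧ SlotOK sl_4_12_21_1024 :=
  ⟨by decide +kernel, slot_of (by decide +kernel) (by decide +kernel) (by decide +kernel) t1_4_12_21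
    (T2_of (by decide) (by decide) (by decide) (Or.inl (by decide)) (Or.inl (by decide)) (Or.inl (by decide)) : T2 4 12 21 1024 tb_4_12_21) (by decide +kernel)⟩

def sl_4_12_27_1024 : ℕ := nat_lit 0x4000000004000000004000000004000000004000000004000000004000000004000000000000000000000000000000000000000040000000040000000040000000040000000000000000000000004000000004000000000000000040000000000000000400053e32b

theorem so_4_12_27_1024 : sl_4_12_27_1024 < 2 ^ 1024 ∧ SlotOK sl_4_12_27_1024 :=
  ⟨by decide +kernel, slot_of (by decide +kernel) (by decide +kernel) (by decide +kernel) t1_4_12_27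
    (T2_of (by decide) (by decide) (by decide) (Or.inl (by decide)) (Or.inl (by decide)) (Or.inl (by decide)) : T2 4 12 27 1024 tb_4_12_27) (by decide +kernel)⟩

def sl_4_12_27_4091 : ℕ := nat_lit 0x4000000000000000000000000004000000004000000000000000000000000004000000000000000000000000000000000000000040000000000000000000000000040000000000000000000000000000000000000000000000000000000000000000000ffb053e32b

theorem so_4_12_27_4091 : sl_4_12_27_4091 < 2 ^ 1024 ∧ SlotOK sl_4_12_27_4091 :=
  ⟨by decide +kernel, slot_of (by decide +kernel) (by decide +kernel) (by decide +kernel) t1_4_12_27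
    t2_4_12_27_4091 (by decide +kernel)⟩

def sl_4_15_16_1024 : ℕ := nat_lit 0xfb0000000000000000000000000000000000fb000000000003000000000003000000000000000000000000000000000000000000fb000000000003000000000000000000000000000000000000000000000000000000040001d6f23

theorem so_4_15_16_1024 : sl_4_15_16_1024 < 2 ^ 1024 ∧ SlotOK sl_4_15_16_1024 :=
  ⟨by decide +kernel, slot_of (by decide +kernel) (by decide +kernel) (by decide +kernel) t1_4_15_16
    (T2_of (by decide) (by decide) (by decide) (Or.inl (by decide)) (Or.inl (by decide)) (Or.inl (by decide)) : T2 4 15 16 1024 tb_4_15_16) (by decide +kernel)⟩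

def sl_4_15_16_1636 : ℕ := nat_lit 0xfb0000000000000000000000000000000000fb000000000003000000000003000000000000000000000000000000000000000000fb000000000003000000000000000000000000000000000000000000000000000000066401d6f23

theorem so_4_15_16_1636 : sl_4_15_16_1636 < 2 ^ 1024 ∧ SlotOK sl_4_15_16_1636 :=
  ⟨by decide +kernel, slot_of (by decide +kernel) (by decide +kernel) (by decide +kernel) t1_4_15_16
    t2_4_15_16_1636 (by decide +kernel)⟩

def sl_4_16_25_1024 : ℕ := nat_lit 0x80000000000000000000000000000000000080000000000000000000000000000000000000000000000000000000000000000000800000000000000000000000000000000000000000000000000000000000000000000000000040004d492d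

theorem so_4_16_25_1024 : sl_4_16_25_1024 < 2 ^ 1024 ∧ SlotOK sl_4_16_25_1024 :=
  ⟨by decide +kernel, slot_of (by decide +kernel) (by decide +kernel) (by decide +kernel) t1_4_16_25
    (T2_of (by decide) (by decide) (by decide) (Or.inl (by decide)) (Or.inl (by decide)) (Or.inl (by decide)) : T2 4 16 25 1024 tb_4_16_25) (by decide +kernel)⟩

def sl_4_16_27_1024 : ℕ := nat_lit 0x4900000000000000000000000000000000004900000000000100000000000100000000000000000000000000000000000000000049000000000001000000000000000000000000000000000000000000000000000000040005d232f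

theorem so_4_16_27_1024 : sl_4_16_27_1024 < 2 ^ 1024 ∧ SlotOK sl_4_16_27_1024 :=
  ⟨by decide +kernel, slot_of (by decide +kernel) (by decide +kernel) (by decide +kernel) t1_4_16_27
    (T2_of (by decide) (by decide) (by decide) (Or.inl (by decide)) (Or.inl (by decide)) (Or.inl (by decide)) : T2 4 16 27 1024 tb_4_16_27) (by decide +kernel)⟩

def sl_4_18_27_1024 : ℕ := nat_lit 0x20000800000000000020000801240000000020000800000000000020000801240000000000000040000000000040000000000000200008000000000000200008012400000000000000400000000020000800000000000000000000000000000000000000000400063eb31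

theorem so_4_18_27_1024 : sl_4_18_27_1024 < 2 ^ 1024 ∧ SlotOK sl_4_18_27_1024 :=
  ⟨by decide +kernel, slot_of (by decide +kernel) (by decide +kernel) (by decide +kernel) t1_4_18_27
    (T2_of (by decide) (by decide) (by decide) (Or.inl (by decide)) (Or.inl (by decide)) (Or.inl (by decide)) : T2 4 18 27 1024 tb_4_18_27) (by decide +kernel)⟩

def sl_4_27_36_1024 : ℕ := nat_lit 0x490000000490000000000000000000000000000000000490000000010010000000000010000000000000000000000000000000000000000004900000000000100000000000000000000000000000000000000000000000000000004001036343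

theorem so_4_27_36_1024 : sl_4_27_36_1024 < 2 ^ 1024 ∧ SlotOK sl_4_27_36_1024 :=
  ⟨by decide +kernel, slot_of (by decide +kernel) (by decide +kernel) (by decide +kernel) t1_4_27_36
    (T2_of (by decide) (by decide) (by decide) (Or.inl (by decide)) (Or.inl (by decide)) (Or.inl (by decide)) : T2 4 27 36 1024 tb_4_27_36) (by decide +kernel)⟩

def sl_5_6_6_2000 : ℕ := nat_lit 0xb60000000000000000000000000b60000000b60000000000000000000000000b6002000000002002000000002000000000000000b60000000000000000000000000b600200000000200000000000000000000000000000000000000000000000000000007d00022d11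

theorem so_5_6_6_2000 : sl_5_6_6_2000 < 2 ^ 1024 ∧ SlotOK sl_5_6_6_2000 :=
  ⟨by decide +kernel, slot_of (by decide +kernel) (by decide +kernel) (by decide +kernel) t1_5_6_6
    (T2_of (by decide) (by decide) (by decide) (Or.inl (by decide)) (Or.inl (by decide)) (Or.inl (by decide)) : T2 5 6 6 2000 tb_5_6_6) (by decide +kernel)⟩

def sl_5_6_6_3489 : ℕ := nat_lit 0xb6000000000000000000000000000000000000000002000000000000000000000000000000000000000000000000000000000000000000000000000000000000000000000000000000000000000000000000da10022d11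

theorem so_5_6_6_3489 : sl_5_6_6_3489 < 2 ^ 1024 ∧ SlotOK sl_5_6_6_3489 :=
  ⟨by decide +kernel, slot_of (by decide +kernel) (by decide +kernel) (by decide +kernel) t1_5_6_6
    t2_5_6_6_3489 (by decide +kernel)⟩

def sl_5_8_8_2000 : ℕ := nat_lit 0x1ff8000000008000001008000000000000001000000000008000001008000000000038000000000000000000000800000000000010000000000080000010080000000000000000000000000000001000000000000000000000000000000000000000000007d00047d15

theorem so_5_8_8_2000 : sl_5_8_8_2000 < 2 ^ 1024 ∧ SlotOK sl_5_8_8_2000 :=
  ⟨by decide +kernel, slot_of (by decide +kernel) (by decide +kernel) (by decide +kernel) t1_5_8_8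
    (T2_of (by decide) (by decide) (by decide) (Or.inl (by decide)) (Or.inl (by decide)) (Or.inl (by decide)) : T2 5 8 8 2000 tb_5_8_8) (by decide +kernel)⟩

def sl_5_8_8_2397 : ℕ := nat_lit 0x6d80000000000000000000000000000000000000000000000000000000000000000180000000000000000000000000000000000000000000000000000000000000000000000000000000000000000000000000000000000000000000000000000000000095d0047d15

theorem so_5_8_8_2397 : sl_5_8_8_2397 < 2 ^ 1024 ∧ SlotOK sl_5_8_8_2397 :=
  ⟨by decide +kernel, slot_of (by decide +kernel) (by decide +kernel) (by decide +kernel) t1_5_8_8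
    t2_5_8_8_2397 (by decide +kernel)⟩

def sl_5_8_8_2796 : ℕ := nat_lit 0x49800000000000000000000000000000000000000000000000000000000000000001000000000000000000000000000000000000000000000000000000000000000000000000000000000000000000000000000000000000000000000000000000000000aec0047d15

theorem so_5_8_8_2796 : sl_5_8_8_2796 < 2 ^ 1024 ∧ SlotOK sl_5_8_8_2796 :=
  ⟨by decide +kernel, slot_of (by decide +kernel) (by decide +kernel) (by decide +kernel) t1_5_8_8
    t2_5_8_8_2796 (by decide +kernel)⟩

def sl_5_8_8_4494 : ℕ := nat_lit 0x80000000000000000000000000000000000000000000000000000000000000000000000000000000000000000000000000000000000000000000000000000000000000000000000000000000000000000000000000000000000000000000000000000118e0047d15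

theorem so_5_8_8_4494 : sl_5_8_8_4494 < 2 ^ 1024 ∧ SlotOK sl_5_8_8_4494 :=
  ⟨by decide +kernel, slot_of (by decide +kernel) (by decide +kernel) (by decide +kernel) t1_5_8_8
    t2_5_8_8_4494 (by decide +kernel)⟩

def sl_5_8_18_2000 : ℕ := nat_lit 0x40000928000000000040000000000000000040000000000000000040000000000000000020000000000000000000000000000000400000000000000000400000000000000000000000000000000040000000000000000000000000000000000000000000000007d0019451f

theorem so_5_8_18_2000 : sl_5_8_18_2000 < 2 ^ 1024 ∧ SlotOK sl_5_8_18_2000 :=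
  ⟨by decide +kernel, slot_of (by decide +kernel) (by decide +kernel) (by decide +kernel) t1_5_8_18
    (T2_of (by decide) (by decide) (by decide) (Or.inl (by decide)) (Or.inl (by decide)) (Or.inl (by decide)) : T2 5 8 18 2000 tb_5_8_18) (by decide +kernel)⟩

def sl_5_8_32_2000 : ℕ := nat_lit 0xff8000000000000000000000000000000000000000000000000000000000000000038000000000000000000000800000000000000000000000000000000000000000000000000000000000000000000000000000000000000000000000000000000000007d00827d2d

theorem so_5_8_32_2000 : sl_5_8_32_2000 < 2 ^ 1024 ∧ SlotOK sl_5_8_32_2000 :=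
  ⟨by decide +kernel, slot_of (by decide +kernel) (by decide +kernel) (by decide +kernel) t1_5_8_32
    (T2_of (by decide) (by decide) (by decide) (Or.inl (by decide)) (Or.inl (by decide)) (Or.inl (by decide)) : T2 5 8 32 2000 tb_5_8_32) (by decide +kernel)⟩

def sl_5_8_32_2796 : ℕ := nat_lit 0x800000000000000000000000000000000000000000000000000000000000000000000000000000000000000000000000000000000000000000000000000000000000000000000000000000000000000000000000000000000000000000000000000000aec0827d2d

theorem so_5_8_32_2796 : sl_5_8_32_2796 < 2 ^ 1024 ∧ SlotOK sl_5_8_32_2796 :=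
  ⟨by decide +kernel, slot_of (by decide +kernel) (by decide +kernel) (by decide +kernel) t1_5_8_32
    t2_5_8_32_2796 (by decide +kernel)⟩

def sl_5_9_9_2000 : ℕ := nat_lit 0x40201008000201008040201008000201000040201000000201008040201008000201000000000000000000000000000000000000402010000002010080402010080002010000000000000000000040201000000201000000000000002010000000000000000007d00062f17

theorem so_5_9_9_2000 : sl_5_9_9_2000 < 2 ^ 1024 ∧ SlotOK sl_5_9_9_2000 :=
  ⟨by decide +kernel, slot_of (by decide +kernel) (by decide +kernel) (by decide +kernel) t1_5_9_9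
    (T2_of (by decide) (by decide) (by decide) (Or.inl (by decide)) (Or.inl (by decide)) (Or.inl (by decide)) : T2 5 9 9 2000 tb_5_9_9) (by decide +kernel)⟩

def sl_5_9_16_2000 : ℕ := nat_lit 0x200000000001008000200248000001000000200000000001008000200248000001000000000008000000000008000000000000002000000000010080002002480000010000000000080000000000200000000001000000000000000000000000000000000007d0013561e

theorem so_5_9_16_2000 : sl_5_9_16_2000 < 2 ^ 1024 ∧ SlotOK sl_5_9_16_2000 :=
  ⟨by decide +kernel, slot_of (by decide +kernel) (by decide +kernel) (by decide +kernel) t1_5_9_16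
    (T2_of (by decide) (by decide) (by decide) (Or.inl (by decide)) (Or.inl (by decide)) (Or.inl (by decide)) : T2 5 9 16 2000 tb_5_9_16) (by decide +kernel)⟩

def sl_5_9_36_2000 : ℕ := nat_lit 0x1008000001008000001008000001000000001000000001008000001008000001000000000000000000000000000000000000000010000000010080000010080000010000000000000000000000001000000001000000000000000010000000000000000007d00b99632

theorem so_5_9_36_2000 : sl_5_9_36_2000 < 2 ^ 1024 ∧ SlotOK sl_5_9_36_2000 :=
  ⟨by decide +kernel, slot_of (by decide +kernel) (by decide +kernel) (by decide +kernel) t1_5_9_36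
    (T2_of (by decide) (by decide) (by decide) (Or.inl (by decide)) (Or.inl (by decide)) (Or.inl (by decide)) : T2 5 9 36 2000 tb_5_9_36) (by decide +kernel)⟩

def sl_5_12_12_2000 : ℕ := nat_lit 0xb60000000000000000000000000b60000000b60000000000000000000000000b6002000000002002000000002000000000000000b60000000000000000000000000b600200000000200000000000000000000000000000000000000000000000000000007d000dfd1d

theorem so_5_12_12_2000 : sl_5_12_12_2000 < 2 ^ 1024 ∧ SlotOK sl_5_12_12_2000 :=
  ⟨by decide +kernel, slot_of (by decide +kernel) (by decide +kernel) (by decide +kernel) t1_5_12_12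
    (T2_of (by decide) (by decide) (by decide) (Or.inl (by decide)) (Or.inl (by decide)) (Or.inl (by decide)) : T2 5 12 12 2000 tb_5_12_12) (by decide +kernel)⟩

def sl_5_12_12_3196 : ℕ := nat_lit 0xb6000000000000000000000000000000000000000002000000000000000000000000000000000000000000000000000000000000000000000000000000000000000000000000000000000000000000000000c7c00dfd1d

theorem so_5_12_12_3196 : sl_5_12_12_3196 < 2 ^ 1024 ∧ SlotOK sl_5_12_12_3196 :=
  ⟨by decide +kernel, slot_of (by decide +kernel) (by decide +kernel) (by decide +kernel) t1_5_12_12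
    t2_5_12_12_3196 (by decide +kernel)⟩

def sl_5_16_36_2000 : ℕ := nat_lit 0x8000000000000000000000000000000000008000000000000000000000000000000000000000000000000000000000000000000080000000000000000000000000000000000000000000000000000000000000000000000000000000000007d00c6bd39

theorem so_5_16_36_2000 : sl_5_16_36_2000 < 2 ^ 1024 ∧ SlotOK sl_5_16_36_2000 :=
  ⟨by decide +kernel, slot_of (by decide +kernel) (by decide +kernel) (by decide +kernel) t1_5_16_36
    (T2_of (by decide) (by decide) (by decide) (Or.inl (by decide)) (Or.inl (by decide)) (Or.inl (by decide)) : T2 5 16 36 2000 tb_5_16_36) (by decide +kernel)⟩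

def ch_2_0 : List ℕ := [sl_3_8_24_713, sl_3_8_24_1294, sl_3_8_27_432, sl_3_9_16_432, sl_3_9_16_1725, sl_3_12_16_432, sl_3_12_16_863, sl_3_16_16_432, sl_3_16_18_432, sl_3_16_24_432, sl_3_16_24_575, sl_3_16_24_647]

theorem ch_2_0_ok : ∀ s ∈ ch_2_0, s < 2 ^ 1024 ∧ SlotOK s :=
  List.forall_mem_cons.2 ⟨so_3_8_24_713, List.forall_mem_cons.2 ⟨so_3_8_24_1294, List.forall_mem_cons.2 ⟨so_3_8_27_432, List.forall_mem_cons.2 ⟨so_3_9_16_432, List.forall_mem_cons.2 ⟨so_3_9_16_1725, List.forall_mem_cons.2 ⟨so_3_12_16_432, List.forall_mem_cons.2 ⟨so_3_12_16_863, List.forall_mem_cons.2 ⟨so_3_16_16_432, List.forall_mem_cons.2 ⟨so_3_16_18_432, List.forall_mem_cons.2 ⟨so_3_16_24_432, List.forall_mem_cons.2 ⟨so_3_16_24_575, List.forall_mem_cons.2 ⟨so_3_16_24_647, List.forall_mem_nil _⟩⟩⟩⟩⟩⟩⟩⟩⟩⟩⟩⟩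

def ch_2_1 : List ℕ := [sl_3_16_27_432, sl_4_4_5_1024, sl_4_4_5_1483, sl_4_4_9_1024, sl_4_4_9_1278, sl_4_4_9_2045, sl_4_4_25_1024, sl_4_4_27_1024, sl_4_5_9_1024, sl_4_5_9_1227, sl_4_5_9_1841, sl_4_5_9_1997]

theorem ch_2_1_ok : ∀ s ∈ ch_2_1, s < 2 ^ 1024 ∧ SlotOK s :=
  List.forall_mem_cons.2 ⟨so_3_16_27_432, List.forall_mem_cons.2 ⟨so_4_4_5_1024, List.forall_mem_cons.2 ⟨so_4_4_5_1483, List.forall_mem_cons.2 ⟨so_4_4_9_1024, List.forall_mem_cons.2 ⟨so_4_4_9_1278, List.forall_mem_cons.2 ⟨so_4_4_9_2045, List.forall_mem_cons.2 ⟨so_4_4_25_1024, List.forall_mem_cons.2 ⟨so_4_4_27_1024, List.forall_mem_cons.2 ⟨so_4_5_9_1024, List.forall_mem_cons.2 ⟨so_4_5_9_1227, List.forall_mem_cons.2 ⟨so_4_5_9_1841, List.forall_mem_cons.2 ⟨so_4_5_9_1997, List.forall_mem_nil _⟩⟩⟩⟩⟩⟩⟩⟩⟩⟩⟩⟩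

def ch_2_2 : List ℕ := [sl_4_5_16_1024, sl_4_5_16_1997, sl_4_5_36_1024, sl_4_5_36_1841, sl_4_6_9_1024, sl_4_6_9_2045, sl_4_6_21_1024, sl_4_6_21_2454, sl_4_7_12_1024, sl_4_7_12_1168, sl_4_7_12_1818, sl_4_8_9_1024]

theorem ch_2_2_ok : ∀ s ∈ ch_2_2, s < 2 ^ 1024 ∧ SlotOK s :=
  List.forall_mem_cons.2 ⟨so_4_5_16_1024, List.forall_mem_cons.2 ⟨so_4_5_16_1997, List.forall_mem_cons.2 ⟨so_4_5_36_1024, List.forall_mem_cons.2 ⟨so_4_5_36_1841, List.forall_mem_cons.2 ⟨so_4_6_9_1024, List.forall_mem_cons.2 ⟨so_4_6_9_2045, List.forall_mem_cons.2 ⟨so_4_6_21_1024, List.forall_mem_cons.2 ⟨so_4_6_21_2454, List.forall_mem_cons.2 ⟨so_4_7_12_1024, List.forall_mem_cons.2 ⟨so_4_7_12_1168, List.forall_mem_cons.2 ⟨so_4_7_12_1818, List.forall_mem_cons.2 ⟨so_4_8_9_1024, List.forall_mem_nil _⟩⟩⟩⟩⟩⟩⟩⟩⟩⟩⟩⟩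

def ch_2_3 : List ℕ := [sl_4_8_9_1534, sl_4_8_9_1690, sl_4_8_9_2045, sl_4_8_9_3347, sl_4_8_27_1024, sl_4_8_27_1534, sl_4_8_27_1690, sl_4_9_9_1024, sl_4_9_9_2045, sl_4_9_10_1024, sl_4_9_10_2045, sl_4_9_12_1024]

theorem ch_2_3_ok : ∀ s ∈ ch_2_3, s < 2 ^ 1024 ∧ SlotOK s :=
  List.forall_mem_cons.2 ⟨so_4_8_9_1534, List.forall_mem_cons.2 ⟨so_4_8_9_1690, List.forall_mem_cons.2 ⟨so_4_8_9_2045, List.forall_mem_cons.2 ⟨so_4_8_9_3347, List.forall_mem_cons.2 ⟨so_4_8_27_1024, List.forall_mem_cons.2 ⟨so_4_8_27_1534, List.forall_mem_cons.2 ⟨so_4_8_27_1690, List.forall_mem_cons.2 ⟨so_4_9_9_1024, List.forall_mem_cons.2 ⟨so_4_9_9_2045, List.forall_mem_cons.2 ⟨so_4_9_10_1024, List.forall_mem_cons.2 ⟨so_4_9_10_2045, List.forall_mem_cons.2 ⟨so_4_9_12_1024, List.forall_mem_nil _⟩⟩⟩⟩⟩⟩⟩⟩⟩⟩⟩⟩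

def ch_2_4 : List ℕ := [sl_4_9_12_1278, sl_4_9_12_1477, sl_4_9_12_2045, sl_4_9_12_2386, sl_4_9_12_4091, sl_4_9_15_1024, sl_4_9_16_1024, sl_4_9_16_2045, sl_4_9_18_1024, sl_4_9_18_2045, sl_4_9_18_4091, sl_4_9_20_1024]

theorem ch_2_4_ok : ∀ s ∈ ch_2_4, s < 2 ^ 1024 ∧ SlotOK s :=
  List.forall_mem_cons.2 ⟨so_4_9_12_1278, List.forall_mem_cons.2 ⟨so_4_9_12_1477, List.forall_mem_cons.2 ⟨so_4_9_12_2045, List.forall_mem_cons.2 ⟨so_4_9_12_2386, List.forall_mem_cons.2 ⟨so_4_9_12_4091, List.forall_mem_cons.2 ⟨so_4_9_15_1024, List.forall_mem_cons.2 ⟨so_4_9_16_1024, List.forall_mem_cons.2 ⟨so_4_9_16_2045, List.forall_mem_cons.2 ⟨so_4_9_18_1024, List.forall_mem_cons.2 ⟨so_4_9_18_2045, List.forall_mem_cons.2 ⟨so_4_9_18_4091, List.forall_mem_cons.2 ⟨so_4_9_20_1024, List.forall_mem_nil _⟩⟩⟩⟩⟩⟩⟩⟩⟩⟩⟩⟩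

def ch_2_5 : List ℕ := [sl_4_9_20_1227, sl_4_9_20_2301, sl_4_9_24_1024, sl_4_9_24_2045, sl_4_9_27_1024, sl_4_9_32_1024, sl_4_9_32_1534, sl_4_9_32_1690, sl_4_9_36_1024, sl_4_9_36_2045, sl_4_12_21_1024, sl_4_12_27_1024]

theorem ch_2_5_ok : ∀ s ∈ ch_2_5, s < 2 ^ 1024 ∧ SlotOK s :=
  List.forall_mem_cons.2 ⟨so_4_9_20_1227, List.forall_mem_cons.2 ⟨so_4_9_20_2301, List.forall_mem_cons.2 ⟨so_4_9_24_1024, List.forall_mem_cons.2 ⟨so_4_9_24_2045, List.forall_mem_cons.2 ⟨so_4_9_27_1024, List.forall_mem_cons.2 ⟨so_4_9_32_1024, List.forall_mem_cons.2 ⟨so_4_9_32_1534, List.forall_mem_cons.2 ⟨so_4_9_32_1690, List.forall_mem_cons.2 ⟨so_4_9_36_1024, List.forall_mem_cons.2 ⟨so_4_9_36_2045, List.forall_mem_cons.2 ⟨so_4_12_21_1024, List.forall_mem_cons.2 ⟨so_4_12_27_1024, List.forall_mem_nil _⟩⟩⟩⟩⟩⟩⟩⟩⟩⟩⟩⟩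

def ch_2_6 : List ℕ := [sl_4_12_27_4091, sl_4_15_16_1024, sl_4_15_16_1636, sl_4_16_25_1024, sl_4_16_27_1024, sl_4_18_27_1024, sl_4_27_36_1024, sl_5_6_6_2000, sl_5_6_6_3489, sl_5_8_8_2000, sl_5_8_8_2397, sl_5_8_8_2796]

theorem ch_2_6_ok : ∀ s ∈ ch_2_6, s < 2 ^ 1024 ∧ SlotOK s :=
  List.forall_mem_cons.2 ⟨so_4_12_27_4091, List.forall_mem_cons.2 ⟨so_4_15_16_1024, List.forall_mem_cons.2 ⟨so_4_15_16_1636, List.forall_mem_cons.2 ⟨so_4_16_25_1024, List.forall_mem_cons.2 ⟨so_4_16_27_1024, List.forall_mem_cons.2 ⟨so_4_18_27_1024, List.forall_mem_cons.2 ⟨so_4_27_36_1024, List.forall_mem_cons.2 ⟨so_5_6_6_2000, List.forall_mem_cons.2 ⟨so_5_6_6_3489, List.forall_mem_cons.2 ⟨so_5_8_8_2000, List.forall_mem_cons.2 ⟨so_5_8_8_2397, List.forall_mem_cons.2 ⟨so_5_8_8_2796, List.forall_mem_nil _⟩⟩⟩⟩⟩⟩⟩⟩⟩⟩⟩⟩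

def ch_2_7 : List ℕ := [sl_5_8_8_4494, sl_5_8_18_2000, sl_5_8_32_2000, sl_5_8_32_2796, sl_5_9_9_2000, sl_5_9_16_2000, sl_5_9_36_2000, sl_5_12_12_2000, sl_5_12_12_3196, sl_5_16_36_2000]

theorem ch_2_7_ok : ∀ s ∈ ch_2_7, s < 2 ^ 1024 ∧ SlotOK s :=
  List.forall_mem_cons.2 ⟨so_5_8_8_4494, List.forall_mem_cons.2 ⟨so_5_8_18_2000, List.forall_mem_cons.2 ⟨so_5_8_32_2000, List.forall_mem_cons.2 ⟨so_5_8_32_2796, List.forall_mem_cons.2 ⟨so_5_9_9_2000, List.forall_mem_cons.2 ⟨so_5_9_16_2000, List.forall_mem_cons.2 ⟨so_5_9_36_2000, List.forall_mem_cons.2 ⟨so_5_12_12_2000, List.forall_mem_cons.2 ⟨so_5_12_12_3196, List.forall_mem_cons.2 ⟨so_5_16_36_2000, List.forall_mem_nil _⟩⟩⟩⟩⟩⟩⟩⟩⟩⟩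

end Pool.H94.Pol
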