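import Pool.Agent.H94.Pol.Slot
import Pool.Agent.H94.Pol.Data.A01
import Pool.Agent.H94.Pol.Data.A02
import Pool.Agent.H94.Pol.Data.A03
import Pool.Agent.H94.Pol.Data.A04
import Pool.Agent.H94.Pol.Data.A05
import Pool.Agent.H94.Pol.Data.A06
import Pool.Agent.H94.Pol.Data.A07
import Pool.Agent.H94.Pol.Data.A08
import Pool.Agent.H94.Pol.Data.A09
import Pool.Agent.H94.Pol.Data.A10
import Pool.Agent.H94.Pol.Data.A11
import Pool.Agent.H94.Pol.Data.A12
import Pool.Agent.H94.Pol.Data.A13
import Pool.Agent.H94.Pol.Data.A14
import Pool.Agent.H94.Pol.Data.A15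
import Pool.Agent.H94.Pol.Data.A16
import Pool.Agent.H94.Pol.Data.B01
import Pool.Agent.H94.Pol.Data.B02
import Pool.Agent.H94.Pol.Data.B03
import Pool.Agent.H94.Pol.Data.B04

/-! Slots of the data base. -/

namespace Pool.H94.Pol

def sl_5_18_18_2000 : ℕ := nat_lit 0x40000008000000008040000008000000000040000000000000008040000008000000000000000000000000000000000000000000400000000000000080400000080000000000000000000000000040000000000000000000000000000000000000000000000007d002e0d29

theorem so_5_18_18_2000 : sl_5_18_18_2000 < 2 ^ 1024 ∧ SlotOK sl_5_18_18_2000 :=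
  ⟨by decide +kernel, slot_of (by decide +kernel) (by decide +kernel) (by decide +kernel) t1_5_18_18
    (T2_of (by decide) (by decide) (by decide) (Or.inl (by decide)) (Or.inl (by decide)) (Or.inl (by decide)) : T2 5 18 18 2000 tb_5_18_18) (by decide +kernel)⟩

def sl_5_36_36_2000 : ℕ := nat_lit 0x8000000008000000000000000000000000008000000008000000000000000000000000000000000000000000000000000000000080000000080000000000000000000000000000000000000000000000000000000000000000000000000007d016cfd4d

theorem so_5_36_36_2000 : sl_5_36_36_2000 < 2 ^ 1024 ∧ SlotOK sl_5_36_36_2000 :=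
  ⟨by decide +kernel, slot_of (by decide +kernel) (by decide +kernel) (by decide +kernel) t1_5_36_36
    (T2_of (by decide) (by decide) (by decide) (Or.inl (by decide)) (Or.inl (by decide)) (Or.inl (by decide)) : T2 5 36 36 2000 tb_5_36_36) (by decide +kernel)⟩

def sl_6_8_9_3456 : ℕ := nat_lit 0x494000092800012592c94000000000012500494000092800012592c9400009200001250040201240001040201240201000000000494000092800012592c940000000000125004020124000100000494000000000012500400010000000000000000000000000000d80005b117

theorem so_6_8_9_3456 : sl_6_8_9_3456 < 2 ^ 1024 ∧ SlotOK sl_6_8_9_3456 :=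
  ⟨by decide +kernel, slot_of (by decide +kernel) (by decide +kernel) (by decide +kernel) t1_6_8_9
    (T2_of (by decide) (by decide) (by decide) (Or.inl (by decide)) (Or.inl (by decide)) (Or.inl (by decide)) : T2 6 8 9 3456 tb_6_8_9) (by decide +kernel)⟩

def sl_6_8_9_8182 : ℕ := nat_lit 0x92000000000000000000000000000002000000000000000000000000000000000000000000000000000000000000000000000000000000000000000000000000000000000000000001ff6005b117

theorem so_6_8_9_8182 : sl_6_8_9_8182 < 2 ^ 1024 ∧ SlotOK sl_6_8_9_8182 :=
  ⟨by decide +kernel, slot_of (by decide +kernel) (by decide +kernel) (by decide +kernel) t1_6_8_9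
    t2_6_8_9_8182 (by decide +kernel)⟩

def sl_6_8_27_3456 : ℕ := nat_lit 0x100004000000000000100004000000000020100004000000000000100004000000000000000000000000000000000000000000001000040000000000001000040000000000000000000000000000100004000000000000000000000000000000000000d8004fbb29

theorem so_6_8_27_3456 : sl_6_8_27_3456 < 2 ^ 1024 ∧ SlotOK sl_6_8_27_3456 :=
  ⟨by decide +kernel, slot_of (by decide +kernel) (by decide +kernel) (by decide +kernel) t1_6_8_27
    (T2_of (by decide) (by decide) (by decide) (Or.inl (by decide)) (Or.inl (by decide)) (Or.inl (by decide)) : T2 6 8 27 3456 tb_6_8_27) (by decide +kernel)⟩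

def sl_6_8_27_8182 : ℕ := nat_lit 0x20000000000000000000000000000000000000000000000000000000000000000000000000000000000000000000000000000000000000000000000000000000000000000000000000000000000000000001ff604fbb29

theorem so_6_8_27_8182 : sl_6_8_27_8182 < 2 ^ 1024 ∧ SlotOK sl_6_8_27_8182 :=
  ⟨by decide +kernel, slot_of (by decide +kernel) (by decide +kernel) (by decide +kernel) t1_6_8_27
    t2_6_8_27_8182 (by decide +kernel)⟩

def sl_6_9_10_3456 : ℕ := nat_lit 0x20000000000000000000000000000000000020000000000000000000000000000000000000000000000000000000000000000000200000000000000000000000000000000000000000000000000000000000000000000d800079919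

theorem so_6_9_10_3456 : sl_6_9_10_3456 < 2 ^ 1024 ∧ SlotOK sl_6_9_10_3456 :=
  ⟨by decide +kernel, slot_of (by decide +kernel) (by decide +kernel) (by decide +kernel) t1_6_9_10
    (T2_of (by decide) (by decide) (by decide) (Or.inl (by decide)) (Or.inl (by decide)) (Or.inl (by decide)) : T2 6 9 10 3456 tb_6_9_10) (by decide +kernel)⟩

def sl_6_9_10_5523 : ℕ := nat_lit 0x200000000000000000000000000000000000200000000000000000000000000000000000000000000000000000000000000000002000000000000000000000000000000000000000000000000000000000000000000015930079919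

theorem so_6_9_10_5523 : sl_6_9_10_5523 < 2 ^ 1024 ∧ SlotOK sl_6_9_10_5523 :=
  ⟨by decide +kernel, slot_of (by decide +kernel) (by decide +kernel) (by decide +kernel) t1_6_9_10
    t2_6_9_10_5523 (by decide +kernel)⟩

def sl_6_9_16_3456 : ℕ := nat_lit 0x100000020000004069100000020000004049100000020000004000100000020000004049000001000001000000000001000000001000000200000040001000000200000040490000000000010000100000020000004000000000000000000000000000000000000d80013b11f

theorem so_6_9_16_3456 : sl_6_9_16_3456 < 2 ^ 1024 ∧ SlotOK sl_6_9_16_3456 :=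
  ⟨by decide +kernel, slot_of (by decide +kernel) (by decide +kernel) (by decide +kernel) t1_6_9_16
    (T2_of (by decide) (by decide) (by decide) (Or.inl (by decide)) (Or.inl (by decide)) (Or.inl (by decide)) : T2 6 9 16 3456 tb_6_9_16) (by decide +kernel)⟩

def sl_6_9_32_3456 : ℕ := nat_lit 0x800000000000000000000000000000000000000000000000000092800000000000000000000000000002000000000000000000000000000000000000000000000000000000000000000000000000000000000000000000000000000000000000000000d80083b12f

theorem so_6_9_32_3456 : sl_6_9_32_3456 < 2 ^ 1024 ∧ SlotOK sl_6_9_32_3456 :=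
  ⟨by decide +kernel, slot_of (by decide +kernel) (by decide +kernel) (by decide +kernel) t1_6_9_32
    (T2_of (by decide) (by decide) (by decide) (Or.inl (by decide)) (Or.inl (by decide)) (Or.inl (by decide)) : T2 6 9 32 3456 tb_6_9_32) (by decide +kernel)⟩

def sl_6_16_21_3456 : ℕ := nat_lit 0x20000800000000000000000800000000000020000000000000000000000000000000000000000000000000000000000000000000200000000000000000000000000000000000000000000000000000000000000000000000000000000000000000d80035052b

theorem so_6_16_21_3456 : sl_6_16_21_3456 < 2 ^ 1024 ∧ SlotOK sl_6_16_21_3456 :=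
  ⟨by decide +kernel, slot_of (by decide +kernel) (by decide +kernel) (by decide +kernel) t1_6_16_21
    (T2_of (by decide) (by decide) (by decide) (Or.inl (by decide)) (Or.inl (by decide)) (Or.inl (by decide)) : T2 6 16 21 3456 tb_6_16_21) (by decide +kernel)⟩

def sl_7_8_12_5488 : ℕ := nat_lit 0x80000000000000000080000000080000000080000000080000000080000000000000000000000000000000000000000000000000800000000000000000800000000000000000000000000000000080000000000000000000000000000000000000000157000a171b

theorem so_7_8_12_5488 : sl_7_8_12_5488 < 2 ^ 1024 ∧ SlotOK sl_7_8_12_5488 :=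
  ⟨by decide +kernel, slot_of (by decide +kernel) (by decide +kernel) (by decide +kernel) t1_7_8_12
    (T2_of (by decide) (by decide) (by decide) (Or.inl (by decide)) (Or.inl (by decide)) (Or.inl (by decide)) : T2 7 8 12 5488 tb_7_8_12) (by decide +kernel)⟩

def sl_7_8_12_9819 : ℕ := nat_lit 0x80000000000000000080000000000000000000000000000000000000000000000000000000000000000000000000000000000000000000000000000000000000000000000000000000000000000000000000000000265b00a171b

theorem so_7_8_12_9819 : sl_7_8_12_9819 < 2 ^ 1024 ∧ SlotOK sl_7_8_12_9819 :=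
  ⟨by decide +kernel, slot_of (by decide +kernel) (by decide +kernel) (by decide +kernel) t1_7_8_12
    t2_7_8_12_9819 (by decide +kernel)⟩

def sl_7_9_12_5488 : ℕ := nat_lit 0x400000000400000000400000004d00000000400000000400000000400000004d0000000000010000000000010000000000000000400000000400000000400000004d000000000001000000000000400000000400000000000000004000000000000000157000af01c

theorem so_7_9_12_5488 : sl_7_9_12_5488 < 2 ^ 1024 ∧ SlotOK sl_7_9_12_5488 :=
  ⟨by decide +kernel, slot_of (by decide +kernel) (by decide +kernel) (by decide +kernel) t1_7_9_12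
    (T2_of (by decide) (by decide) (by decide) (Or.inl (by decide)) (Or.inl (by decide)) (Or.inl (by decide)) : T2 7 9 12 5488 tb_7_9_12) (by decide +kernel)⟩

def sl_7_12_16_5488 : ℕ := nat_lit 0xdb0000000000000000000000000000000000000000000000000000000000000000030000000000000000000000000000000000000000000000000000000000000000000000000000000000000000000000000000000000000000000000000000000000015700181723

theorem so_7_12_16_5488 : sl_7_12_16_5488 < 2 ^ 1024 ∧ SlotOK sl_7_12_16_5488 :=
  ⟨by decide +kernel, slot_of (by decide +kernel) (by decide +kernel) (by decide +kernel) t1_7_12_16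
    (T2_of (by decide) (by decide) (by decide) (Or.inl (by decide)) (Or.inl (by decide)) (Or.inl (by decide)) : T2 7 12 16 5488 tb_7_12_16) (by decide +kernel)⟩

def sl_7_12_32_5488 : ℕ := nat_lit 0x8000000000000000008000000000000000000000000000000000000000000000000000000000000000000000000000000000000000000000000000000000000000000000000000000000000000000000000000000015700881733

theorem so_7_12_32_5488 : sl_7_12_32_5488 < 2 ^ 1024 ∧ SlotOK sl_7_12_32_5488 :=
  ⟨by decide +kernel, slot_of (by decide +kernel) (by decide +kernel) (by decide +kernel) t1_7_12_32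
    (T2_of (by decide) (by decide) (by decide) (Or.inl (by decide)) (Or.inl (by decide)) (Or.inl (by decide)) : T2 7 12 32 5488 tb_7_12_32) (by decide +kernel)⟩

def sl_7_12_32_9397 : ℕ := nat_lit 0x8000000000000000000000000000000000000000000000000000000000000000000000000000000000000000000000000000000000000000000000000000000000000000000000000000000024b50881733

theorem so_7_12_32_9397 : sl_7_12_32_9397 < 2 ^ 1024 ∧ SlotOK sl_7_12_32_9397 :=
  ⟨by decide +kernel, slot_of (by decide +kernel) (by decide +kernel) (by decide +kernel) t1_7_12_32
    t2_7_12_32_9397 (by decide +kernel)⟩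

def sl_8_8_9_8192 : ℕ := nat_lit 0x10080000000080000010000000004b800000100800000000800000100000000000000001000000000000000000000000000000001008000000008000001000000000000000000000000000000000100000000000000000000000000000000002000006d919

theorem so_8_8_9_8192 : sl_8_8_9_8192 < 2 ^ 1024 ∧ SlotOK sl_8_8_9_8192 :=
  ⟨by decide +kernel, slot_of (by decide +kernel) (by decide +kernel) (by decide +kernel) t1_8_8_9
    (T2_of (by decide) (by decide) (by decide) (Or.inl (by decide)) (Or.inl (by decide)) (Or.inl (by decide)) : T2 8 8 9 8192 tb_8_8_9) (by decide +kernel)⟩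

def sl_8_8_9_10910 : ℕ := nat_lit 0x49800000000000000000000000000000000000000001000000000000000000000000000000000000000000000000000000000000000000000000000000000000000000000000000000000000000000000002a9e006d919

theorem so_8_8_9_10910 : sl_8_8_9_10910 < 2 ^ 1024 ∧ SlotOK sl_8_8_9_10910 :=
  ⟨by decide +kernel, slot_of (by decide +kernel) (by decide +kernel) (by decide +kernel) t1_8_8_9
    t2_8_8_9_10910 (by decide +kernel)⟩

def sl_8_8_9_12050 : ℕ := nat_lit 0x800000000000000000000000000000000000000000000000000000000000000000000000000000000000000000000000000000000000000000000000000000000000000000000000000000000000000002f12006d919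

theorem so_8_8_9_12050 : sl_8_8_9_12050 < 2 ^ 1024 ∧ SlotOK sl_8_8_9_12050 :=
  ⟨by decide +kernel, slot_of (by decide +kernel) (by decide +kernel) (by decide +kernel) t1_8_8_9
    t2_8_8_9_12050 (by decide +kernel)⟩

def sl_8_8_25_8192 : ℕ := nat_lit 0x8000000000000000000000000000000000000000000000000000000000000000000000000000000000000000000000000000000000000000000000000000000000000000000000000000000000000000020000410929

theorem so_8_8_25_8192 : sl_8_8_25_8192 < 2 ^ 1024 ∧ SlotOK sl_8_8_25_8192 :=
  ⟨by decide +kernel, slot_of (by decide +kernel) (by decide +kernel) (by decide +kernel) t1_8_8_25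
    (T2_of (by decide) (by decide) (by decide) (Or.inl (by decide)) (Or.inl (by decide)) (Or.inl (by decide)) : T2 8 8 25 8192 tb_8_8_25) (by decide +kernel)⟩

def sl_8_9_9_8192 : ℕ := nat_lit 0x100800020100000000100800020192800000100800020192800000100800020100000000000002000002000000000000000000001008000201000000001008000201000000000000000000000000100800020100000000000000001000000000000000002000007b21a

theorem so_8_9_9_8192 : sl_8_9_9_8192 < 2 ^ 1024 ∧ SlotOK sl_8_9_9_8192 :=
  ⟨by decide +kernel, slot_of (by decide +kernel) (by decide +kernel) (by decide +kernel) t1_8_9_9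
    (T2_of (by decide) (by decide) (by decide) (Or.inl (by decide)) (Or.inl (by decide)) (Or.inl (by decide)) : T2 8 9 9 8192 tb_8_9_9) (by decide +kernel)⟩

def sl_8_9_9_12050 : ℕ := nat_lit 0x20000000000000000020000800000000000020000800000000000020000000000000000000000000000000000000000000000000200000000000000000200000000000000000000000000000000020000000000000000000000000000000000002f12007b21a

theorem so_8_9_9_12050 : sl_8_9_9_12050 < 2 ^ 1024 ∧ SlotOK sl_8_9_9_12050 :=
  ⟨by decide +kernel, slot_of (by decide +kernel) (by decide +kernel) (by decide +kernel) t1_8_9_9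
    t2_8_9_9_12050 (by decide +kernel)⟩

def sl_8_9_9_15533 : ℕ := nat_lit 0x800000000000000000800000000000000000000000000000000000000000000000000000000000000000000000000000000000000000000000000000000000000000000000000000000000000000000000000000003cad007b21a

theorem so_8_9_9_15533 : sl_8_9_9_15533 < 2 ^ 1024 ∧ SlotOK sl_8_9_9_15533 :=
  ⟨by decide +kernel, slot_of (by decide +kernel) (by decide +kernel) (by decide +kernel) t1_8_9_9
    t2_8_9_9_15533 (by decide +kernel)⟩

def sl_8_9_12_8192 : ℕ := nat_lit 0x9280000009680000009280000009680000009280000000000000009280000000000200200200200200000200000000000000000092800000000000000092800000000002000002000000000000009280000000000200000000000000000000000000000200000b991d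

theorem so_8_9_12_8192 : sl_8_9_12_8192 < 2 ^ 1024 ∧ SlotOK sl_8_9_12_8192 :=
  ⟨by decide +kernel, slot_of (by decide +kernel) (by decide +kernel) (by decide +kernel) t1_8_9_12
    (T2_of (by decide) (by decide) (by decide) (Or.inl (by decide)) (Or.inl (by decide)) (Or.inl (by decide)) : T2 8 9 12 8192 tb_8_9_12) (by decide +kernel)⟩

def sl_8_9_12_12274 : ℕ := nat_lit 0x4000000000000000004000000000000000000000000000000000000000000000000000000000000000000000000000000000000000000000000000000000000000000000000000000000000000000000000000000000000000000000000002ff200b991d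

theorem so_8_9_12_12274 : sl_8_9_12_12274 < 2 ^ 1024 ∧ SlotOK sl_8_9_12_12274 :=
  ⟨by decide +kernel, slot_of (by decide +kernel) (by decide +kernel) (by decide +kernel) t1_8_9_12
    t2_8_9_12_12274 (by decide +kernel)⟩

def sl_8_9_16_8192 : ℕ := nat_lit 0x800000100000000000800000124800000000800000124800000000800000100000000000000800000800000000000000000000008000001000000000008000001000000000000000000000000000800000100000000000000000000000000000000002000014d921

theorem so_8_9_16_8192 : sl_8_9_16_8192 < 2 ^ 1024 ∧ SlotOK sl_8_9_16_8192 :=
  ⟨by decide +kernel, slot_of (by decide +kernel) (by decide +kernel) (by decide +kernel) t1_8_9_16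
    (T2_of (by decide) (by decide) (by decide) (Or.inl (by decide)) (Or.inl (by decide)) (Or.inl (by decide)) : T2 8 9 16 8192 tb_8_9_16) (by decide +kernel)⟩

def sl_8_9_16_11652 : ℕ := nat_lit 0x800000100000000000800000124800000000800000124800000000800000100000000000000800000800000000000000000000008000001000000000008000001000000000000000000000000000800000100000000000000000000000000000000002d84014d921

theorem so_8_9_16_11652 : sl_8_9_16_11652 < 2 ^ 1024 ∧ SlotOK sl_8_9_16_11652 :=
  ⟨by decide +kernel, slot_of (by decide +kernel) (by decide +kernel) (by decide +kernel) t1_8_9_16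
    t2_8_9_16_11652 (by decide +kernel)⟩

def sl_8_9_18_8192 : ℕ := nat_lit 0x2000000402010080002000080402010000002009280402010080002000080402010000000000000000200000000000000000000020000004020100800020000804020100000000000000000000002000000402010000000000000020000000000000000000200001ba123

theorem so_8_9_18_8192 : sl_8_9_18_8192 < 2 ^ 1024 ∧ SlotOK sl_8_9_18_8192 :=
  ⟨by decide +kernel, slot_of (by decide +kernel) (by decide +kernel) (by decide +kernel) t1_8_9_18
    (T2_of (by decide) (by decide) (by decide) (Or.inl (by decide)) (Or.inl (by decide)) (Or.inl (by decide)) : T2 8 9 18 8192 tb_8_9_18) (by decide +kernel)⟩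

def sl_8_9_18_11652 : ℕ := nat_lit 0x4000100800000000804000100000000000804000100800000000804000100000000000000000000000000000000000000000000040001008000000008040001000000000000000000000000000004000100000000000000000000000000000000002d8401ba123

theorem so_8_9_18_11652 : sl_8_9_18_11652 < 2 ^ 1024 ∧ SlotOK sl_8_9_18_11652 :=
  ⟨by decide +kernel, slot_of (by decide +kernel) (by decide +kernel) (by decide +kernel) t1_8_9_18
    t2_8_9_18_11652 (by decide +kernel)⟩

def sl_8_9_18_16364 : ℕ := nat_lit 0x800000000000000000000000000000000000000000000000000000000000000000000000000000000000000000000000000000000000000000000000000000000000000000000000000000000000000003fec01ba123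

theorem so_8_9_18_16364 : sl_8_9_18_16364 < 2 ^ 1024 ∧ SlotOK sl_8_9_18_16364 :=
  ⟨by decide +kernel, slot_of (by decide +kernel) (by decide +kernel) (by decide +kernel) t1_8_9_18
    t2_8_9_18_16364 (by decide +kernel)⟩

def sl_8_9_24_8192 : ℕ := nat_lit 0x9280001259280000000000001250000000009280001259280000009200001250000201200001000201200201000000000000000092800012592800000000000012500002012000010000000000000000001250000001000000000000000000000000000200003ad929

theorem so_8_9_24_8192 : sl_8_9_24_8192 < 2 ^ 1024 ∧ SlotOK sl_8_9_24_8192 :=
  ⟨by decide +kernel, slot_of (by decide +kernel) (by decide +kernel) (by decide +kernel) t1_8_9_24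
    (T2_of (by decide) (by decide) (by decide) (Or.inl (by decide)) (Or.inl (by decide)) (Or.inl (by decide)) : T2 8 9 24 8192 tb_8_9_24) (by decide +kernel)⟩

def sl_8_9_24_11652 : ℕ := nat_lit 0x92000000000000000000000000000002000000000000000000000000000000000000000000000000000000000000000000000000000000000000000000000000000000000000000002d8403ad929

theorem so_8_9_24_11652 : sl_8_9_24_11652 < 2 ^ 1024 ∧ SlotOK sl_8_9_24_11652 :=
  ⟨by decide +kernel, slot_of (by decide +kernel) (by decide +kernel) (by decide +kernel) t1_8_9_24
    t2_8_9_24_11652 (by decide +kernel)⟩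

def sl_8_9_27_8192 : ℕ := nat_lit 0x800000000000000000800000000000000000800000000000000000800000000000000000000000000000000000000000000000008000000000000000008000000000000000000000000000000000800000000000000000000000000000000000000002000051bc2c

theorem so_8_9_27_8192 : sl_8_9_27_8192 < 2 ^ 1024 ∧ SlotOK sl_8_9_27_8192 :=
  ⟨by decide +kernel, slot_of (by decide +kernel) (by decide +kernel) (by decide +kernel) t1_8_9_27
    (T2_of (by decide) (by decide) (by decide) (Or.inl (by decide)) (Or.inl (by decide)) (Or.inl (by decide)) : T2 8 9 27 8192 tb_8_9_27) (by decide +kernel)⟩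

def sl_8_9_32_8192 : ℕ := nat_lit 0x49000000000000000000000000000000000000000001000000000000000000000000000000000000000000000000000000000000000000000000000000000000000000000000000000000000000000000002000084d931

theorem so_8_9_32_8192 : sl_8_9_32_8192 < 2 ^ 1024 ∧ SlotOK sl_8_9_32_8192 :=
  ⟨by decide +kernel, slot_of (by decide +kernel) (by decide +kernel) (by decide +kernel) t1_8_9_32
    (T2_of (by decide) (by decide) (by decide) (Or.inl (by decide)) (Or.inl (by decide)) (Or.inl (by decide)) : T2 8 9 32 8192 tb_8_9_32) (by decide +kernel)⟩

def sl_8_9_32_10910 : ℕ := nat_lit 0x49000000000000000000000000000000000000000001000000000000000000000000000000000000000000000000000000000000000000000000000000000000000000000000000000000000000000000002a9e084d931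

theorem so_8_9_32_10910 : sl_8_9_32_10910 < 2 ^ 1024 ∧ SlotOK sl_8_9_32_10910 :=
  ⟨by decide +kernel, slot_of (by decide +kernel) (by decide +kernel) (by decide +kernel) t1_8_9_32
    t2_8_9_32_10910 (by decide +kernel)⟩

def sl_8_9_36_8192 : ℕ := nat_lit 0x1008000001000000001008000001928000001008000001928000001008000001000000000000020000020000000000000000000010080000010000000010080000010000000000000000000000001008000001000000000000000010000000000000000020000bb1935

theorem so_8_9_36_8192 : sl_8_9_36_8192 < 2 ^ 1024 ∧ SlotOK sl_8_9_36_8192 :=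
  ⟨by decide +kernel, slot_of (by decide +kernel) (by decide +kernel) (by decide +kernel) t1_8_9_36
    (T2_of (by decide) (by decide) (by decide) (Or.inl (by decide)) (Or.inl (by decide)) (Or.inl (by decide)) : T2 8 9 36 8192 tb_8_9_36) (by decide +kernel)⟩

def sl_8_9_36_19834 : ℕ := nat_lit 0x800000000000000000800000000000000000000000000000000000000000000000000000000000000000000000000000000000000000000000000000000000000000000000000000000000000000000000000000004d7a0bb1935

theorem so_8_9_36_19834 : sl_8_9_36_19834 < 2 ^ 1024 ∧ SlotOK sl_8_9_36_19834 :=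
  ⟨by decide +kernel, slot_of (by decide +kernel) (by decide +kernel) (by decide +kernel) t1_8_9_36
    t2_8_9_36_19834 (by decide +kernel)⟩

def sl_8_12_27_8192 : ℕ := nat_lit 0x4000000004000000004000000004000000004000000004000000004000000004000000000000000000000000000000000000000040000000040000000040000000040000000000000000000000004000000004000000000000000040000000000000002000055a32f

theorem so_8_12_27_8192 : sl_8_12_27_8192 < 2 ^ 1024 ∧ SlotOK sl_8_12_27_8192 :=
  ⟨by decide +kernel, slot_of (by decide +kernel) (by decide +kernel) (by decide +kernel) t1_8_12_27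
    (T2_of (by decide) (by decide) (by decide) (Or.inl (by decide)) (Or.inl (by decide)) (Or.inl (by decide)) : T2 8 12 27 8192 tb_8_12_27) (by decide +kernel)⟩

def sl_8_12_27_13637 : ℕ := nat_lit 0x4000000000000000000000000000000000000000000000000000004000000000000000000000000000000000000000000000000000000000000000000000000000000000000000000000000000000000000000000000000000000000000003545055a32f

theorem so_8_12_27_13637 : sl_8_12_27_13637 < 2 ^ 1024 ∧ SlotOK sl_8_12_27_13637 :=
  ⟨by decide +kernel, slot_of (by decide +kernel) (by decide +kernel) (by decide +kernel) t1_8_12_27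
    t2_8_12_27_13637 (by decide +kernel)⟩

def sl_8_18_25_8192 : ℕ := nat_lit 0x800000000000000000000000000000000000000000000000000000000000000000000000000000000000000000000000000000000000000000000000000000000000000000000000000000000000000002000055d133

theorem so_8_18_25_8192 : sl_8_18_25_8192 < 2 ^ 1024 ∧ SlotOK sl_8_18_25_8192 :=
  ⟨by decide +kernel, slot_of (by decide +kernel) (by decide +kernel) (by decide +kernel) t1_8_18_25
    (T2_of (by decide) (by decide) (by decide) (Or.inl (by decide)) (Or.inl (by decide)) (Or.inl (by decide)) : T2 8 18 25 8192 tb_8_18_25) (by decide +kernel)⟩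

def sl_8_24_27_8192 : ℕ := nat_lit 0x100000020000000020100000000000000020100000020000000020100000000000000000000000000000000000000000000000001000000200000000201000000000000000000000000000000000100000000000000000000000000000000000000002000084e33b

theorem so_8_24_27_8192 : sl_8_24_27_8192 < 2 ^ 1024 ∧ SlotOK sl_8_24_27_8192 :=
  ⟨by decide +kernel, slot_of (by decide +kernel) (by decide +kernel) (by decide +kernel) t1_8_24_27
    (T2_of (by decide) (by decide) (by decide) (Or.inl (by decide)) (Or.inl (by decide)) (Or.inl (by decide)) : T2 8 24 27 8192 tb_8_24_27) (by decide +kernel)⟩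

def sl_8_24_27_32728 : ℕ := nat_lit 0x20000000000000000000000000000000000000000000000000000000000000000000000000000000000000000000000000000000000000000000000000000000000000000000000000000000000000000007fd8084e33b

theorem so_8_24_27_32728 : sl_8_24_27_32728 < 2 ^ 1024 ∧ SlotOK sl_8_24_27_32728 :=
  ⟨by decide +kernel, slot_of (by decide +kernel) (by decide +kernel) (by decide +kernel) t1_8_24_27
    t2_8_24_27_32728 (by decide +kernel)⟩

def sl_8_27_36_8192 : ℕ := nat_lit 0x8000000000000000008000000000000000008000000000000000008000000000000000000000000000000000000000000000000080000000000000000080000000000000000000000000000000008000000000000000000000000000000000000000020001052347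

theorem so_8_27_36_8192 : sl_8_27_36_8192 < 2 ^ 1024 ∧ SlotOK sl_8_27_36_8192 :=
  ⟨by decide +kernel, slot_of (by decide +kernel) (by decide +kernel) (by decide +kernel) t1_8_27_36
    (T2_of (by decide) (by decide) (by decide) (Or.inl (by decide)) (Or.inl (by decide)) (Or.inl (by decide)) : T2 8 27 36 8192 tb_8_27_36) (by decide +kernel)⟩

def sl_9_9_10_11664 : ℕ := nat_lit 0x20000800020000000000000800020000800020000800020000800000000800020000000000000000000000000000000000000000200008000200000000000008000200000000000000000000000000000800020000000000000000000000000000000000002d900099a1c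

theorem so_9_9_10_11664 : sl_9_9_10_11664 < 2 ^ 1024 ∧ SlotOK sl_9_9_10_11664 :=
  ⟨by decide +kernel, slot_of (by decide +kernel) (by decide +kernel) (by decide +kernel) t1_9_9_10
    (T2_of (by decide) (by decide) (by decide) (Or.inl (by decide)) (Or.inl (by decide)) (Or.inl (by decide)) : T2 9 9 10 11664 tb_9_9_10) (by decide +kernel)⟩

def sl_9_9_16_11664 : ℕ := nat_lit 0x100000020000800000100800020000000000100000020000800000100800020000000000000000000000000000000000000000001000000200008000001008000200000000000000000000000000100000020000000000000000000000000000000000002d90015b222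

theorem so_9_9_16_11664 : sl_9_9_16_11664 < 2 ^ 1024 ∧ SlotOK sl_9_9_16_11664 :=
  ⟨by decide +kernel, slot_of (by decide +kernel) (by decide +kernel) (by decide +kernel) t1_9_9_16
    (T2_of (by decide) (by decide) (by decide) (Or.inl (by decide)) (Or.inl (by decide)) (Or.inl (by decide)) : T2 9 9 16 11664 tb_9_9_16) (by decide +kernel)⟩

def sl_9_9_20_11664 : ℕ := nat_lit 0x800000000800000000800000000000000000000000000800000000800000000000000000000000000000000000000000000000000000000008000000008000000000000000000000000000000000000000000000000000000000000000000000000002d90024f226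

theorem so_9_9_20_11664 : sl_9_9_20_11664 < 2 ^ 1024 ∧ SlotOK sl_9_9_20_11664 :=
  ⟨by decide +kernel, slot_of (by decide +kernel) (by decide +kernel) (by decide +kernel) t1_9_9_20
    (T2_of (by decide) (by decide) (by decide) (Or.inl (by decide)) (Or.inl (by decide)) (Or.inl (by decide)) : T2 9 9 20 11664 tb_9_9_20) (by decide +kernel)⟩

def sl_9_9_32_11664 : ℕ := nat_lit 0x20000000000000800000000800000000000020000800000000800000000000000000000000000000000000000000000000000000200000000000008000000000000000000000000000000000000000000000000000000000000000000000000002d90085b232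

theorem so_9_9_32_11664 : sl_9_9_32_11664 < 2 ^ 1024 ∧ SlotOK sl_9_9_32_11664 :=
  ⟨by decide +kernel, slot_of (by decide +kernel) (by decide +kernel) (by decide +kernel) t1_9_9_32
    (T2_of (by decide) (by decide) (by decide) (Or.inl (by decide)) (Or.inl (by decide)) (Or.inl (by decide)) : T2 9 9 32 11664 tb_9_9_32) (by decide +kernel)⟩

def sl_9_9_32_15534 : ℕ := nat_lit 0x800000000000000000000000000000000000000000000000000000000000000000000000000000000000000000000000000000000000000000000000000000000000000000000000000000003cae085b232

theorem so_9_9_32_15534 : sl_9_9_32_15534 < 2 ^ 1024 ∧ SlotOK sl_9_9_32_15534 :=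
  ⟨by decide +kernel, slot_of (by decide +kernel) (by decide +kernel) (by decide +kernel) t1_9_9_32
    t2_9_9_32_15534 (by decide +kernel)⟩

def sl_9_9_40_11664 : ℕ := nat_lit 0x800000000000000000800000000000000000000000000000000000000000000000000000000000000000000000000000000000000000000000000000000000000000000000000000000000000000000000000000002d900ffb23a

theorem so_9_9_40_11664 : sl_9_9_40_11664 < 2 ^ 1024 ∧ SlotOK sl_9_9_40_11664 :=
  ⟨by decide +kernel, slot_of (by decide +kernel) (by decide +kernel) (by decide +kernel) t1_9_9_40
    (T2_of (by decide) (by decide) (by decide) (Or.inl (by decide)) (Or.inl (by decide)) (Or.inl (by decide)) : T2 9 9 40 11664 tb_9_9_40) (by decide +kernel)⟩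

def sl_9_10_16_11664 : ℕ := nat_lit 0x20000000000000000000000000000000000020000000000000000000000000000000000000000000000000000000000000000000200000000000000000000000000000000000000000000000000000000000000000000000000000000000000000000000002d90016c123

theorem so_9_10_16_11664 : sl_9_10_16_11664 < 2 ^ 1024 ∧ SlotOK sl_9_10_16_11664 :=
  ⟨by decide +kernel, slot_of (by decide +kernel) (by decide +kernel) (by decide +kernel) t1_9_10_16
    (T2_of (by decide) (by decide) (by decide) (Or.inl (by decide)) (Or.inl (by decide)) (Or.inl (by decide)) : T2 9 10 16 11664 tb_9_10_16) (by decide +kernel)⟩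

def sl_9_10_36_11664 : ℕ := nat_lit 0x20000000000000000000000000000000800020000000000000800000000000000000000000000000000000000000000000000000200000000000000000000000000000000000000000000000000000000000000000000000000000000000000000000000002d900bd0137

theorem so_9_10_36_11664 : sl_9_10_36_11664 < 2 ^ 1024 ∧ SlotOK sl_9_10_36_11664 :=
  ⟨by decide +kernel, slot_of (by decide +kernel) (by decide +kernel) (by decide +kernel) t1_9_10_36
    (T2_of (by decide) (by decide) (by decide) (Or.inl (by decide)) (Or.inl (by decide)) (Or.inl (by decide)) : T2 9 10 36 11664 tb_9_10_36) (by decide +kernel)⟩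

def sl_9_10_36_15984 : ℕ := nat_lit 0x20000000000000000000000000000000800020000000000000800000000000000000000000000000000000000000000000000000200000000000000000000000000000000000000000000000000000000000000000000000000000000000000000000000003e700bd0137

theorem so_9_10_36_15984 : sl_9_10_36_15984 < 2 ^ 1024 ∧ SlotOK sl_9_10_36_15984 :=
  ⟨by decide +kernel, slot_of (by decide +kernel) (by decide +kernel) (by decide +kernel) t1_9_10_36
    t2_9_10_36_15984 (by decide +kernel)⟩

def sl_9_12_16_11664 : ℕ := nat_lit 0x4d00000080000000004d00000084d00000004d00000080000000000400000084d0010000010010010000000010000000000000004d00000080000000000400000084d0010000000010000000000004000000800000000000000000000000000000000002d900199925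

theorem so_9_12_16_11664 : sl_9_12_16_11664 < 2 ^ 1024 ∧ SlotOK sl_9_12_16_11664 :=
  ⟨by decide +kernel, slot_of (by decide +kernel) (by decide +kernel) (by decide +kernel) t1_9_12_16
    (T2_of (by decide) (by decide) (by decide) (Or.inl (by decide)) (Or.inl (by decide)) (Or.inl (by decide)) : T2 9 12 16 11664 tb_9_12_16) (by decide +kernel)⟩

def sl_9_12_16_23302 : ℕ := nat_lit 0x400000000000000000400000004d00000000400000000000000000000000004d0000000000010000000000010000000000000000400000000000000000000000004d0000000000010000000000000000000000000000000000000000000000000000005b060199925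

theorem so_9_12_16_23302 : sl_9_12_16_23302 < 2 ^ 1024 ∧ SlotOK sl_9_12_16_23302 :=
  ⟨by decide +kernel, slot_of (by decide +kernel) (by decide +kernel) (by decide +kernel) t1_9_12_16
    t2_9_12_16_23302 (by decide +kernel)⟩

def sl_9_12_16_27185 : ℕ := nat_lit 0x400000004d00000000000000000000000000000000004d0000000000010000000000010000000000000000000000000000000000000000004d0000000000010000000000000000000000000000000000000000000000000000006a310199925

theorem so_9_12_16_27185 : sl_9_12_16_27185 < 2 ^ 1024 ∧ SlotOK sl_9_12_16_27185 :=
  ⟨by decide +kernel, slot_of (by decide +kernel) (by decide +kernel) (by decide +kernel) t1_9_12_16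
    t2_9_12_16_27185 (by decide +kernel)⟩

def sl_9_12_32_11664 : ℕ := nat_lit 0x92800000000000000000000000000000000000000000000002000000000000000000000000000000000000000000000000000000000000000000000000000000000000000000000000000000000000000000000000002d900899935

theorem so_9_12_32_11664 : sl_9_12_32_11664 < 2 ^ 1024 ∧ SlotOK sl_9_12_32_11664 :=
  ⟨by decide +kernel, slot_of (by decide +kernel) (by decide +kernel) (by decide +kernel) t1_9_12_32
    (T2_of (by decide) (by decide) (by decide) (Or.inl (by decide)) (Or.inl (by decide)) (Or.inl (by decide)) : T2 9 12 32 11664 tb_9_12_32) (by decide +kernel)⟩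

def sl_9_12_32_27614 : ℕ := nat_lit 0x92800000000000000000000000000000000000000000000002000000000000000000000000000000000000000000000000000000000000000000000000000000000000000000000000000000000000000000000000006bde0899935

theorem so_9_12_32_27614 : sl_9_12_32_27614 < 2 ^ 1024 ∧ SlotOK sl_9_12_32_27614 :=
  ⟨by decide +kernel, slot_of (by decide +kernel) (by decide +kernel) (by decide +kernel) t1_9_12_32
    t2_9_12_32_27614 (by decide +kernel)⟩

def sl_9_15_16_11664 : ℕ := nat_lit 0x20000000020000000000000000000000000000000000020000000000000000000000000000000000000000000000000000000000000000000200000000000000000000000000000000000000000000000000000000000000000002d900200828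

theorem so_9_15_16_11664 : sl_9_15_16_11664 < 2 ^ 1024 ∧ SlotOK sl_9_15_16_11664 :=
  ⟨by decide +kernel, slot_of (by decide +kernel) (by decide +kernel) (by decide +kernel) t1_9_15_16
    (T2_of (by decide) (by decide) (by decide) (Or.inl (by decide)) (Or.inl (by decide)) (Or.inl (by decide)) : T2 9 15 16 11664 tb_9_15_16) (by decide +kernel)⟩

def sl_9_15_16_18641 : ℕ := nat_lit 0x200000000000000000000000000000000000200000000000000000000000000000000000000000000000000000000000000000002000000000000000000000000000000000000000000000000000000000000000000048d10200828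

theorem so_9_15_16_18641 : sl_9_15_16_18641 < 2 ^ 1024 ∧ SlotOK sl_9_15_16_18641 :=
  ⟨by decide +kernel, slot_of (by decide +kernel) (by decide +kernel) (by decide +kernel) t1_9_15_16
    t2_9_15_16_18641 (by decide +kernel)⟩

def sl_9_16_16_11664 : ℕ := nat_lit 0x800000000000000000000000000000000000800000000000000000000000000000000000000000000000000000000000000000008000000000000000000000000000000000000000000000000000000000000000000000000002d90022d929

theorem so_9_16_16_11664 : sl_9_16_16_11664 < 2 ^ 1024 ∧ SlotOK sl_9_16_16_11664 :=
  ⟨by decide +kernel, slot_of (by decide +kernel) (by decide +kernel) (by decide +kernel) t1_9_16_16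
    (T2_of (by decide) (by decide) (by decide) (Or.inl (by decide)) (Or.inl (by decide)) (Or.inl (by decide)) : T2 9 16 16 11664 tb_9_16_16) (by decide +kernel)⟩

def sl_9_16_18_11664 : ℕ := nat_lit 0x804000100000020000804020100800000000804000100800020000804020100000000000000000000000000000000000000000008040001000000200008040201000000000000000000000000000804000100000000000000000000000000000000002d90029a12b

theorem so_9_16_18_11664 : sl_9_16_18_11664 < 2 ^ 1024 ∧ SlotOK sl_9_16_18_11664 :=
  ⟨by decide +kernel, slot_of (by decide +kernel) (by decide +kernel) (by decide +kernel) t1_9_16_18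
    (T2_of (by decide) (by decide) (by decide) (Or.inl (by decide)) (Or.inl (by decide)) (Or.inl (by decide)) : T2 9 16 18 11664 tb_9_16_18) (by decide +kernel)⟩

def sl_9_16_18_17476 : ℕ := nat_lit 0x20000000020000800000000000000000800020000000020000000000000000000000000000000000000000000000000000000000200000000200000000000000000000000000000000000000000000000000000000000000000000004444029a12b

theorem so_9_16_18_17476 : sl_9_16_18_17476 < 2 ^ 1024 ∧ SlotOK sl_9_16_18_17476 :=
  ⟨by decide +kernel, slot_of (by decide +kernel) (by decide +kernel) (by decide +kernel) t1_9_16_18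
    t2_9_16_18_17476 (by decide +kernel)⟩

def sl_9_16_18_23302 : ℕ := nat_lit 0x20000800000000000000000800000000000020000000000000000000000000000000000000000000000000000000000000000000200000000000000000000000000000000000000000000000000000000000000000000005b06029a12b

theorem so_9_16_18_23302 : sl_9_16_18_23302 < 2 ^ 1024 ∧ SlotOK sl_9_16_18_23302 :=
  ⟨by decide +kernel, slot_of (by decide +kernel) (by decide +kernel) (by decide +kernel) t1_9_16_18
    t2_9_16_18_23302 (by decide +kernel)⟩

def sl_9_16_20_11664 : ℕ := nat_lit 0x800000024800000000000000000000000000800000024800000000000000000800000000000800000000000000000000000000008000000248000000000000000008000000000000000000000000000000000000000000000000000000002d90032192d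

theorem so_9_16_20_11664 : sl_9_16_20_11664 < 2 ^ 1024 ∧ SlotOK sl_9_16_20_11664 :=
  ⟨by decide +kernel, slot_of (by decide +kernel) (by decide +kernel) (by decide +kernel) t1_9_16_20
    (T2_of (by decide) (by decide) (by decide) (Or.inl (by decide)) (Or.inl (by decide)) (Or.inl (by decide)) : T2 9 16 20 11664 tb_9_16_20) (by decide +kernel)⟩

def sl_9_16_24_11664 : ℕ := nat_lit 0x20000004069000000020000004069000000020000004000000000020000004069000001000001000000000001000000000000000200000040000000000200000040690000000000010000000000020000004000000000000000000000000000000000002d90048d931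

theorem so_9_16_24_11664 : sl_9_16_24_11664 < 2 ^ 1024 ∧ SlotOK sl_9_16_24_11664 :=
  ⟨by decide +kernel, slot_of (by decide +kernel) (by decide +kernel) (by decide +kernel) t1_9_16_24
    (T2_of (by decide) (by decide) (by decide) (Or.inl (by decide)) (Or.inl (by decide)) (Or.inl (by decide)) : T2 9 16 24 11664 tb_9_16_24) (by decide +kernel)⟩

def sl_9_16_24_23302 : ℕ := nat_lit 0x20000000000000000020000000000000000000000000000000000020000000000000000000000000000000000000000000000000000000000000000000200000000000000000000000000000000000000000000000000000000000000000005b06048d931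

theorem so_9_16_24_23302 : sl_9_16_24_23302 < 2 ^ 1024 ∧ SlotOK sl_9_16_24_23302 :=
  ⟨by decide +kernel, slot_of (by decide +kernel) (by decide +kernel) (by decide +kernel) t1_9_16_24
    t2_9_16_24_23302 (by decide +kernel)⟩

def sl_9_16_32_11664 : ℕ := nat_lit 0x800000024800000000000000000000000000800000000000000000000800000000000000000000000000000000000000000000008000000000000000000000000000000000000000000000000000000000000000000000000002d90092d939

theorem so_9_16_32_11664 : sl_9_16_32_11664 < 2 ^ 1024 ∧ SlotOK sl_9_16_32_11664 :=
  ⟨by decide +kernel, slot_of (by decide +kernel) (by decide +kernel) (by decide +kernel) t1_9_16_32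
    (T2_of (by decide) (by decide) (by decide) (Or.inl (by decide)) (Or.inl (by decide)) (Or.inl (by decide)) : T2 9 16 32 11664 tb_9_16_32) (by decide +kernel)⟩

def sl_9_16_32_23302 : ℕ := nat_lit 0x800000000000000000000000000000000000000000000000000000000000000000000000000000000000000000000000000000000000000000000000000000000000000000000000000000000000000000000000005b06092d939

theorem so_9_16_32_23302 : sl_9_16_32_23302 < 2 ^ 1024 ∧ SlotOK sl_9_16_32_23302 :=
  ⟨by decide +kernel, slot_of (by decide +kernel) (by decide +kernel) (by decide +kernel) t1_9_16_32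
    t2_9_16_32_23302 (by decide +kernel)⟩

def sl_9_16_36_11664 : ℕ := nat_lit 0x100000000000800000100800000000000000100000000000800000100800000000000000000000000000000000000000000000001000000000008000001008000000000000000000000000000000100000000000000000000000000000000000000000002d900c9193d

theorem so_9_16_36_11664 : sl_9_16_36_11664 < 2 ^ 1024 ∧ SlotOK sl_9_16_36_11664 :=
  ⟨by decide +kernel, slot_of (by decide +kernel) (by decide +kernel) (by decide +kernel) t1_9_16_36
    (T2_of (by decide) (by decide) (by decide) (Or.inl (by decide)) (Or.inl (by decide)) (Or.inl (by decide)) : T2 9 16 36 11664 tb_9_16_36) (by decide +kernel)⟩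

def sl_9_16_36_23302 : ℕ := nat_lit 0x800000000800000000000000000000000000800000000800000000000000000000000000000000000000000000000000000000008000000008000000000000000000000000000000000000000000000000000000000000000000000000005b060c9193d

theorem so_9_16_36_23302 : sl_9_16_36_23302 < 2 ^ 1024 ∧ SlotOK sl_9_16_36_23302 :=
  ⟨by decide +kernel, slot_of (by decide +kernel) (by decide +kernel) (by decide +kernel) t1_9_16_36
    t2_9_16_36_23302 (by decide +kernel)⟩

def sl_9_18_32_11664 : ℕ := nat_lit 0x4000000800020000004020000000000000004000000800020000004020000000000000000000000000000000000000000000000040000008000200000040200000000000000000000000000000004000000000000000000000000000000000000002d90099a13b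

theorem so_9_18_32_11664 : sl_9_18_32_11664 < 2 ^ 1024 ∧ SlotOK sl_9_18_32_11664 :=
  ⟨by decide +kernel, slot_of (by decide +kernel) (by decide +kernel) (by decide +kernel) t1_9_18_32
    (T2_of (by decide) (by decide) (by decide) (Or.inl (by decide)) (Or.inl (by decide)) (Or.inl (by decide)) : T2 9 18 32 11664 tb_9_18_32) (by decide +kernel)⟩

def sl_9_20_36_11664 : ℕ := nat_lit 0x800000000800000000800000000000000000000000000800000000800000000000000000000000000000000000000000000000000000000008000000008000000000000000000000000000000000000000000000000000000000000000000000000002d900d85941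

theorem so_9_20_36_11664 : sl_9_20_36_11664 < 2 ^ 1024 ∧ SlotOK sl_9_20_36_11664 :=
  ⟨by decide +kernel, slot_of (by decide +kernel) (by decide +kernel) (by decide +kernel) t1_9_20_36
    (T2_of (by decide) (by decide) (by decide) (Or.inl (by decide)) (Or.inl (by decide)) (Or.inl (by decide)) : T2 9 20 36 11664 tb_9_20_36) (by decide +kernel)⟩

def sl_9_20_36_23302 : ℕ := nat_lit 0x800000000800000000800000000000000000000000000800000000800000000000000000000000000000000000000000000000000000000008000000008000000000000000000000000000000000000000000000000000000000000000000000000005b060d85941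

theorem so_9_20_36_23302 : sl_9_20_36_23302 < 2 ^ 1024 ∧ SlotOK sl_9_20_36_23302 :=
  ⟨by decide +kernel, slot_of (by decide +kernel) (by decide +kernel) (by decide +kernel) t1_9_20_36
    t2_9_20_36_23302 (by decide +kernel)⟩

def sl_9_24_32_11664 : ℕ := nat_lit 0x92800000000000000000000000000000000000000000000000000092800000000002000000000000000002000000000000000000000000000000000000000000000000000000000000000000000000000000000000000000000000000000000000000002d900b8d941

theorem so_9_24_32_11664 : sl_9_24_32_11664 < 2 ^ 1024 ∧ SlotOK sl_9_24_32_11664 :=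
  ⟨by decide +kernel, slot_of (by decide +kernel) (by decide +kernel) (by decide +kernel) t1_9_24_32
    (T2_of (by decide) (by decide) (by decide) (Or.inl (by decide)) (Or.inl (by decide)) (Or.inl (by decide)) : T2 9 24 32 11664 tb_9_24_32) (by decide +kernel)⟩

def sl_9_27_32_11664 : ℕ := nat_lit 0x800000000000000000000000000000000000000000000000000000000000000000000000000000000000000000000000000000000000000000000000000000000000000000000000000000000000000000000000002d900cfbc44

theorem so_9_27_32_11664 : sl_9_27_32_11664 < 2 ^ 1024 ∧ SlotOK sl_9_27_32_11664 :=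
  ⟨by decide +kernel, slot_of (by decide +kernel) (by decide +kernel) (by decide +kernel) t1_9_27_32
    (T2_of (by decide) (by decide) (by decide) (Or.inl (by decide)) (Or.inl (by decide)) (Or.inl (by decide)) : T2 9 27 32 11664 tb_9_27_32) (by decide +kernel)⟩

def sl_9_27_32_46600 : ℕ := nat_lit 0x80000000000000000000000000000000000000000000000000000000000000000000000000000000000000000000000000000000000000000000000000000000000000000000000000000000000000000000000000b6080cfbc44

theorem so_9_27_32_46600 : sl_9_27_32_46600 < 2 ^ 1024 ∧ SlotOK sl_9_27_32_46600 :=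
  ⟨by decide +kernel, slot_of (by decide +kernel) (by decide +kernel) (by decide +kernel) t1_9_27_32
    t2_9_27_32_46600 (by decide +kernel)⟩

def sl_9_32_36_11664 : ℕ := nat_lit 0x800000000800000000000000000800000000800000000000000000000000000000000000000000000000000000000000000000008000000000000000000000000000000000000000000000000000000000000000000000000002d90139194d

theorem so_9_32_36_11664 : sl_9_32_36_11664 < 2 ^ 1024 ∧ SlotOK sl_9_32_36_11664 :=
  ⟨by decide +kernel, slot_of (by decide +kernel) (by decide +kernel) (by decide +kernel) t1_9_32_36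
    (T2_of (by decide) (by decide) (by decide) (Or.inl (by decide)) (Or.inl (by decide)) (Or.inl (by decide)) : T2 9 32 36 11664 tb_9_32_36) (by decide +kernel)⟩

def sl_9_32_36_23302 : ℕ := nat_lit 0x800000000800000000000000000800000000800000000000000000000000000000000000000000000000000000000000000000008000000000000000000000000000000000000000000000000000000000000000000000000005b06139194d

theorem so_9_32_36_23302 : sl_9_32_36_23302 < 2 ^ 1024 ∧ SlotOK sl_9_32_36_23302 :=
  ⟨by decide +kernel, slot_of (by decide +kernel) (by decide +kernel) (by decide +kernel) t1_9_32_36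
    t2_9_32_36_23302 (by decide +kernel)⟩

def sl_9_36_40_11664 : ℕ := nat_lit 0x800000000000000000800000000000000000000000000000000000000000000000000000000000000000000000000000000000000000000000000000000000000000000000000000000000000000000000000000002d901b31955

theorem so_9_36_40_11664 : sl_9_36_40_11664 < 2 ^ 1024 ∧ SlotOK sl_9_36_40_11664 :=
  ⟨by decide +kernel, slot_of (by decide +kernel) (by decide +kernel) (by decide +kernel) t1_9_36_40
    (T2_of (by decide) (by decide) (by decide) (Or.inl (by decide)) (Or.inl (by decide)) (Or.inl (by decide)) : T2 9 36 40 11664 tb_9_36_40) (by decide +kernel)⟩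

def sl_9_36_40_23302 : ℕ := nat_lit 0x800000000000000000800000000000000000000000000000000000000000000000000000000000000000000000000000000000000000000000000000000000000000000000000000000000000000000000000000005b061b31955

theorem so_9_36_40_23302 : sl_9_36_40_23302 < 2 ^ 1024 ∧ SlotOK sl_9_36_40_23302 :=
  ⟨by decide +kernel, slot_of (by decide +kernel) (by decide +kernel) (by decide +kernel) t1_9_36_40
    t2_9_36_40_23302 (by decide +kernel)⟩

def sl_12_16_21_27648 : ℕ := nat_lit 0x6d00000000000000000000000000000000006d0000000000010000000000010000000000000000000000000000000000000000006d0000000000010000000000000000000000000000000000000000000000000000006c0003aed31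

theorem so_12_16_21_27648 : sl_12_16_21_27648 < 2 ^ 1024 ∧ SlotOK sl_12_16_21_27648 :=
  ⟨by decide +kernel, slot_of (by decide +kernel) (by decide +kernel) (by decide +kernel) t1_12_16_21
    (T2_of (by decide) (by decide) (by decide) (Or.inl (by decide)) (Or.inl (by decide)) (Or.inl (by decide)) : T2 12 16 21 27648 tb_12_16_21) (by decide +kernel)⟩

def sl_12_16_27_27648 : ℕ := nat_lit 0x4d00000000400000000000000000400000004d0000000040000000000000000040010000000000010000000000000000000000004d0000000040000000000000000040010000000000000000000000000000004000000000000000000000000000000006c00063a337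

theorem so_12_16_27_27648 : sl_12_16_27_27648 < 2 ^ 1024 ∧ SlotOK sl_12_16_27_27648 :=
  ⟨by decide +kernel, slot_of (by decide +kernel) (by decide +kernel) (by decide +kernel) t1_12_16_27
    (T2_of (by decide) (by decide) (by decide) (Or.inl (by decide)) (Or.inl (by decide)) (Or.inl (by decide)) : T2 12 16 27 27648 tb_12_16_27) (by decide +kernel)⟩

def sl_12_20_27_27648 : ℕ := nat_lit 0x4000000000000000000000000004000000004000000000000000000000000004000000000000000000000000000000000000000040000000000000000000000000040000000000000000000000000000000000000000000000000000000000000000006c00072e33b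

theorem so_12_20_27_27648 : sl_12_20_27_27648 < 2 ^ 1024 ∧ SlotOK sl_12_20_27_27648 :=
  ⟨by decide +kernel, slot_of (by decide +kernel) (by decide +kernel) (by decide +kernel) t1_12_20_27
    (T2_of (by decide) (by decide) (by decide) (Or.inl (by decide)) (Or.inl (by decide)) (Or.inl (by decide)) : T2 12 20 27 27648 tb_12_20_27) (by decide +kernel)⟩

def sl_12_27_32_27648 : ℕ := nat_lit 0x4000000000000000000000000000000000004000000000000000000000000004000000000000000000000000000000000000000040000000000000000000000000000000000000000000000000000000000000000000000000000000000000000000006c000d3a347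

theorem so_12_27_32_27648 : sl_12_27_32_27648 < 2 ^ 1024 ∧ SlotOK sl_12_27_32_27648 :=
  ⟨by decide +kernel, slot_of (by decide +kernel) (by decide +kernel) (by decide +kernel) t1_12_27_32
    (T2_of (by decide) (by decide) (by decide) (Or.inl (by decide)) (Or.inl (by decide)) (Or.inl (by decide)) : T2 12 27 32 27648 tb_12_27_32) (by decide +kernel)⟩

def sl_15_16_36_54000 : ℕ := nat_lit 0x2000000002000000000000000000000000000000000002000000000000000000000000000000000000000000000000000000000000000000020000000000000000000000000000000000000000000000000000000000000000000d2f00d36f43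

theorem so_15_16_36_54000 : sl_15_16_36_54000 < 2 ^ 1024 ∧ SlotOK sl_15_16_36_54000 :=
  ⟨by decide +kernel, slot_of (by decide +kernel) (by decide +kernel) (by decide +kernel) t1_15_16_36
    (T2_of (by decide) (by decide) (by decide) (Or.inl (by decide)) (Or.inl (by decide)) (Or.inl (by decide)) : T2 15 16 36 54000 tb_15_16_36) (by decide +kernel)⟩

def sl_16_18_27_65536 : ℕ := nat_lit 0x20000000000000800000000000020000800020000000000000000000000000020000000000000000000000000000000000000000200000000000000000000000000200000000000000000000000000000000000000000000000000000000000000000000010000073ab3d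

theorem so_16_18_27_65536 : sl_16_18_27_65536 < 2 ^ 1024 ∧ SlotOK sl_16_18_27_65536 :=
  ⟨by decide +kernel, slot_of (by decide +kernel) (by decide +kernel) (by decide +kernel) t1_16_18_27
    (T2_of (by decide) (by decide) (by decide) (Or.inl (by decide)) (Or.inl (by decide)) (Or.inl (by decide)) : T2 16 18 27 65536 tb_16_18_27) (by decide +kernel)⟩

def sl_16_21_24_65536 : ℕ := nat_lit 0x80000000000000000080000000000000000000000000000000000000000000000000000000000000000000000000000000000000000000000000000000000000000000000000000000000000000000000000000000000000000000000001000006a2d3d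

theorem so_16_21_24_65536 : sl_16_21_24_65536 < 2 ^ 1024 ∧ SlotOK sl_16_21_24_65536 :=
  ⟨by decide +kernel, slot_of (by decide +kernel) (by decide +kernel) (by decide +kernel) t1_16_21_24
    (T2_of (by decide) (by decide) (by decide) (Or.inl (by decide)) (Or.inl (by decide)) (Or.inl (by decide)) : T2 16 21 24 65536 tb_16_21_24) (by decide +kernel)⟩

def sl_16_24_27_65536 : ℕ := nat_lit 0x20000000000000000020000000000000000000000000000000000000000000000000000000000000000000000000000000000000000000000000000000000000000000000000000000000000000000000000000000010000092e343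

theorem so_16_24_27_65536 : sl_16_24_27_65536 < 2 ^ 1024 ∧ SlotOK sl_16_24_27_65536 :=
  ⟨by decide +kernel, slot_of (by decide +kernel) (by decide +kernel) (by decide +kernel) t1_16_24_27
    (T2_of (by decide) (by decide) (by decide) (Or.inl (by decide)) (Or.inl (by decide)) (Or.inl (by decide)) : T2 16 24 27 65536 tb_16_24_27) (by decide +kernel)⟩

def sl_16_27_32_65536 : ℕ := nat_lit 0x8000000000000000000000000000000000000000000000000000000000000000000000000000000000000000000000000000000000000000000000000000000000000000000000000000000000000000000000000100000dce34b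

theorem so_16_27_32_65536 : sl_16_27_32_65536 < 2 ^ 1024 ∧ SlotOK sl_16_27_32_65536 :=
  ⟨by decide +kernel, slot_of (by decide +kernel) (by decide +kernel) (by decide +kernel) t1_16_27_32
    (T2_of (by decide) (by decide) (by decide) (Or.inl (by decide)) (Or.inl (by decide)) (Or.inl (by decide)) : T2 16 27 32 65536 tb_16_27_32) (by decide +kernel)⟩

def sl_16_27_32_108205 : ℕ := nat_lit 0x80000000000000000000000000000000000000000000000000000000000000000000000000000000000000000000000000000000000000000000000000000000000000000000000000000000000000000000000001a6ad0dce34b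

theorem so_16_27_32_108205 : sl_16_27_32_108205 < 2 ^ 1024 ∧ SlotOK sl_16_27_32_108205 :=
  ⟨by decide +kernel, slot_of (by decide +kernel) (by decide +kernel) (by decide +kernel) t1_16_27_32
    t2_16_27_32_108205 (by decide +kernel)⟩

def sl_24_27_32_221184 : ℕ := nat_lit 0x20000000000000000020000000000000000000000000000000000000000000000000000000000000000000000000000000000000000000000000000000000000000000000000000000000000000000000036000102e353

theorem so_24_27_32_221184 : sl_24_27_32_221184 < 2 ^ 1024 ∧ SlotOK sl_24_27_32_221184 :=
  ⟨by decide +kernel, slot_of (by decide +kernel) (by decide +kernel) (by decide +kernel) t1_24_27_32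
    (T2_of (by decide) (by decide) (by decide) (Or.inl (by decide)) (Or.inl (by decide)) (Or.inl (by decide)) : T2 24 27 32 221184 tb_24_27_32) (by decide +kernel)⟩

def sl_27_32_36_314928 : ℕ := nat_lit 0x80000000000000000000000000000000000000000000000000000000000000000000000000000000000000000000000000000000000000000000000000000000000000000000000000000000000000000000000004ce30183235f

theorem so_27_32_36_314928 : sl_27_32_36_314928 < 2 ^ 1024 ∧ SlotOK sl_27_32_36_314928 :=
  ⟨by decide +kernel, slot_of (by decide +kernel) (by decide +kernel) (by decide +kernel) t1_27_32_36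
    (T2_of (by decide) (by decide) (by decide) (Or.inl (by decide)) (Or.inl (by decide)) (Or.inl (by decide)) : T2 27 32 36 314928 tb_27_32_36) (by decide +kernel)⟩

def sl_27_32_36_523763 : ℕ := nat_lit 0x80000000000000000000000000000000000000000000000000000000000000000000000000000000000000000000000000000000000000000000000000000000000000000000000000000000000000000000000007fdf3183235f

theorem so_27_32_36_523763 : sl_27_32_36_523763 < 2 ^ 1024 ∧ SlotOK sl_27_32_36_523763 :=
  ⟨by decide +kernel, slot_of (by decide +kernel) (by decide +kernel) (by decide +kernel) t1_27_32_36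
    t2_27_32_36_523763 (by decide +kernel)⟩

def ch_3_0 : List ℕ := [sl_5_18_18_2000, sl_5_36_36_2000, sl_6_8_9_3456, sl_6_8_9_8182, sl_6_8_27_3456, sl_6_8_27_8182, sl_6_9_10_3456, sl_6_9_10_5523, sl_6_9_16_3456, sl_6_9_32_3456, sl_6_16_21_3456, sl_7_8_12_5488]

theorem ch_3_0_ok : ∀ s ∈ ch_3_0, s < 2 ^ 1024 ∧ SlotOK s :=
  List.forall_mem_cons.2 ⟨so_5_18_18_2000, List.forall_mem_cons.2 ⟨so_5_36_36_2000, List.forall_mem_cons.2 ⟨so_6_8_9_3456, List.forall_mem_cons.2 ⟨so_6_8_9_8182, List.forall_mem_cons.2 ⟨so_6_8_27_3456, List.forall_mem_cons.2 ⟨so_6_8_27_8182, List.forall_mem_cons.2 ⟨so_6_9_10_3456, List.forall_mem_cons.2 ⟨so_6_9_10_5523, List.forall_mem_cons.2 ⟨so_6_9_16_3456, List.forall_mem_cons.2 ⟨so_6_9_32_3456, List.forall_mem_cons.2 ⟨so_6_16_21_3456, List.forall_mem_cons.2 ⟨so_7_8_12_5488, List.forall_mem_nil _⟩⟩⟩⟩⟩⟩⟩⟩⟩⟩⟩⟩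

def ch_3_1 : List ℕ := [sl_7_8_12_9819, sl_7_9_12_5488, sl_7_12_16_5488, sl_7_12_32_5488, sl_7_12_32_9397, sl_8_8_9_8192, sl_8_8_9_10910, sl_8_8_9_12050, sl_8_8_25_8192, sl_8_9_9_8192, sl_8_9_9_12050, sl_8_9_9_15533]

theorem ch_3_1_ok : ∀ s ∈ ch_3_1, s < 2 ^ 1024 ∧ SlotOK s :=
  List.forall_mem_cons.2 ⟨so_7_8_12_9819, List.forall_mem_cons.2 ⟨so_7_9_12_5488, List.forall_mem_cons.2 ⟨so_7_12_16_5488, List.forall_mem_cons.2 ⟨so_7_12_32_5488, List.forall_mem_cons.2 ⟨so_7_12_32_9397, List.forall_mem_cons.2 ⟨so_8_8_9_8192, List.forall_mem_cons.2 ⟨so_8_8_9_10910, List.forall_mem_cons.2 ⟨so_8_8_9_12050, List.forall_mem_cons.2 ⟨so_8_8_25_8192, List.forall_mem_cons.2 ⟨so_8_9_9_8192, List.forall_mem_cons.2 ⟨so_8_9_9_12050, List.forall_mem_cons.2 ⟨so_8_9_9_15533, List.forall_mem_nil _⟩⟩⟩⟩⟩⟩⟩⟩⟩⟩⟩⟩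

def ch_3_2 : List ℕ := [sl_8_9_12_8192, sl_8_9_12_12274, sl_8_9_16_8192, sl_8_9_16_11652, sl_8_9_18_8192, sl_8_9_18_11652, sl_8_9_18_16364, sl_8_9_24_8192, sl_8_9_24_11652, sl_8_9_27_8192, sl_8_9_32_8192, sl_8_9_32_10910]

theorem ch_3_2_ok : ∀ s ∈ ch_3_2, s < 2 ^ 1024 ∧ SlotOK s :=
  List.forall_mem_cons.2 ⟨so_8_9_12_8192, List.forall_mem_cons.2 ⟨so_8_9_12_12274, List.forall_mem_cons.2 ⟨so_8_9_16_8192, List.forall_mem_cons.2 ⟨so_8_9_16_11652, List.forall_mem_cons.2 ⟨so_8_9_18_8192, List.forall_mem_cons.2 ⟨so_8_9_18_11652, List.forall_mem_cons.2 ⟨so_8_9_18_16364, List.forall_mem_cons.2 ⟨so_8_9_24_8192, List.forall_mem_cons.2 ⟨so_8_9_24_11652, List.forall_mem_cons.2 ⟨so_8_9_27_8192, List.forall_mem_cons.2 ⟨so_8_9_32_8192, List.forall_mem_cons.2 ⟨so_8_9_32_10910, List.forall_mem_nil _⟩⟩⟩⟩⟩⟩⟩⟩⟩⟩⟩⟩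

def ch_3_3 : List ℕ := [sl_8_9_36_8192, sl_8_9_36_19834, sl_8_12_27_8192, sl_8_12_27_13637, sl_8_18_25_8192, sl_8_24_27_8192, sl_8_24_27_32728, sl_8_27_36_8192, sl_9_9_10_11664, sl_9_9_16_11664, sl_9_9_20_11664, sl_9_9_32_11664]

theorem ch_3_3_ok : ∀ s ∈ ch_3_3, s < 2 ^ 1024 ∧ SlotOK s :=
  List.forall_mem_cons.2 ⟨so_8_9_36_8192, List.forall_mem_cons.2 ⟨so_8_9_36_19834, List.forall_mem_cons.2 ⟨so_8_12_27_8192, List.forall_mem_cons.2 ⟨so_8_12_27_13637, List.forall_mem_cons.2 ⟨so_8_18_25_8192, List.forall_mem_cons.2 ⟨so_8_24_27_8192, List.forall_mem_cons.2 ⟨so_8_24_27_32728, List.forall_mem_cons.2 ⟨so_8_27_36_8192, List.forall_mem_cons.2 ⟨so_9_9_10_11664, List.forall_mem_cons.2 ⟨so_9_9_16_11664, List.forall_mem_cons.2 ⟨so_9_9_20_11664, List.forall_mem_cons.2 ⟨so_9_9_32_11664, List.forall_mem_nil _⟩⟩⟩⟩⟩⟩⟩⟩⟩⟩⟩⟩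

def ch_3_4 : List ℕ := [sl_9_9_32_15534, sl_9_9_40_11664, sl_9_10_16_11664, sl_9_10_36_11664, sl_9_10_36_15984, sl_9_12_16_11664, sl_9_12_16_23302, sl_9_12_16_27185, sl_9_12_32_11664, sl_9_12_32_27614, sl_9_15_16_11664, sl_9_15_16_18641]

theorem ch_3_4_ok : ∀ s ∈ ch_3_4, s < 2 ^ 1024 ∧ SlotOK s :=
  List.forall_mem_cons.2 ⟨so_9_9_32_15534, List.forall_mem_cons.2 ⟨so_9_9_40_11664, List.forall_mem_cons.2 ⟨so_9_10_16_11664, List.forall_mem_cons.2 ⟨so_9_10_36_11664, List.forall_mem_cons.2 ⟨so_9_10_36_15984, List.forall_mem_cons.2 ⟨so_9_12_16_11664, List.forall_mem_cons.2 ⟨so_9_12_16_23302, List.forall_mem_cons.2 ⟨so_9_12_16_27185, List.forall_mem_cons.2 ⟨so_9_12_32_11664, List.forall_mem_cons.2 ⟨so_9_12_32_27614, List.forall_mem_cons.2 ⟨so_9_15_16_11664, List.forall_mem_cons.2 ⟨so_9_15_16_18641, List.forall_mem_nil _⟩⟩⟩⟩⟩⟩⟩⟩⟩⟩⟩⟩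

def ch_3_5 : List ℕ := [sl_9_16_16_11664, sl_9_16_18_11664, sl_9_16_18_17476, sl_9_16_18_23302, sl_9_16_20_11664, sl_9_16_24_11664, sl_9_16_24_23302, sl_9_16_32_11664, sl_9_16_32_23302, sl_9_16_36_11664, sl_9_16_36_23302, sl_9_18_32_11664]

theorem ch_3_5_ok : ∀ s ∈ ch_3_5, s < 2 ^ 1024 ∧ SlotOK s :=
  List.forall_mem_cons.2 ⟨so_9_16_16_11664, List.forall_mem_cons.2 ⟨so_9_16_18_11664, List.forall_mem_cons.2 ⟨so_9_16_18_17476, List.forall_mem_cons.2 ⟨so_9_16_18_23302, List.forall_mem_cons.2 ⟨so_9_16_20_11664, List.forall_mem_cons.2 ⟨so_9_16_24_11664, List.forall_mem_cons.2 ⟨so_9_16_24_23302, List.forall_mem_cons.2 ⟨so_9_16_32_11664, List.forall_mem_cons.2 ⟨so_9_16_32_23302, List.forall_mem_cons.2 ⟨so_9_16_36_11664, List.forall_mem_cons.2 ⟨so_9_16_36_23302, List.forall_mem_cons.2 ⟨so_9_18_32_11664, List.forall_mem_nil _⟩⟩⟩⟩⟩⟩⟩⟩⟩⟩⟩⟩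

def ch_3_6 : List ℕ := [sl_9_20_36_11664, sl_9_20_36_23302, sl_9_24_32_11664, sl_9_27_32_11664, sl_9_27_32_46600, sl_9_32_36_11664, sl_9_32_36_23302, sl_9_36_40_11664, sl_9_36_40_23302, sl_12_16_21_27648, sl_12_16_27_27648, sl_12_20_27_27648]

theorem ch_3_6_ok : ∀ s ∈ ch_3_6, s < 2 ^ 1024 ∧ SlotOK s :=
  List.forall_mem_cons.2 ⟨so_9_20_36_11664, List.forall_mem_cons.2 ⟨so_9_20_36_23302, List.forall_mem_cons.2 ⟨so_9_24_32_11664, List.forall_mem_cons.2 ⟨so_9_27_32_11664, List.forall_mem_cons.2 ⟨so_9_27_32_46600, List.forall_mem_cons.2 ⟨so_9_32_36_11664, List.forall_mem_cons.2 ⟨so_9_32_36_23302, List.forall_mem_cons.2 ⟨so_9_36_40_11664, List.forall_mem_cons.2 ⟨so_9_36_40_23302, List.forall_mem_cons.2 ⟨so_12_16_21_27648, List.forall_mem_cons.2 ⟨so_12_16_27_27648, List.forall_mem_cons.2 ⟨so_12_20_27_27648, List.forall_mem_nil _⟩⟩⟩⟩⟩⟩⟩⟩⟩⟩⟩⟩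

def ch_3_7 : List ℕ := [sl_12_27_32_27648, sl_15_16_36_54000, sl_16_18_27_65536, sl_16_21_24_65536, sl_16_24_27_65536, sl_16_27_32_65536, sl_16_27_32_108205, sl_24_27_32_221184, sl_27_32_36_314928, sl_27_32_36_523763]

theorem ch_3_7_ok : ∀ s ∈ ch_3_7, s < 2 ^ 1024 ∧ SlotOK s :=
  List.forall_mem_cons.2 ⟨so_12_27_32_27648, List.forall_mem_cons.2 ⟨so_15_16_36_54000, List.forall_mem_cons.2 ⟨so_16_18_27_65536, List.forall_mem_cons.2 ⟨so_16_21_24_65536, List.forall_mem_cons.2 ⟨so_16_24_27_65536, List.forall_mem_cons.2 ⟨so_16_27_32_65536, List.forall_mem_cons.2 ⟨so_16_27_32_108205, List.forall_mem_cons.2 ⟨so_24_27_32_221184, List.forall_mem_cons.2 ⟨so_27_32_36_314928, List.forall_mem_cons.2 ⟨so_27_32_36_523763, List.forall_mem_nil _⟩⟩⟩⟩⟩⟩⟩⟩⟩⟩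

end Pool.H94.Pol
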