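import Pool.Agent.H94.Pol.Data.S01
import Pool.Agent.H94.Pol.Data.S02
import Pool.Agent.H94.Pol.Data.S03
import Pool.Agent.H94.Pol.Data.S04
import Pool.Agent.H94.Pol.Data.DB

/-! The data base is correct. -/

namespace Pool.H94.Pol

theorem DB0_eq : DB0 = dbOf (ch_0_0 ++ (ch_0_1 ++ (ch_0_2 ++ (ch_0_3 ++ (ch_0_4 ++ (ch_0_5 ++ (ch_0_6 ++ (ch_0_7 ++ (ch_1_0 ++ (ch_1_1 ++ (ch_1_2 ++ (ch_1_3 ++ (ch_1_4 ++ (ch_1_5 ++ (ch_1_6 ++ (ch_1_7 ++ (ch_2_0 ++ (ch_2_1 ++ (ch_2_2 ++ (ch_2_3 ++ (ch_2_4 ++ (ch_2_5 ++ (ch_2_6 ++ (ch_2_7 ++ (ch_3_0 ++ (ch_3_1 ++ (ch_3_2 ++ (ch_3_3 ++ (ch_3_4 ++ (ch_3_5 ++ (ch_3_6 ++ (ch_3_7)))))))))))))))))))))))))))))))) := by decide +kernel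

theorem DB0_ok : DBOK DB0 := by
  rw [DB0_eq]
  exact dbOf_ok (List.forall_mem_append.2 ⟨ch_0_0_ok, List.forall_mem_append.2 ⟨ch_0_1_ok, List.forall_mem_append.2 ⟨ch_0_2_ok, List.forall_mem_append.2 ⟨ch_0_3_ok, List.forall_mem_append.2 ⟨ch_0_4_ok, List.forall_mem_append.2 ⟨ch_0_5_ok, List.forall_mem_append.2 ⟨ch_0_6_ok, List.forall_mem_append.2 ⟨ch_0_7_ok, List.forall_mem_append.2 ⟨ch_1_0_ok, List.forall_mem_append.2 ⟨ch_1_1_ok, List.forall_mem_append.2 ⟨ch_1_2_ok, List.forall_mem_append.2 ⟨ch_1_3_ok, List.forall_mem_append.2 ⟨ch_1_4_ok, List.forall_mem_append.2 ⟨ch_1_5_ok, List.forall_mem_append.2 ⟨ch_1_6_ok, List.forall_mem_append.2 ⟨ch_1_7_ok, List.forall_mem_append.2 ⟨ch_2_0_ok, List.forall_mem_append.2 ⟨ch_2_1_ok, List.forall_mem_append.2 ⟨ch_2_2_ok, List.forall_mem_append.2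 ⟨ch_2_3_ok, List.forall_mem_append.2 ⟨ch_2_4_ok, List.forall_mem_append.2 ⟨ch_2_5_ok, List.forall_mem_append.2 ⟨ch_2_6_ok, List.forall_mem_append.2 ⟨ch_2_7_ok, List.forall_mem_append.2 ⟨ch_3_0_ok, List.forall_mem_append.2 ⟨ch_3_1_ok, List.forall_mem_append.2 ⟨ch_3_2_ok, List.forall_mem_append.2 ⟨ch_3_3_ok, List.forall_mem_append.2 ⟨ch_3_4_ok, List.forall_mem_append.2 ⟨ch_3_5_ok, List.forall_mem_append.2 ⟨ch_3_6_ok, ch_3_7_ok⟩⟩⟩⟩⟩⟩⟩⟩⟩⟩⟩⟩⟩⟩⟩⟩⟩⟩⟩⟩⟩⟩⟩⟩⟩⟩⟩⟩⟩⟩⟩)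

end Pool.H94.Pol
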