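import Pool.Agent.H94.Pol.Fin
import Pool.Agent.H94.Pol.Data.DBok
import Pool.Agent.H94.Pol.Data.C00
import Pool.Agent.H94.Pol.Data.C01
import Pool.Agent.H94.Pol.Data.C02
import Pool.Agent.H94.Pol.Data.C03
import Pool.Agent.H94.Pol.Data.C04
import Pool.Agent.H94.Pol.Data.C05
import Pool.Agent.H94.Pol.Data.C06
import Pool.Agent.H94.Pol.Data.C07
import Pool.Agent.H94.Pol.Data.C08
import Pool.Agent.H94.Pol.Data.C09
import Pool.Agent.H94.Pol.Data.C10
import Pool.Agent.H94.Pol.Data.C11
import Pool.Agent.H94.Pol.Data.C12
import Pool.Agent.H94.Pol.Data.C13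
import Pool.Agent.H94.Pol.Data.C14
import Pool.Agent.H94.Pol.Data.C15
import Pool.Agent.H94.Pol.Data.C16
import Pool.Agent.H94.Pol.Data.C17
import Pool.Agent.H94.Pol.Data.C18
import Pool.Agent.H94.Pol.Data.C19
import Pool.Agent.H94.Pol.Data.C20
import Pool.Agent.H94.Pol.Data.C21
import Pool.Agent.H94.Pol.Data.C22
import Pool.Agent.H94.Pol.Data.C23
import Pool.Agent.H94.Pol.Data.C24
import Pool.Agent.H94.Pol.Data.C25
import Pool.Agent.H94.Pol.Data.C26
import Pool.Agent.H94.Pol.Data.C27
import Pool.Agent.H94.Pol.Data.C28
import Pool.Agent.H94.Pol.Data.C29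
import Pool.Agent.H94.Pol.Data.C30
import Pool.Agent.H94.Pol.Data.C31

/-! Every natural number is a sum of seven tetrahedral numbers. -/

namespace Pool.H94.Pol

/-- break points `⌊8^(i/32) 2^24⌋` -/
def bp (i : ℕ) : ℕ :=
  ([16777216, 17903645, 19105702, 20388467, 21757357, 23218155,
    24777031, 26440571, 28215801, 30110221, 32131834, 34289178,
    36591367, 39048126, 41669833, 44467562, 47453132, 50639155,
    54039088, 57667294, 61539099, 65670859, 70080027, 74785228,
    79806338, 85164568, 90882551, 96984442, 103496016, 110444780,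
    117860087, 125773260, 134217728] : List ℕ).getD i 0

theorem rows : ∀ i < 32, ∀ ph < 32, ∃ cert, cell DB0 (bp i) (bp (i + 1) + 1) 5 ph cert = true := by
  intro i hi
  interval_cases i
  · exact row_0
  · exact row_1
  · exact row_2
  · exact row_3
  · exact row_4
  · exact row_5
  · exact row_6
  · exact row_7
  · exact row_8
  · exact row_9
  · exact row_10
  · exact row_11
  · exact row_12
  · exact row_13
  · exact row_14
  · exact row_15
  · exact row_16
  · exact row_17
  · exact row_18
  · exact row_19
  · exact row_20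
  · exact row_21
  · exact row_22
  · exact row_23
  · exact row_24
  · exact row_25
  · exact row_26
  · exact row_27
  · exact row_28
  · exact row_29
  · exact row_30
  · exact row_31

theorem seven (N : ℕ) : Rep7 N :=
  final_of DB0_ok bp (by decide) (by decide) rows N

end Pool.H94.Pol
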