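import Pool.Agent.H94.Pol.Slot
import Pool.Agent.H94.Pol.Data.A01
import Pool.Agent.H94.Pol.Data.A02
import Pool.Agent.H94.Pol.Data.A03
import Pool.Agent.H94.Pol.Data.A05
import Pool.Agent.H94.Pol.Data.A06
import Pool.Agent.H94.Pol.Data.A07
import Pool.Agent.H94.Pol.Data.A08
import Pool.Agent.H94.Pol.Data.A09
import Pool.Agent.H94.Pol.Data.A10
import Pool.Agent.H94.Pol.Data.A11
import Pool.Agent.H94.Pol.Data.A13
import Pool.Agent.H94.Pol.Data.A15
import Pool.Agent.H94.Pol.Data.B01
import Pool.Agent.H94.Pol.Data.B02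
import Pool.Agent.H94.Pol.Data.B03
import Pool.Agent.H94.Pol.Data.B04

/-! Slots of the data base. -/

namespace Pool.H94.Pol

def sl_1_1_1_16 : ℕ := nat_lit 0x3ffff007ffffffff803fffffffffffff00003fffffffffffffff803fffffffffffff000fc7ff8ffffc0fffff8ffffc37bf3fbf003ffff007ffffffff803fffffffffffff000fc7ff8ffffc37bf003ffff007ffffff000fc7fc37003ffff000fc30000000000000100000303

theorem so_1_1_1_16 : sl_1_1_1_16 < 2 ^ 1024 ∧ SlotOK sl_1_1_1_16 :=
  ⟨by decide +kernel, slot_of (by decide +kernel) (by decide +kernel) (by decide +kernel) t1_1_1_1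
    (T2_of (by decide) (by decide) (by decide) (Or.inl (by decide)) (Or.inl (by decide)) (Or.inl (by decide)) : T2 1 1 1 16 tb_1_1_1) (by decide +kernel)⟩

def sl_1_1_1_19 : ℕ := nat_lit 0x2db6d005b6db6db6802db6db6db6db6d00002db6db6db6db6db6802db6db6db6db6d000b45b68b6db40b6db68b6db400000000002db6d005b6db6db6802db6db6db6db6d000b45b68b6db40000002db6d005b6db6d000b45b400002db6d000b400000000000000130000303

theorem so_1_1_1_19 : sl_1_1_1_19 < 2 ^ 1024 ∧ SlotOK sl_1_1_1_19 :=
  ⟨by decide +kernel, slot_of (by decide +kernel) (by decide +kernel) (by decide +kernel) t1_1_1_1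
    t2_1_1_1_19 (by decide +kernel)⟩

def sl_1_1_2_16 : ℕ := nat_lit 0x7fc01fffffffffff007fffffffffffffffffffc01fffffffffffffffffffffffffffff0071fffc7ffffff1fffffffffc5f7fdfff7fc01fffffffffff007fffffffffffffff0071fffc7ffffc5f7f7fc01fffffffffff0071fffc5f7fc01ff0071c57fc01c4000000100000a04

theorem so_1_1_2_16 : sl_1_1_2_16 < 2 ^ 1024 ∧ SlotOK sl_1_1_2_16 :=
  ⟨by decide +kernel, slot_of (by decide +kernel) (by decide +kernel) (by decide +kernel) t1_1_1_2
    (T2_of (by decide) (by decide) (by decide) (Or.inl (by decide)) (Or.inl (by decide)) (Or.inl (by decide)) : T2 1 1 2 16 tb_1_1_2) (by decide +kernel)⟩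

def sl_1_1_2_17 : ℕ := nat_lit 0x40001ff807fe0100007fe01ff807fe01ff8040001ff807fe01ff807fe01ff807fe01000038e00e38e38038e38e38e00a2a8aaa0040001ff807fe0100007fe01ff807fe01000038e00e38e00a2a0040001ff807fe01000038e00a00400010000000040000000000110000a04

theorem so_1_1_2_17 : sl_1_1_2_17 < 2 ^ 1024 ∧ SlotOK sl_1_1_2_17 :=
  ⟨by decide +kernel, slot_of (by decide +kernel) (by decide +kernel) (by decide +kernel) t1_1_1_2
    t2_1_1_2_17 (by decide +kernel)⟩

def sl_1_1_2_20 : ℕ := nat_lit 0x40001ff807fe0100007fe01ff807fe01ff8040001ff807fe01ff807fe01ff807fe01000038e00e38e38038e38e38e00a2a8aaa0040001ff807fe0100007fe01ff807fe01000038e00e38e00a2a0040001ff807fe01000038e00a00400010000000040000000000140000a04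

theorem so_1_1_2_20 : sl_1_1_2_20 < 2 ^ 1024 ∧ SlotOK sl_1_1_2_20 :=
  ⟨by decide +kernel, slot_of (by decide +kernel) (by decide +kernel) (by decide +kernel) t1_1_1_2
    t2_1_1_2_20 (by decide +kernel)⟩

def sl_1_1_2_23 : ℕ := nat_lit 0x40001ff807fe0100007fe01ff807fe01ff8040001ff807fe01ff807fe01ff807fe01000038e00e38e38038e38e38e00a2a8aaa0040001ff807fe0100007fe01ff807fe01000038e00e38e00a2a0040001ff807fe01000038e00a00400010000000040000000000170000a04

theorem so_1_1_2_23 : sl_1_1_2_23 < 2 ^ 1024 ∧ SlotOK sl_1_1_2_23 :=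
  ⟨by decide +kernel, slot_of (by decide +kernel) (by decide +kernel) (by decide +kernel) t1_1_1_2
    t2_1_1_2_23 (by decide +kernel)⟩

def sl_1_1_2_26 : ℕ := nat_lit 0x400010080402010000402010080402010080400010080402010080402010080402010000000000000000000000000000000000004000100804020100004020100804020100000000000000000000400010080402010000000000004000100000000400000000001a0000a04

theorem so_1_1_2_26 : sl_1_1_2_26 < 2 ^ 1024 ∧ SlotOK sl_1_1_2_26 :=
  ⟨by decide +kernel, slot_of (by decide +kernel) (by decide +kernel) (by decide +kernel) t1_1_1_2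
    t2_1_1_2_26 (by decide +kernel)⟩

def sl_1_1_3_16 : ℕ := nat_lit 0x6fb7dbedf6fb7dbedf6fb7dbedf6fb7dbedf6fb7dbedf6fb7dbedf6fb7dbedf6fb7dbedf6db6db6db6db6db6db6db6db000000006fb7dbedf6fb7dbedf6fb7dbedf6fb7dbedf6db6db6db6db00006fb7dbedf6fb7dbedf6db6db006fb7dbedf6db06fb7db1bec000100001d05

theorem so_1_1_3_16 : sl_1_1_3_16 < 2 ^ 1024 ∧ SlotOK sl_1_1_3_16 :=
  ⟨by decide +kernel, slot_of (by decide +kernel) (by decide +kernel) (by decide +kernel) t1_1_1_3
    (T2_of (by decide) (by decide) (by decide) (Or.inl (by decide)) (Or.inl (by decide)) (Or.inl (by decide)) : T2 1 1 3 16 tb_1_1_3) (by decide +kernel)⟩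

def sl_1_1_3_17 : ℕ := nat_lit 0x1bedf0000000df00001bedf0000000df00001bedf0000000df00001bedf0000000df01b00301b00301b00301b0030000000000001bedf0000000df00001bedf0000000df01b00301b003000000001bedf0000000df01b003000000000df00300000000000000110001d05

theorem so_1_1_3_17 : sl_1_1_3_17 < 2 ^ 1024 ∧ SlotOK sl_1_1_3_17 :=
  ⟨by decide +kernel, slot_of (by decide +kernel) (by decide +kernel) (by decide +kernel) t1_1_1_3
    t2_1_1_3_17 (by decide +kernel)⟩

def sl_1_1_3_31 : ℕ := nat_lit 0x1bedf0000000df00001bedf0000000df00001bedf0000000df00001bedf0000000df01b00301b00301b00301b0030000000000001bedf0000000df00001bedf0000000df01b00301b003000000001bedf0000000df01b003000000000df003000000000000001f0001d05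

theorem so_1_1_3_31 : sl_1_1_3_31 < 2 ^ 1024 ∧ SlotOK sl_1_1_3_31 :=
  ⟨by decide +kernel, slot_of (by decide +kernel) (by decide +kernel) (by decide +kernel) t1_1_1_3
    t2_1_1_3_31 (by decide +kernel)⟩

def sl_1_1_4_16 : ℕ := nat_lit 0x3ffff00003ffffff803ffffff803ffff00003ffffff803ffffff803ffffff803ffff000fc0ff8ff8fc0ff8ff8ff8fc33bb3bbb003ffff00003ffffff803ffffff803ffff000fc0ff8ff8fc33bb003ffff00003ffff000fc0fc33003ffff000fc30000000000000100004206

theorem so_1_1_4_16 : sl_1_1_4_16 < 2 ^ 1024 ∧ SlotOK sl_1_1_4_16 :=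
  ⟨by decide +kernel, slot_of (by decide +kernel) (by decide +kernel) (by decide +kernel) t1_1_1_4
    (T2_of (by decide) (by decide) (by decide) (Or.inl (by decide)) (Or.inl (by decide)) (Or.inl (by decide)) : T2 1 1 4 16 tb_1_1_4) (by decide +kernel)⟩

def sl_1_1_4_19 : ℕ := nat_lit 0x2db6d00002db6dff802db6dff802db6d00002db6dff802db6dff802db6dff802db6d000b40b78b78b40b78b78b78b400880888002db6d00002db6dff802db6dff802db6d000b40b78b78b40088002db6d00002db6d000b40b400002db6d000b400000000000000130004206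

theorem so_1_1_4_19 : sl_1_1_4_19 < 2 ^ 1024 ∧ SlotOK sl_1_1_4_19 :=
  ⟨by decide +kernel, slot_of (by decide +kernel) (by decide +kernel) (by decide +kernel) t1_1_1_4
    t2_1_1_4_19 (by decide +kernel)⟩

def sl_1_1_4_22 : ℕ := nat_lit 0x325000000325ff8000325ff8000325000000325ff8000325ff8000325ff800032500010013813810013813813810008808880000325000000325ff8000325ff80003250001001381381000880000325000000325000100100000003250001000000000000000160004206

theorem so_1_1_4_22 : sl_1_1_4_22 < 2 ^ 1024 ∧ SlotOK sl_1_1_4_22 :=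
  ⟨by decide +kernel, slot_of (by decide +kernel) (by decide +kernel) (by decide +kernel) t1_1_1_4
    t2_1_1_4_22 (by decide +kernel)⟩

def sl_1_1_4_31 : ℕ := nat_lit 0xff8000000ff8000000000000000ff8000000ff8000000ff800000000000003803800003803803800008808880000000000000000ff8000000ff800000000000003803800008800000000000000000000000000000000000000000000000000001f0004206

theorem so_1_1_4_31 : sl_1_1_4_31 < 2 ^ 1024 ∧ SlotOK sl_1_1_4_31 :=
  ⟨by decide +kernel, slot_of (by decide +kernel) (by decide +kernel) (by decide +kernel) t1_1_1_4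
    t2_1_1_4_31 (by decide +kernel)⟩

def sl_1_1_5_16 : ℕ := nat_lit 0x7ffffffff803fffffffffffffff803ffff007ffffff00003fffffffffffffff803ffff007ff8fffff8fc7fc0fffff8fc7bfb73fb7ffffff00003fffffffffffffff803ffff007fc0fffff8fc73fb7ffffff00003ffff007fc0fc73003ffff000fc30000000000000100007f07

theorem so_1_1_5_16 : sl_1_1_5_16 < 2 ^ 1024 ∧ SlotOK sl_1_1_5_16 :=
  ⟨by decide +kernel, slot_of (by decide +kernel) (by decide +kernel) (by decide +kernel) t1_1_1_5
    (T2_of (by decide) (by decide) (by decide) (Or.inl (by decide)) (Or.inl (by decide)) (Or.inl (by decide)) : T2 1 1 5 16 tb_1_1_5) (by decide +kernel)⟩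

def sl_1_1_5_18 : ℕ := nat_lit 0x40201008000201008040201008000201000040201000000201008040201008000201000000000000000000000000000000000000402010000002010080402010080002010000000000000000000040201000000201000000000000002010000000000000000000120007f07

theorem so_1_1_5_18 : sl_1_1_5_18 < 2 ^ 1024 ∧ SlotOK sl_1_1_5_18 :=
  ⟨by decide +kernel, slot_of (by decide +kernel) (by decide +kernel) (by decide +kernel) t1_1_1_5
    t2_1_1_5_18 (by decide +kernel)⟩

def sl_1_1_5_23 : ℕ := nat_lit 0x40201008000201008040201008000201000040201000000201008040201008000201000000000000000000000000000000000000402010000002010080402010080002010000000000000000000040201000000201000000000000002010000000000000000000170007f07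

theorem so_1_1_5_23 : sl_1_1_5_23 < 2 ^ 1024 ∧ SlotOK sl_1_1_5_23 :=
  ⟨by decide +kernel, slot_of (by decide +kernel) (by decide +kernel) (by decide +kernel) t1_1_1_5
    t2_1_1_5_23 (by decide +kernel)⟩

def sl_1_2_2_16 : ℕ := nat_lit 0x3ffff007ffffffff803fffffffffffff00003fffffffffffffff803fffffffffffff000fc7ff8ffffc0fffff8ffffc37bf3fbf003ffff007ffffffff803fffffffffffff000fc7ff8ffffc37bf003ffff007ffffff000fc7fc37003ffff000fc30000000000000100001105

theorem so_1_2_2_16 : sl_1_2_2_16 < 2 ^ 1024 ∧ SlotOK sl_1_2_2_16 :=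
  ⟨by decide +kernel, slot_of (by decide +kernel) (by decide +kernel) (by decide +kernel) t1_1_2_2
    (T2_of (by decide) (by decide) (by decide) (Or.inl (by decide)) (Or.inl (by decide)) (Or.inl (by decide)) : T2 1 2 2 16 tb_1_2_2) (by decide +kernel)⟩

def sl_1_2_2_19 : ℕ := nat_lit 0x2db6d007fedb6dff802db6dffffedb6d00002db6dffffedb6dff802db6dffffedb6d000b47b78b7fb40b7fb78b7fb4048c0c8c002db6d007fedb6dff802db6dffffedb6d000b47b78b7fb4048c002db6d007fedb6d000b47b404002db6d000b400000000000000130001105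

theorem so_1_2_2_19 : sl_1_2_2_19 < 2 ^ 1024 ∧ SlotOK sl_1_2_2_19 :=
  ⟨by decide +kernel, slot_of (by decide +kernel) (by decide +kernel) (by decide +kernel) t1_1_2_2
    t2_1_2_2_19 (by decide +kernel)⟩

def sl_1_2_2_23 : ℕ := nat_lit 0x2db6d007fedb6dff802db6dffffedb6d00002db6dffffedb6dff802db6dffffedb6d000b47b78b7fb40b7fb78b7fb4048c0c8c002db6d007fedb6dff802db6dffffedb6d000b47b78b7fb4048c002db6d007fedb6d000b47b404002db6d000b400000000000000170001105

theorem so_1_2_2_23 : sl_1_2_2_23 < 2 ^ 1024 ∧ SlotOK sl_1_2_2_23 :=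
  ⟨by decide +kernel, slot_of (by decide +kernel) (by decide +kernel) (by decide +kernel) t1_1_2_2
    t2_1_2_2_23 (by decide +kernel)⟩

def sl_1_2_2_26 : ℕ := nat_lit 0x24b25007fe4b25ff8024b25ffffe4b25000024b25ffffe4b25ff8024b25ffffe4b2500090793893f90093f93893f90048c0c8c0024b25007fe4b25ff8024b25ffffe4b2500090793893f90048c0024b25007fe4b2500090790040024b2500090000000000000001a0001105

theorem so_1_2_2_26 : sl_1_2_2_26 < 2 ^ 1024 ∧ SlotOK sl_1_2_2_26 :=
  ⟨by decide +kernel, slot_of (by decide +kernel) (by decide +kernel) (by decide +kernel) t1_1_2_2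
    t2_1_2_2_26 (by decide +kernel)⟩

def sl_1_2_2_28 : ℕ := nat_lit 0x201007fc0201ff8000201ffffc0201000000201ffffc0201ff8000201ffffc020100000703803f00003f03803f00048c0c8c0000201007fc0201ff8000201ffffc020100000703803f00048c0000201007fc02010000070004000020100000000000000000001c0001105

theorem so_1_2_2_28 : sl_1_2_2_28 < 2 ^ 1024 ∧ SlotOK sl_1_2_2_28 :=
  ⟨by decide +kernel, slot_of (by decide +kernel) (by decide +kernel) (by decide +kernel) t1_1_2_2
    t2_1_2_2_28 (by decide +kernel)⟩

def sl_1_2_2_33 : ℕ := nat_lit 0x201007fc0201ff8000201ffffc0201000000201ffffc0201ff8000201ffffc020100000703803f00003f03803f00048c0c8c0000201007fc0201ff8000201ffffc020100000703803f00048c0000201007fc0201000007000400002010000000000000000000210001105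

theorem so_1_2_2_33 : sl_1_2_2_33 < 2 ^ 1024 ∧ SlotOK sl_1_2_2_33 :=
  ⟨by decide +kernel, slot_of (by decide +kernel) (by decide +kernel) (by decide +kernel) t1_1_2_2
    t2_1_2_2_33 (by decide +kernel)⟩

def sl_1_2_2_38 : ℕ := nat_lit 0x201007fc0201ff8000201ffffc0201000000201ffffc0201ff8000201ffffc020100000703803f00003f03803f00048c0c8c0000201007fc0201ff8000201ffffc020100000703803f00048c0000201007fc0201000007000400002010000000000000000000260001105

theorem so_1_2_2_38 : sl_1_2_2_38 < 2 ^ 1024 ∧ SlotOK sl_1_2_2_38 :=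
  ⟨by decide +kernel, slot_of (by decide +kernel) (by decide +kernel) (by decide +kernel) t1_1_2_2
    t2_1_2_2_38 (by decide +kernel)⟩

def sl_1_2_2_41 : ℕ := nat_lit 0x7fc0000ff8000000ffffc0000000000000ffffc0000ff8000000ffffc000000000703803f00003f03803f00048c0c8c0000000007fc0000ff8000000ffffc000000000703803f00048c0000000007fc0000000007000400000000000000000000000000290001105

theorem so_1_2_2_41 : sl_1_2_2_41 < 2 ^ 1024 ∧ SlotOK sl_1_2_2_41 :=
  ⟨by decide +kernel, slot_of (by decide +kernel) (by decide +kernel) (by decide +kernel) t1_1_2_2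
    t2_1_2_2_41 (by decide +kernel)⟩

def sl_1_2_2_44 : ℕ := nat_lit 0x7fc0000ff8000000ffffc0000000000000ffffc0000ff8000000ffffc000000000703803f00003f03803f00048c0c8c0000000007fc0000ff8000000ffffc000000000703803f00048c0000000007fc00000000070004000000000000000000000000002c0001105

theorem so_1_2_2_44 : sl_1_2_2_44 < 2 ^ 1024 ∧ SlotOK sl_1_2_2_44 :=
  ⟨by decide +kernel, slot_of (by decide +kernel) (by decide +kernel) (by decide +kernel) t1_1_2_2
    t2_1_2_2_44 (by decide +kernel)⟩

def sl_1_2_2_47 : ℕ := nat_lit 0x7fc0000ff8000000ffffc0000000000000ffffc0000ff8000000ffffc000000000703803f00003f03803f00048c0c8c0000000007fc0000ff8000000ffffc000000000703803f00048c0000000007fc00000000070004000000000000000000000000002f0001105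

theorem so_1_2_2_47 : sl_1_2_2_47 < 2 ^ 1024 ∧ SlotOK sl_1_2_2_47 :=
  ⟨by decide +kernel, slot_of (by decide +kernel) (by decide +kernel) (by decide +kernel) t1_1_2_2
    t2_1_2_2_47 (by decide +kernel)⟩

def sl_1_2_3_16 : ℕ := nat_lit 0x7ffffffffffc01fffffffffffffffffffffffffffffffffc01ff007fffffffffffffff007fff1fffffffffff1c7ffffc7dfffd7f7ffffffffffc01ff007fffffffffffffff007fff1c7ffffc7d7f7ffffffffffc01ff007fff1c7d7fc01ff0071c57fc01c4000000100002406

theorem so_1_2_3_16 : sl_1_2_3_16 < 2 ^ 1024 ∧ SlotOK sl_1_2_3_16 :=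
  ⟨by decide +kernel, slot_of (by decide +kernel) (by decide +kernel) (by decide +kernel) t1_1_2_3
    (T2_of (by decide) (by decide) (by decide) (Or.inl (by decide)) (Or.inl (by decide)) (Or.inl (by decide)) : T2 1 2 3 16 tb_1_2_3) (by decide +kernel)⟩

def sl_1_2_3_23 : ℕ := nat_lit 0x127fe49ff9240049ff927fe49ff927fe49ff927fe49ff924004900127fe49ff927fe49001e79079e79e79e79041e79e428aaa82a127fe49ff924004900127fe49ff927fe49001e79041e79e4282a127fe49ff9240049001e79042812400490010401240040000000170002406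

theorem so_1_2_3_23 : sl_1_2_3_23 < 2 ^ 1024 ∧ SlotOK sl_1_2_3_23 :=
  ⟨by decide +kernel, slot_of (by decide +kernel) (by decide +kernel) (by decide +kernel) t1_1_2_3
    t2_1_2_3_23 (by decide +kernel)⟩

def sl_1_2_3_26 : ℕ := nat_lit 0x27fe09ff8240009ff827fe09ff827fe09ff827fe09ff824000900027fe09ff827fe09000e38038e38e38e38000e38e028aaa82a027fe09ff824000900027fe09ff827fe09000e38000e38e0282a027fe09ff8240009000e380028024000900000002400000000001a0002406

theorem so_1_2_3_26 : sl_1_2_3_26 < 2 ^ 1024 ∧ SlotOK sl_1_2_3_26 :=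
  ⟨by decide +kernel, slot_of (by decide +kernel) (by decide +kernel) (by decide +kernel) t1_1_2_3
    t2_1_2_3_26 (by decide +kernel)⟩

def sl_1_2_3_35 : ℕ := nat_lit 0x23fe08ff8200008ff823fe08ff823fe08ff823fe08ff820000800023fe08ff823fe08000e38038e38e38e38000e38e028aaa82a023fe08ff820000800023fe08ff823fe08000e38000e38e0282a023fe08ff8200008000e38002802000080000000200000000000230002406

theorem so_1_2_3_35 : sl_1_2_3_35 < 2 ^ 1024 ∧ SlotOK sl_1_2_3_35 :=
  ⟨by decide +kernel, slot_of (by decide +kernel) (by decide +kernel) (by decide +kernel) t1_1_2_3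
    t2_1_2_3_35 (by decide +kernel)⟩

def sl_1_2_3_47 : ℕ := nat_lit 0x3fe00ff8000000ff803fe00ff803fe00ff803fe00ff800000000003fe00ff803fe00000e38038e38e38e38000e38e028aaa82a003fe00ff800000000003fe00ff803fe00000e38000e38e0282a003fe00ff8000000000e380028000000000000000000000000002f0002406

theorem so_1_2_3_47 : sl_1_2_3_47 < 2 ^ 1024 ∧ SlotOK sl_1_2_3_47 :=
  ⟨by decide +kernel, slot_of (by decide +kernel) (by decide +kernel) (by decide +kernel) t1_1_2_3
    t2_1_2_3_47 (by decide +kernel)⟩

def sl_1_2_3_63 : ℕ := nat_lit 0x3fe00ff8000000ff803fe00ff803fe00ff803fe00ff800000000003fe00ff803fe00000e38038e38e38e38000e38e028aaa82a003fe00ff800000000003fe00ff803fe00000e38000e38e0282a003fe00ff8000000000e380028000000000000000000000000003f0002406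

theorem so_1_2_3_63 : sl_1_2_3_63 < 2 ^ 1024 ∧ SlotOK sl_1_2_3_63 :=
  ⟨by decide +kernel, slot_of (by decide +kernel) (by decide +kernel) (by decide +kernel) t1_1_2_3
    t2_1_2_3_63 (by decide +kernel)⟩

def sl_1_2_4_16 : ℕ := nat_lit 0x7fc01fffffffffff007fffffffffffffffffffc01fffffffffffffffffffffffffffff0071fffc7ffffff1fffffffffc5f7fdfff7fc01fffffffffff007fffffffffffffff0071fffc7ffffc5f7f7fc01fffffffffff0071fffc5f7fc01ff0071c57fc01c4000000100004907

theorem so_1_2_4_16 : sl_1_2_4_16 < 2 ^ 1024 ∧ SlotOK sl_1_2_4_16 :=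
  ⟨by decide +kernel, slot_of (by decide +kernel) (by decide +kernel) (by decide +kernel) t1_1_2_4
    (T2_of (by decide) (by decide) (by decide) (Or.inl (by decide)) (Or.inl (by decide)) (Or.inl (by decide)) : T2 1 2 4 16 tb_1_2_4) (by decide +kernel)⟩

def sl_1_2_4_19 : ℕ := nat_lit 0xff803fe0000003fe00ff803fe00ff8000000ff803fe00ff803fe00ff803fe00000038e00e38e38038e38e38e00a2a8aaa0000000ff803fe0000003fe00ff803fe00000038e00e38e00a2a0000000ff803fe00000038e00a00000000000000000000000000130004907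

theorem so_1_2_4_19 : sl_1_2_4_19 < 2 ^ 1024 ∧ SlotOK sl_1_2_4_19 :=
  ⟨by decide +kernel, slot_of (by decide +kernel) (by decide +kernel) (by decide +kernel) t1_1_2_4
    t2_1_2_4_19 (by decide +kernel)⟩

def sl_1_2_4_23 : ℕ := nat_lit 0xff803fe0000003fe00ff803fe00ff8000000ff803fe00ff803fe00ff803fe00000038e00e38e38038e38e38e00a2a8aaa0000000ff803fe0000003fe00ff803fe00000038e00e38e00a2a0000000ff803fe00000038e00a00000000000000000000000000170004907

theorem so_1_2_4_23 : sl_1_2_4_23 < 2 ^ 1024 ∧ SlotOK sl_1_2_4_23 :=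
  ⟨by decide +kernel, slot_of (by decide +kernel) (by decide +kernel) (by decide +kernel) t1_1_2_4
    t2_1_2_4_23 (by decide +kernel)⟩

def sl_1_2_4_26 : ℕ := nat_lit 0xff803fe0000003fe00ff803fe00ff8000000ff803fe00ff803fe00ff803fe00000038e00e38e38038e38e38e00a2a8aaa0000000ff803fe0000003fe00ff803fe00000038e00e38e00a2a0000000ff803fe00000038e00a000000000000000000000000001a0004907

theorem so_1_2_4_26 : sl_1_2_4_26 < 2 ^ 1024 ∧ SlotOK sl_1_2_4_26 :=
  ⟨by decide +kernel, slot_of (by decide +kernel) (by decide +kernel) (by decide +kernel) t1_1_2_4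
    t2_1_2_4_26 (by decide +kernel)⟩

def sl_1_2_4_31 : ℕ := nat_lit 0xff803fe0000003fe00ff803fe00ff8000000ff803fe00ff803fe00ff803fe00000038e00e38e38038e38e38e00a2a8aaa0000000ff803fe0000003fe00ff803fe00000038e00e38e00a2a0000000ff803fe00000038e00a000000000000000000000000001f0004907

theorem so_1_2_4_31 : sl_1_2_4_31 < 2 ^ 1024 ∧ SlotOK sl_1_2_4_31 :=
  ⟨by decide +kernel, slot_of (by decide +kernel) (by decide +kernel) (by decide +kernel) t1_1_2_4
    t2_1_2_4_31 (by decide +kernel)⟩

def sl_1_2_4_33 : ℕ := nat_lit 0x3fe00000000000ff8000000000000000ff803fe00000000000000000000e00038000038e0000002080a0000000000000000000003fe00000000000000000000e000000200000000000000000000000000000000000000000000000000000210004907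

theorem so_1_2_4_33 : sl_1_2_4_33 < 2 ^ 1024 ∧ SlotOK sl_1_2_4_33 :=
  ⟨by decide +kernel, slot_of (by decide +kernel) (by decide +kernel) (by decide +kernel) t1_1_2_4
    t2_1_2_4_33 (by decide +kernel)⟩

def sl_1_2_4_63 : ℕ := nat_lit 0x3fe00000000000ff8000000000000000ff803fe00000000000000000000e00038000038e0000002080a0000000000000000000003fe00000000000000000000e0000002000000000000000000000000000000000000000000000000000003f0004907

theorem so_1_2_4_63 : sl_1_2_4_63 < 2 ^ 1024 ∧ SlotOK sl_1_2_4_63 :=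
  ⟨by decide +kernel, slot_of (by decide +kernel) (by decide +kernel) (by decide +kernel) t1_1_2_4
    t2_1_2_4_63 (by decide +kernel)⟩

def sl_1_3_3_16 : ℕ := nat_lit 0x369b4da6d369b4da6d369b4da6d369b4da6d369b4da6d369b4da6d369b4da6d369b4da6d24924924924924924924924900000000369b4da6d369b4da6d369b4da6d369b4da6d2492492492490000369b4da6d369b4da6d24924900369b4da6d2490369b490da4000100003707

theorem so_1_3_3_16 : sl_1_3_3_16 < 2 ^ 1024 ∧ SlotOK sl_1_3_3_16 :=
  ⟨by decide +kernel, slot_of (by decide +kernel) (by decide +kernel) (by decide +kernel) t1_1_3_3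
    (T2_of (by decide) (by decide) (by decide) (Or.inl (by decide)) (Or.inl (by decide)) (Or.inl (by decide)) : T2 1 3 3 16 tb_1_3_3) (by decide +kernel)⟩

def sl_1_3_3_63 : ℕ := nat_lit 0x36800006d36800006d36800006d36800006d36800006d36800006d36800006d36800006d2012012012012012012012010000000036800006d36800006d36800006d36800006d201201201201000036800006d36800006d2012010036800006d201000000000000003f0003707

theorem so_1_3_3_63 : sl_1_3_3_63 < 2 ^ 1024 ∧ SlotOK sl_1_3_3_63 :=
  ⟨by decide +kernel, slot_of (by decide +kernel) (by decide +kernel) (by decide +kernel) t1_1_3_3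
    t2_1_3_3_63 (by decide +kernel)⟩

def sl_1_3_4_16 : ℕ := nat_lit 0x6f801bedf6f801bedf6f801bedf6f801bedf6f801bedf6f801bedf6f801bedf6f801bedf61b61b61b61b61b61b61b61b000000006f801bedf6f801bedf6f801bedf6f801bedf61b61b61b61b00006f801bedf6f801bedf61b61b006f801bedf61b06f80180000000100005c08

theorem so_1_3_4_16 : sl_1_3_4_16 < 2 ^ 1024 ∧ SlotOK sl_1_3_4_16 :=
  ⟨by decide +kernel, slot_of (by decide +kernel) (by decide +kernel) (by decide +kernel) t1_1_3_4
    (T2_of (by decide) (by decide) (by decide) (Or.inl (by decide)) (Or.inl (by decide)) (Or.inl (by decide)) : T2 1 3 4 16 tb_1_3_4) (by decide +kernel)⟩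

def sl_1_3_4_31 : ℕ := nat_lit 0x6f801bedf6f80000df6f801bedf6f80000df6f801bedf6f80000df6f801bedf6f80000df61b60361b60361b60361b603000000006f801bedf6f80000df6f801bedf6f80000df61b60361b60300006f801bedf6f80000df61b603006f80000df603000000000000001f0005c08

theorem so_1_3_4_31 : sl_1_3_4_31 < 2 ^ 1024 ∧ SlotOK sl_1_3_4_31 :=
  ⟨by decide +kernel, slot_of (by decide +kernel) (by decide +kernel) (by decide +kernel) t1_1_3_4
    t2_1_3_4_31 (by decide +kernel)⟩

def sl_1_3_4_37 : ℕ := nat_lit 0x1bedf0000000df00001bedf0000000df00001bedf0000000df00001bedf0000000df01b00301b00301b00301b0030000000000001bedf0000000df00001bedf0000000df01b00301b003000000001bedf0000000df01b003000000000df00300000000000000250005c08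

theorem so_1_3_4_37 : sl_1_3_4_37 < 2 ^ 1024 ∧ SlotOK sl_1_3_4_37 :=
  ⟨by decide +kernel, slot_of (by decide +kernel) (by decide +kernel) (by decide +kernel) t1_1_3_4
    t2_1_3_4_37 (by decide +kernel)⟩

def sl_1_3_4_63 : ℕ := nat_lit 0xdf0000000df0000000df0000000df0000000df0000000df0000000df0000000df003003003003003003003003000000000000000df0000000df0000000df0000000df00300300300300000000000df0000000df003003000000000df003000000000000003f0005c08

theorem so_1_3_4_63 : sl_1_3_4_63 < 2 ^ 1024 ∧ SlotOK sl_1_3_4_63 :=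
  ⟨by decide +kernel, slot_of (by decide +kernel) (by decide +kernel) (by decide +kernel) t1_1_3_4
    t2_1_3_4_63 (by decide +kernel)⟩

def sl_1_4_4_16 : ℕ := nat_lit 0x1ff0000001ffff80001ffff80001ff0000001ffff80001ffff80001ffff80001ff0001c01f81f81c01f81f81f81c1199199900001ff0000001ffff80001ffff80001ff0001c01f81f81c119900001ff0000001ff0001c01c1100001ff0001c10000000000000100008109

theorem so_1_4_4_16 : sl_1_4_4_16 < 2 ^ 1024 ∧ SlotOK sl_1_4_4_16 :=
  ⟨by decide +kernel, slot_of (by decide +kernel) (by decide +kernel) (by decide +kernel) t1_1_4_4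
    (T2_of (by decide) (by decide) (by decide) (Or.inl (by decide)) (Or.inl (by decide)) (Or.inl (by decide)) : T2 1 4 4 16 tb_1_4_4) (by decide +kernel)⟩

def sl_1_4_4_23 : ℕ := nat_lit 0x16d00000016dff800016dff800016d00000016dff800016dff800016dff800016d0001401781781401781781781400880888000016d00000016dff800016dff800016d000140178178140088000016d00000016d0001401400000016d0001400000000000000170008109

theorem so_1_4_4_23 : sl_1_4_4_23 < 2 ^ 1024 ∧ SlotOK sl_1_4_4_23 :=
  ⟨by decide +kernel, slot_of (by decide +kernel) (by decide +kernel) (by decide +kernel) t1_1_4_4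
    t2_1_4_4_23 (by decide +kernel)⟩

def sl_1_4_4_31 : ℕ := nat_lit 0x125000000125ff8000125ff8000125000000125ff8000125ff8000125ff800012500010013813810013813813810008808880000125000000125ff8000125ff800012500010013813810008800001250000001250001001000000012500010000000000000001f0008109

theorem so_1_4_4_31 : sl_1_4_4_31 < 2 ^ 1024 ∧ SlotOK sl_1_4_4_31 :=
  ⟨by decide +kernel, slot_of (by decide +kernel) (by decide +kernel) (by decide +kernel) t1_1_4_4
    t2_1_4_4_31 (by decide +kernel)⟩

def sl_1_4_4_35 : ℕ := nat_lit 0x920000000920000000000000000920000000920000000920000000000000020020000020020020000000000000000000000000009200000009200000000000000200200000000000000000000000000000000000000000000000000000000000230008109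

theorem so_1_4_4_35 : sl_1_4_4_35 < 2 ^ 1024 ∧ SlotOK sl_1_4_4_35 :=
  ⟨by decide +kernel, slot_of (by decide +kernel) (by decide +kernel) (by decide +kernel) t1_1_4_4
    t2_1_4_4_35 (by decide +kernel)⟩

def sl_1_4_5_16 : ℕ := nat_lit 0x1b7ffff801b7ffff801b7ffff801b7ff00001b7ff00001b7ffff801b7ffff801b7ff0007f87f87f87c07c07f87f87c19991199001b7ff00001b7ffff801b7ffff801b7ff0007c07f87f87c1199001b7ff00001b7ff0007c07c11001b7ff0007c1000000000000010000be0a

theorem so_1_4_5_16 : sl_1_4_5_16 < 2 ^ 1024 ∧ SlotOK sl_1_4_5_16 :=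
  ⟨by decide +kernel, slot_of (by decide +kernel) (by decide +kernel) (by decide +kernel) t1_1_4_5
    (T2_of (by decide) (by decide) (by decide) (Or.inl (by decide)) (Or.inl (by decide)) (Or.inl (by decide)) : T2 1 4 5 16 tb_1_4_5) (by decide +kernel)⟩

def sl_1_4_5_18 : ℕ := nat_lit 0x201ff8000201ff8000201ff8000201000000201000000201ff8000201ff800020100003803803800000003803800088800880000201000000201ff8000201ff8000201000000038038000088000020100000020100000000000000201000000000000000000012000be0a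

theorem so_1_4_5_18 : sl_1_4_5_18 < 2 ^ 1024 ∧ SlotOK sl_1_4_5_18 :=
  ⟨by decide +kernel, slot_of (by decide +kernel) (by decide +kernel) (by decide +kernel) t1_1_4_5
    t2_1_4_5_18 (by decide +kernel)⟩

def sl_1_4_5_23 : ℕ := nat_lit 0x201ff8000201ff8000201ff8000201000000201000000201ff8000201ff800020100003803803800000003803800088800880000201000000201ff8000201ff8000201000000038038000088000020100000020100000000000000201000000000000000000017000be0a

theorem so_1_4_5_23 : sl_1_4_5_23 < 2 ^ 1024 ∧ SlotOK sl_1_4_5_23 :=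
  ⟨by decide +kernel, slot_of (by decide +kernel) (by decide +kernel) (by decide +kernel) t1_1_4_5
    t2_1_4_5_23 (by decide +kernel)⟩

def sl_1_4_5_27 : ℕ := nat_lit 0x201ff8000201ff8000201ff8000201000000201000000201ff8000201ff800020100003803803800000003803800088800880000201000000201ff8000201ff800020100000003803800008800002010000002010000000000000020100000000000000000001b000be0a

theorem so_1_4_5_27 : sl_1_4_5_27 < 2 ^ 1024 ∧ SlotOK sl_1_4_5_27 :=
  ⟨by decide +kernel, slot_of (by decide +kernel) (by decide +kernel) (by decide +kernel) t1_1_4_5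
    t2_1_4_5_27 (by decide +kernel)⟩

def sl_1_4_5_31 : ℕ := nat_lit 0x201ff8000201ff8000201ff8000201000000201000000201ff8000201ff800020100003803803800000003803800088800880000201000000201ff8000201ff800020100000003803800008800002010000002010000000000000020100000000000000000001f000be0a

theorem so_1_4_5_31 : sl_1_4_5_31 < 2 ^ 1024 ∧ SlotOK sl_1_4_5_31 :=
  ⟨by decide +kernel, slot_of (by decide +kernel) (by decide +kernel) (by decide +kernel) t1_1_4_5
    t2_1_4_5_31 (by decide +kernel)⟩

def sl_2_2_3_128 : ℕ := nat_lit 0x6fb7dbedf6fb7c00df6fb7dbedf6fb7c00df6fb7dbedf6fb7c00df6fb7dbedf6fb7c00df6db6c36db6c36db6c36db6c3000000006fb7dbedf6fb7c00df6fb7dbedf6fb7c00df6db6c36db6c300006fb7dbedf6fb7c00df6db6c3006fb7c00df6c300037c30000000800002b07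

theorem so_2_2_3_128 : sl_2_2_3_128 < 2 ^ 1024 ∧ SlotOK sl_2_2_3_128 :=
  ⟨by decide +kernel, slot_of (by decide +kernel) (by decide +kernel) (by decide +kernel) t1_2_2_3
    (T2_of (by decide) (by decide) (by decide) (Or.inl (by decide)) (Or.inl (by decide)) (Or.inl (by decide)) : T2 2 2 3 128 tb_2_2_3) (by decide +kernel)⟩

def sl_2_2_3_142 : ℕ := nat_lit 0x1be0000000000000001bedf0000000df00001be0000000000000001bedf0000000df01800001b00301800001b0030000000000001be0000000000000001bedf0000000df01800001b003000000001be0000000000001800000000000000000000000000000008e0002b07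

theorem so_2_2_3_142 : sl_2_2_3_142 < 2 ^ 1024 ∧ SlotOK sl_2_2_3_142 :=
  ⟨by decide +kernel, slot_of (by decide +kernel) (by decide +kernel) (by decide +kernel) t1_2_2_3
    t2_2_2_3_142 (by decide +kernel)⟩

def sl_2_2_3_204 : ℕ := nat_lit 0xdf0000000df0000000000000000000000000df0000000df000000003003000000003003000000000000000000000000000000000df0000000df00000000300300000000000000000000000000000000000000000000000000000000cc0002b07

theorem so_2_2_3_204 : sl_2_2_3_204 < 2 ^ 1024 ∧ SlotOK sl_2_2_3_204 :=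
  ⟨by decide +kernel, slot_of (by decide +kernel) (by decide +kernel) (by decide +kernel) t1_2_2_3
    t2_2_2_3_204 (by decide +kernel)⟩

def sl_2_2_3_227 : ℕ := nat_lit 0xdf0000000df0000000000000000000000000000000000df000000003003000000000003000000000000000000000000000000000000000000df00000000000300000000000000000000000000000000000000000000000000000000e30002b07

theorem so_2_2_3_227 : sl_2_2_3_227 < 2 ^ 1024 ∧ SlotOK sl_2_2_3_227 :=
  ⟨by decide +kernel, slot_of (by decide +kernel) (by decide +kernel) (by decide +kernel) t1_2_2_3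
    t2_2_2_3_227 (by decide +kernel)⟩

def sl_2_2_5_128 : ℕ := nat_lit 0x7fc0201ff8000201ffffc0201ff8000201007fc0201000000201ffffc0201ff800020100703803f03800700003f0380048c840c87fc0201000000201ffffc0201ff800020100700003f0380040c87fc0201000000201007000004000002010000000000000000000800008d09

theorem so_2_2_5_128 : sl_2_2_5_128 < 2 ^ 1024 ∧ SlotOK sl_2_2_5_128 :=
  ⟨by decide +kernel, slot_of (by decide +kernel) (by decide +kernel) (by decide +kernel) t1_2_2_5
    (T2_of (by decide) (by decide) (by decide) (Or.inl (by decide)) (Or.inl (by decide)) (Or.inl (by decide)) : T2 2 2 5 128 tb_2_2_5) (by decide +kernel)⟩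

def sl_2_2_5_139 : ℕ := nat_lit 0x36c00006d80000006db6c00006d80000000036c00000000000006db6c00006d800000000301801b01800300001b018000000000036c00000000000006db6c00006d800000000300001b01800000036c00000000000000030000000000000000000000000000000008b0008d09

theorem so_2_2_5_139 : sl_2_2_5_139 < 2 ^ 1024 ∧ SlotOK sl_2_2_5_139 :=
  ⟨by decide +kernel, slot_of (by decide +kernel) (by decide +kernel) (by decide +kernel) t1_2_2_5
    t2_2_2_5_139 (by decide +kernel)⟩

def sl_2_2_5_177 : ℕ := nat_lit 0x40000008000000008040000008000000000040000000000000008040000008000000000000000000000000000000000000000000400000000000000080400000080000000000000000000000000040000000000000000000000000000000000000000000000000b10008d09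

theorem so_2_2_5_177 : sl_2_2_5_177 < 2 ^ 1024 ∧ SlotOK sl_2_2_5_177 :=
  ⟨by decide +kernel, slot_of (by decide +kernel) (by decide +kernel) (by decide +kernel) t1_2_2_5
    t2_2_2_5_177 (by decide +kernel)⟩

def sl_2_2_9_128 : ℕ := nat_lit 0x2010024c0201498000201dba4c0201000000201c924c0201db800020149a4c0201000002010032000012030012000000000000002010024c020149800020149a4c020100000201001200000000002010024c020100000200000000201000000000000000000080002e90d

theorem so_2_2_9_128 : sl_2_2_9_128 < 2 ^ 1024 ∧ SlotOK sl_2_2_9_128 :=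
  ⟨by decide +kernel, slot_of (by decide +kernel) (by decide +kernel) (by decide +kernel) t1_2_2_9
    (T2_of (by decide) (by decide) (by decide) (Or.inl (by decide)) (Or.inl (by decide)) (Or.inl (by decide)) : T2 2 2 9 128 tb_2_2_9) (by decide +kernel)⟩

def sl_2_2_9_170 : ℕ := nat_lit 0x24c000049800000049a4c00000000000004924c000049800000049a4c0000000002010012000012010012000000000000000000024c000049800000049a4c000000000201001200000000000000024c0000000002000000000000000000000000000000aa002e90d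

theorem so_2_2_9_170 : sl_2_2_9_170 < 2 ^ 1024 ∧ SlotOK sl_2_2_9_170 :=
  ⟨by decide +kernel, slot_of (by decide +kernel) (by decide +kernel) (by decide +kernel) t1_2_2_9
    t2_2_2_9_170 (by decide +kernel)⟩

def sl_2_2_9_191 : ℕ := nat_lit 0x40000008000000008040000000000000000040000008000000008040000000000000000000000000000000000000000000000000400000080000000080400000000000000000000000000000000040000000000000000000000000000000000000000bf002e90d

theorem so_2_2_9_191 : sl_2_2_9_191 < 2 ^ 1024 ∧ SlotOK sl_2_2_9_191 :=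
  ⟨by decide +kernel, slot_of (by decide +kernel) (by decide +kernel) (by decide +kernel) t1_2_2_9
    t2_2_2_9_191 (by decide +kernel)⟩

def sl_2_2_15_128 : ℕ := nat_lit 0xdb0000000db0000000000000000000000000db0000000db000000003003000000003003000000000000000000000000000000000db0000000db000000003003000000000000000000000000000000000000000000000000000000008000d3f13

theorem so_2_2_15_128 : sl_2_2_15_128 < 2 ^ 1024 ∧ SlotOK sl_2_2_15_128 :=
  ⟨by decide +kernel, slot_of (by decide +kernel) (by decide +kernel) (by decide +kernel) t1_2_2_15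
    (T2_of (by decide) (by decide) (by decide) (Or.inl (by decide)) (Or.inl (by decide)) (Or.inl (by decide)) : T2 2 2 15 128 tb_2_2_15) (by decide +kernel)⟩

def sl_2_2_15_166 : ℕ := nat_lit 0xdb0000000000000000000000000000030000000000000000000000000000000000000000000000000000000000000000000000000000000000000000000000000000000000000000000a600d3f13

theorem so_2_2_15_166 : sl_2_2_15_166 < 2 ^ 1024 ∧ SlotOK sl_2_2_15_166 :=
  ⟨by decide +kernel, slot_of (by decide +kernel) (by decide +kernel) (by decide +kernel) t1_2_2_15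
    t2_2_2_15_166 (by decide +kernel)⟩

def sl_2_3_3_128 : ℕ := nat_lit 0x5b2d96cb65b2d96cb65b2d96cb65b2d96cb65b2d96cb65b2d96cb65b2d96cb65b2d96cb6492492492492492492492492000000005b2d96cb65b2d96cb65b2d96cb65b2d96cb649249249249200005b2d96cb65b2d96cb6492492005b2d96cb649205b2d9216c8000800003e08

theorem so_2_3_3_128 : sl_2_3_3_128 < 2 ^ 1024 ∧ SlotOK sl_2_3_3_128 :=
  ⟨by decide +kernel, slot_of (by decide +kernel) (by decide +kernel) (by decide +kernel) t1_2_3_3
    (T2_of (by decide) (by decide) (by decide) (Or.inl (by decide)) (Or.inl (by decide)) (Or.inl (by decide)) : T2 2 3 3 128 tb_2_3_3) (by decide +kernel)⟩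

def sl_2_3_3_213 : ℕ := nat_lit 0x2d800000000000b6002d800000000000b6002d800000000000b6002d800000000000b608000208000208000208000200000000002d800000000000b6002d800000000000b60800020800020000002d800000000000b60800020000000000000000000000000000d50003e08

theorem so_2_3_3_213 : sl_2_3_3_213 < 2 ^ 1024 ∧ SlotOK sl_2_3_3_213 :=
  ⟨by decide +kernel, slot_of (by decide +kernel) (by decide +kernel) (by decide +kernel) t1_2_3_3
    t2_2_3_3_213 (by decide +kernel)⟩

def sl_2_3_3_340 : ℕ := nat_lit 0x2d800000000000b60000000000000000b6002d800000000000b60000000000000000b608000200000208000200000200000000002d800000000000b60000000000000000b608000200000200000000000000000000b60000020000000000000000000000000001540003e08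

theorem so_2_3_3_340 : sl_2_3_3_340 < 2 ^ 1024 ∧ SlotOK sl_2_3_3_340 :=
  ⟨by decide +kernel, slot_of (by decide +kernel) (by decide +kernel) (by decide +kernel) t1_2_3_3
    t2_2_3_3_340 (by decide +kernel)⟩

def sl_2_3_4_128 : ℕ := nat_lit 0x127fe49ff9240049ff927fe49ff927fe49ff927fe49ff924004900127fe49ff927fe49001e79079e79e79e79041e79e428aaa82a127fe49ff924004900127fe49ff927fe49001e79041e79e4282a127fe49ff9240049001e79042812400490010401240040000000800006309

theorem so_2_3_4_128 : sl_2_3_4_128 < 2 ^ 1024 ∧ SlotOK sl_2_3_4_128 :=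
  ⟨by decide +kernel, slot_of (by decide +kernel) (by decide +kernel) (by decide +kernel) t1_2_3_4
    (T2_of (by decide) (by decide) (by decide) (Or.inl (by decide)) (Or.inl (by decide)) (Or.inl (by decide)) : T2 2 3 4 128 tb_2_3_4) (by decide +kernel)⟩

def sl_2_3_4_191 : ℕ := nat_lit 0x1249249249240049249249249249249249249249249249240049001249249249249249001249049249249249041249240000000012492492492400490012492492492492490012490412492400001249249249240049001249040012400490010401240040000000bf0006309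

theorem so_2_3_4_191 : sl_2_3_4_191 < 2 ^ 1024 ∧ SlotOK sl_2_3_4_191 :=
  ⟨by decide +kernel, slot_of (by decide +kernel) (by decide +kernel) (by decide +kernel) t1_2_3_4
    t2_2_3_4_191 (by decide +kernel)⟩

def sl_2_3_4_206 : ℕ := nat_lit 0x9200248000000248009200248009200248009200248000000000009200248009200000208008208208208000208200000000000092002480000000000092002480092000002080002082000000009200248000000000208000000000000000000000000000000ce0006309

theorem so_2_3_4_206 : sl_2_3_4_206 < 2 ^ 1024 ∧ SlotOK sl_2_3_4_206 :=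
  ⟨by decide +kernel, slot_of (by decide +kernel) (by decide +kernel) (by decide +kernel) t1_2_3_4
    t2_2_3_4_206 (by decide +kernel)⟩

def sl_2_3_4_250 : ℕ := nat_lit 0x9200248000000248009200248009200248009200248000000000009200248009200000208008208208208000208200000000000092002480000000000092002480092000002080002082000000009200248000000000208000000000000000000000000000000fa0006309

theorem so_2_3_4_250 : sl_2_3_4_250 < 2 ^ 1024 ∧ SlotOK sl_2_3_4_250 :=
  ⟨by decide +kernel, slot_of (by decide +kernel) (by decide +kernel) (by decide +kernel) t1_2_3_4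
    t2_2_3_4_250 (by decide +kernel)⟩

def sl_2_3_4_352 : ℕ := nat_lit 0x9200248000000248009200248009200248009200248000000000009200248009200000208008208208208000208200000000000092002480000000000092002480092000002080002082000000009200248000000000208000000000000000000000000000001600006309

theorem so_2_3_4_352 : sl_2_3_4_352 < 2 ^ 1024 ∧ SlotOK sl_2_3_4_352 :=
  ⟨by decide +kernel, slot_of (by decide +kernel) (by decide +kernel) (by decide +kernel) t1_2_3_4
    t2_2_3_4_352 (by decide +kernel)⟩

def sl_2_3_4_383 : ℕ := nat_lit 0x92002480000002480092002480092002480092002480000000000092002480092000002080082082082080002082000000000000920024800000000000920024800920000020800020820000000092002480000000002080000000000000000000000000000017f0006309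

theorem so_2_3_4_383 : sl_2_3_4_383 < 2 ^ 1024 ∧ SlotOK sl_2_3_4_383 :=
  ⟨by decide +kernel, slot_of (by decide +kernel) (by decide +kernel) (by decide +kernel) t1_2_3_4
    t2_2_3_4_383 (by decide +kernel)⟩

def sl_2_3_5_128 : ℕ := nat_lit 0xdf0000000000000000000000000000000000df000000000003000000000003000000000000000000000000000000000000000000df0000000000030000000000000000000000000000000000000000000000000000000080000a00a

theorem so_2_3_5_128 : sl_2_3_5_128 < 2 ^ 1024 ∧ SlotOK sl_2_3_5_128 :=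
  ⟨by decide +kernel, slot_of (by decide +kernel) (by decide +kernel) (by decide +kernel) t1_2_3_5
    (T2_of (by decide) (by decide) (by decide) (Or.inl (by decide)) (Or.inl (by decide)) (Or.inl (by decide)) : T2 2 3 5 128 tb_2_3_5) (by decide +kernel)⟩

def sl_2_3_6_128 : ℕ := nat_lit 0x2db6d005b6db6db6802db6db6db6db6d00002db6db6db6db6db6802db6db6db6db6d000b45b68b6db40b6db68b6db400000000002db6d005b6db6db6802db6db6db6db6d000b45b68b6db40000002db6d005b6db6d000b45b400002db6d000b40000000000000080000fb0b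

theorem so_2_3_6_128 : sl_2_3_6_128 < 2 ^ 1024 ∧ SlotOK sl_2_3_6_128 :=
  ⟨by decide +kernel, slot_of (by decide +kernel) (by decide +kernel) (by decide +kernel) t1_2_3_6
    (T2_of (by decide) (by decide) (by decide) (Or.inl (by decide)) (Or.inl (by decide)) (Or.inl (by decide)) : T2 2 3 6 128 tb_2_3_6) (by decide +kernel)⟩

def sl_2_3_6_255 : ℕ := nat_lit 0x201005b40201b68000201b6db40201000000201b6db40201b68000201b6db4020100000502802d00002d02802d00000000000000201005b40201b68000201b6db4020100000502802d0000000000201005b40201000005000000002010000000000000000000ff000fb0b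

theorem so_2_3_6_255 : sl_2_3_6_255 < 2 ^ 1024 ∧ SlotOK sl_2_3_6_255 :=
  ⟨by decide +kernel, slot_of (by decide +kernel) (by decide +kernel) (by decide +kernel) t1_2_3_6
    t2_2_3_6_255 (by decide +kernel)⟩

def sl_2_3_6_431 : ℕ := nat_lit 0x5b40000b68000000b6db40000000000000b6db40000b68000000b6db4000000000502802d00002d02802d00000000000000000005b40000b68000000b6db4000000000502802d0000000000000005b40000000005000000000000000000000000000001af000fb0b

theorem so_2_3_6_431 : sl_2_3_6_431 < 2 ^ 1024 ∧ SlotOK sl_2_3_6_431 :=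
  ⟨by decide +kernel, slot_of (by decide +kernel) (by decide +kernel) (by decide +kernel) t1_2_3_6
    t2_2_3_6_431 (by decide +kernel)⟩

def sl_2_3_6_511 : ℕ := nat_lit 0x40000008000000008040000000000000008040000008000000008040000000000000000000000000000000000000000000000000400000080000000080400000000000000000000000000000000040000000000000000000000000000000000000001ff000fb0b

theorem so_2_3_6_511 : sl_2_3_6_511 < 2 ^ 1024 ∧ SlotOK sl_2_3_6_511 :=
  ⟨by decide +kernel, slot_of (by decide +kernel) (by decide +kernel) (by decide +kernel) t1_2_3_6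
    t2_2_3_6_511 (by decide +kernel)⟩

def sl_2_3_7_128 : ℕ := nat_lit 0x40201008040201000040001008040201000040201008040201000040001008040201000000000000000000000000000000000000402010080402010000400010080402010000000000000000000040001008040201000000000000400010000000040000000000800017a0c

theorem so_2_3_7_128 : sl_2_3_7_128 < 2 ^ 1024 ∧ SlotOK sl_2_3_7_128 :=
  ⟨by decide +kernel, slot_of (by decide +kernel) (by decide +kernel) (by decide +kernel) t1_2_3_7
    (T2_of (by decide) (by decide) (by decide) (Or.inl (by decide)) (Or.inl (by decide)) (Or.inl (by decide)) : T2 2 3 7 128 tb_2_3_7) (by decide +kernel)⟩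

def sl_2_3_7_164 : ℕ := nat_lit 0x200008000200000000000008000200000000200008000200000000000008000200000000000000000000000000000000000000002000080002000000000000080002000000000000000000000000000008000200000000000000000000000000000000000000a40017a0c

theorem so_2_3_7_164 : sl_2_3_7_164 < 2 ^ 1024 ∧ SlotOK sl_2_3_7_164 :=
  ⟨by decide +kernel, slot_of (by decide +kernel) (by decide +kernel) (by decide +kernel) t1_2_3_7
    t2_2_3_7_164 (by decide +kernel)⟩

def sl_2_3_8_128 : ℕ := nat_lit 0x37dbedf6fb7c00df0037dbe006fb7c00df0037dbedf6fb7c00df0037dbe006fb7c00df0db6c30d86c30db6c30d86c3000000000037dbedf6fb7c00df0037dbe006fb7c00df0db6c30d86c300000037dbe006fb7c00df0d86c3000037c00000c00000000000000080002230d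

theorem so_2_3_8_128 : sl_2_3_8_128 < 2 ^ 1024 ∧ SlotOK sl_2_3_8_128 :=
  ⟨by decide +kernel, slot_of (by decide +kernel) (by decide +kernel) (by decide +kernel) t1_2_3_8
    (T2_of (by decide) (by decide) (by decide) (Or.inl (by decide)) (Or.inl (by decide)) (Or.inl (by decide)) : T2 2 3 8 128 tb_2_3_8) (by decide +kernel)⟩

def sl_2_3_8_149 : ℕ := nat_lit 0x1bedf6f80000df00001be006f80000df00001bedf6f80000df00001be006f80000df01b60301860301b6030186030000000000001bedf6f80000df00001be006f80000df01b603018603000000001be006f80000df018603000000000000000000000000000095002230d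

theorem so_2_3_8_149 : sl_2_3_8_149 < 2 ^ 1024 ∧ SlotOK sl_2_3_8_149 :=
  ⟨by decide +kernel, slot_of (by decide +kernel) (by decide +kernel) (by decide +kernel) t1_2_3_8
    t2_2_3_8_149 (by decide +kernel)⟩

def sl_2_3_8_179 : ℕ := nat_lit 0xdf6f80000df0000000006f80000df0000000df6f80000df0000000006f80000df003603000603003603000603000000000000000df6f80000df0000000006f80000df00360300060300000000000006f80000df0006030000000000000000000000000000b3002230d

theorem so_2_3_8_179 : sl_2_3_8_179 < 2 ^ 1024 ∧ SlotOK sl_2_3_8_179 :=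
  ⟨by decide +kernel, slot_of (by decide +kernel) (by decide +kernel) (by decide +kernel) t1_2_3_8
    t2_2_3_8_179 (by decide +kernel)⟩

def sl_2_3_8_255 : ℕ := nat_lit 0xdf6f80000df0000000006f80000df0000000df6f80000df0000000006f80000df003603000603003603000603000000000000000df6f80000df0000000006f80000df00360300060300000000000006f80000df0006030000000000000000000000000000ff002230d

theorem so_2_3_8_255 : sl_2_3_8_255 < 2 ^ 1024 ∧ SlotOK sl_2_3_8_255 :=
  ⟨by decide +kernel, slot_of (by decide +kernel) (by decide +kernel) (by decide +kernel) t1_2_3_8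
    t2_2_3_8_255 (by decide +kernel)⟩

def sl_2_3_9_128 : ℕ := nat_lit 0x496492592494012592496492592496492592496492592494012500496492592496492500492412492492492410492490000000004964925924940125004964925924964925004924104924900000496492592494012500492410004940125004100494010000000080002fc0e

theorem so_2_3_9_128 : sl_2_3_9_128 < 2 ^ 1024 ∧ SlotOK sl_2_3_9_128 :=
  ⟨by decide +kernel, slot_of (by decide +kernel) (by decide +kernel) (by decide +kernel) t1_2_3_9
    (T2_of (by decide) (by decide) (by decide) (Or.inl (by decide)) (Or.inl (by decide)) (Or.inl (by decide)) : T2 2 3 9 128 tb_2_3_9) (by decide +kernel)⟩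

def sl_2_3_12_128 : ℕ := nat_lit 0x5b0016c005b2496c005b0016c005b2496c005b0016c005b2496c005b0016c005b2496c00410490410490410490410490000000005b0016c005b2496c005b0016c005b2496c0041049041049000005b0016c005b2496c00410490005b0016c0041005b0010000000080006e311

theorem so_2_3_12_128 : sl_2_3_12_128 < 2 ^ 1024 ∧ SlotOK sl_2_3_12_128 :=
  ⟨by decide +kernel, slot_of (by decide +kernel) (by decide +kernel) (by decide +kernel) t1_2_3_12
    (T2_of (by decide) (by decide) (by decide) (Or.inl (by decide)) (Or.inl (by decide)) (Or.inl (by decide)) : T2 2 3 12 128 tb_2_3_12) (by decide +kernel)⟩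

def sl_2_3_16_128 : ℕ := nat_lit 0x3fe00000000000ff800000000003fe00ff803fe0000000000000000000000003fe00000e00038000e38e00000000e02082a002003fe0000000000000000000000003fe00000e00000000e020020000000000000000000000000000000000000000000000000000800102315

theorem so_2_3_16_128 : sl_2_3_16_128 < 2 ^ 1024 ∧ SlotOK sl_2_3_16_128 :=
  ⟨by decide +kernel, slot_of (by decide +kernel) (by decide +kernel) (by decide +kernel) t1_2_3_16
    (T2_of (by decide) (by decide) (by decide) (Or.inl (by decide)) (Or.inl (by decide)) (Or.inl (by decide)) : T2 2 3 16 128 tb_2_3_16) (by decide +kernel)⟩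

def sl_2_3_16_191 : ℕ := nat_lit 0x9200000000000248000000000009200248009200000000000000000000000009200000200008000208200000000200000000000092000000000000000000000000092000002000000002000000000000000000000000000000000000000000000000000000000bf0102315

theorem so_2_3_16_191 : sl_2_3_16_191 < 2 ^ 1024 ∧ SlotOK sl_2_3_16_191 :=
  ⟨by decide +kernel, slot_of (by decide +kernel) (by decide +kernel) (by decide +kernel) t1_2_3_16
    t2_2_3_16_191 (by decide +kernel)⟩

def sl_2_3_16_383 : ℕ := nat_lit 0x92000000000002480000000000000002480092000000000000000000000000000000002000080000082000000000000000000000920000000000000000000000000000000020000000000000000000000000000000000000000000000000000000000000000017f0102315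

theorem so_2_3_16_383 : sl_2_3_16_383 < 2 ^ 1024 ∧ SlotOK sl_2_3_16_383 :=
  ⟨by decide +kernel, slot_of (by decide +kernel) (by decide +kernel) (by decide +kernel) t1_2_3_16
    t2_2_3_16_383 (by decide +kernel)⟩

def sl_2_4_9_128 : ℕ := nat_lit 0x4000124804920100007fe01248049201ff8040001248049201ff807fe01248049201000008200e08238008238e0820002080a0004000124804920100007fe01248049201000008200e08200020004000124804920100000820000040001000000004000000000080003210f

theorem so_2_4_9_128 : sl_2_4_9_128 < 2 ^ 1024 ∧ SlotOK sl_2_4_9_128 :=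
  ⟨by decide +kernel, slot_of (by decide +kernel) (by decide +kernel) (by decide +kernel) t1_2_4_9
    (T2_of (by decide) (by decide) (by decide) (Or.inl (by decide)) (Or.inl (by decide)) (Or.inl (by decide)) : T2 2 4 9 128 tb_2_4_9) (by decide +kernel)⟩

def sl_2_4_9_191 : ℕ := nat_lit 0x40001248049201000049201248049201248040001248049201248049201248049201000008200208208008208208200000000000400012480492010000492012480492010000082002082000000040001248049201000008200000400010000000040000000000bf003210f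

theorem so_2_4_9_191 : sl_2_4_9_191 < 2 ^ 1024 ∧ SlotOK sl_2_4_9_191 :=
  ⟨by decide +kernel, slot_of (by decide +kernel) (by decide +kernel) (by decide +kernel) t1_2_4_9
    t2_2_4_9_191 (by decide +kernel)⟩

def ch_0_0 : List ℕ := [sl_1_1_1_16, sl_1_1_1_19, sl_1_1_2_16, sl_1_1_2_17, sl_1_1_2_20, sl_1_1_2_23, sl_1_1_2_26, sl_1_1_3_16, sl_1_1_3_17, sl_1_1_3_31, sl_1_1_4_16, sl_1_1_4_19]

theorem ch_0_0_ok : ∀ s ∈ ch_0_0, s < 2 ^ 1024 ∧ SlotOK s :=
  List.forall_mem_cons.2 ⟨so_1_1_1_16, List.forall_mem_cons.2 ⟨so_1_1_1_19, List.forall_mem_cons.2 ⟨so_1_1_2_16, List.forall_mem_cons.2 ⟨so_1_1_2_17, List.forall_mem_cons.2 ⟨so_1_1_2_20, List.forall_mem_cons.2 ⟨so_1_1_2_23, List.forall_mem_cons.2 ⟨so_1_1_2_26, List.forall_mem_cons.2 ⟨so_1_1_3_16, List.forall_mem_cons.2 ⟨so_1_1_3_17, List.forall_mem_cons.2 ⟨so_1_1_3_31, List.forall_mem_cons.2 ⟨so_1_1_4_16, List.forall_mem_cons.2 ⟨so_1_1_4_19, List.forall_mem_nil _⟩⟩⟩⟩⟩⟩⟩⟩⟩⟩⟩⟩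

def ch_0_1 : List ℕ := [sl_1_1_4_22, sl_1_1_4_31, sl_1_1_5_16, sl_1_1_5_18, sl_1_1_5_23, sl_1_2_2_16, sl_1_2_2_19, sl_1_2_2_23, sl_1_2_2_26, sl_1_2_2_28, sl_1_2_2_33, sl_1_2_2_38]

theorem ch_0_1_ok : ∀ s ∈ ch_0_1, s < 2 ^ 1024 ∧ SlotOK s :=
  List.forall_mem_cons.2 ⟨so_1_1_4_22, List.forall_mem_cons.2 ⟨so_1_1_4_31, List.forall_mem_cons.2 ⟨so_1_1_5_16, List.forall_mem_cons.2 ⟨so_1_1_5_18, List.forall_mem_cons.2 ⟨so_1_1_5_23, List.forall_mem_cons.2 ⟨so_1_2_2_16, List.forall_mem_cons.2 ⟨so_1_2_2_19, List.forall_mem_cons.2 ⟨so_1_2_2_23, List.forall_mem_cons.2 ⟨so_1_2_2_26, List.forall_mem_cons.2 ⟨so_1_2_2_28, List.forall_mem_cons.2 ⟨so_1_2_2_33, List.forall_mem_cons.2 ⟨so_1_2_2_38, List.forall_mem_nil _⟩⟩⟩⟩⟩⟩⟩⟩⟩⟩⟩⟩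

def ch_0_2 : List ℕ := [sl_1_2_2_41, sl_1_2_2_44, sl_1_2_2_47, sl_1_2_3_16, sl_1_2_3_23, sl_1_2_3_26, sl_1_2_3_35, sl_1_2_3_47, sl_1_2_3_63, sl_1_2_4_16, sl_1_2_4_19, sl_1_2_4_23]

theorem ch_0_2_ok : ∀ s ∈ ch_0_2, s < 2 ^ 1024 ∧ SlotOK s :=
  List.forall_mem_cons.2 ⟨so_1_2_2_41, List.forall_mem_cons.2 ⟨so_1_2_2_44, List.forall_mem_cons.2 ⟨so_1_2_2_47, List.forall_mem_cons.2 ⟨so_1_2_3_16, List.forall_mem_cons.2 ⟨so_1_2_3_23, List.forall_mem_cons.2 ⟨so_1_2_3_26, List.forall_mem_cons.2 ⟨so_1_2_3_35, List.forall_mem_cons.2 ⟨so_1_2_3_47, List.forall_mem_cons.2 ⟨so_1_2_3_63, List.forall_mem_cons.2 ⟨so_1_2_4_16, List.forall_mem_cons.2 ⟨so_1_2_4_19, List.forall_mem_cons.2 ⟨so_1_2_4_23, List.forall_mem_nil _⟩⟩⟩⟩⟩⟩⟩⟩⟩⟩⟩⟩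

def ch_0_3 : List ℕ := [sl_1_2_4_26, sl_1_2_4_31, sl_1_2_4_33, sl_1_2_4_63, sl_1_3_3_16, sl_1_3_3_63, sl_1_3_4_16, sl_1_3_4_31, sl_1_3_4_37, sl_1_3_4_63, sl_1_4_4_16, sl_1_4_4_23]

theorem ch_0_3_ok : ∀ s ∈ ch_0_3, s < 2 ^ 1024 ∧ SlotOK s :=
  List.forall_mem_cons.2 ⟨so_1_2_4_26, List.forall_mem_cons.2 ⟨so_1_2_4_31, List.forall_mem_cons.2 ⟨so_1_2_4_33, List.forall_mem_cons.2 ⟨so_1_2_4_63, List.forall_mem_cons.2 ⟨so_1_3_3_16, List.forall_mem_cons.2 ⟨so_1_3_3_63, List.forall_mem_cons.2 ⟨so_1_3_4_16, List.forall_mem_cons.2 ⟨so_1_3_4_31, List.forall_mem_cons.2 ⟨so_1_3_4_37, List.forall_mem_cons.2 ⟨so_1_3_4_63, List.forall_mem_cons.2 ⟨so_1_4_4_16, List.forall_mem_cons.2 ⟨so_1_4_4_23, List.forall_mem_nil _⟩⟩⟩⟩⟩⟩⟩⟩⟩⟩⟩⟩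

def ch_0_4 : List ℕ := [sl_1_4_4_31, sl_1_4_4_35, sl_1_4_5_16, sl_1_4_5_18, sl_1_4_5_23, sl_1_4_5_27, sl_1_4_5_31, sl_2_2_3_128, sl_2_2_3_142, sl_2_2_3_204, sl_2_2_3_227, sl_2_2_5_128]

theorem ch_0_4_ok : ∀ s ∈ ch_0_4, s < 2 ^ 1024 ∧ SlotOK s :=
  List.forall_mem_cons.2 ⟨so_1_4_4_31, List.forall_mem_cons.2 ⟨so_1_4_4_35, List.forall_mem_cons.2 ⟨so_1_4_5_16, List.forall_mem_cons.2 ⟨so_1_4_5_18, List.forall_mem_cons.2 ⟨so_1_4_5_23, List.forall_mem_cons.2 ⟨so_1_4_5_27, List.forall_mem_cons.2 ⟨so_1_4_5_31, List.forall_mem_cons.2 ⟨so_2_2_3_128, List.forall_mem_cons.2 ⟨so_2_2_3_142, List.forall_mem_cons.2 ⟨so_2_2_3_204, List.forall_mem_cons.2 ⟨so_2_2_3_227, List.forall_mem_cons.2 ⟨so_2_2_5_128, List.forall_mem_nil _⟩⟩⟩⟩⟩⟩⟩⟩⟩⟩⟩⟩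

def ch_0_5 : List ℕ := [sl_2_2_5_139, sl_2_2_5_177, sl_2_2_9_128, sl_2_2_9_170, sl_2_2_9_191, sl_2_2_15_128, sl_2_2_15_166, sl_2_3_3_128, sl_2_3_3_213, sl_2_3_3_340, sl_2_3_4_128, sl_2_3_4_191]

theorem ch_0_5_ok : ∀ s ∈ ch_0_5, s < 2 ^ 1024 ∧ SlotOK s :=
  List.forall_mem_cons.2 ⟨so_2_2_5_139, List.forall_mem_cons.2 ⟨so_2_2_5_177, List.forall_mem_cons.2 ⟨so_2_2_9_128, List.forall_mem_cons.2 ⟨so_2_2_9_170, List.forall_mem_cons.2 ⟨so_2_2_9_191, List.forall_mem_cons.2 ⟨so_2_2_15_128, List.forall_mem_cons.2 ⟨so_2_2_15_166, List.forall_mem_cons.2 ⟨so_2_3_3_128, List.forall_mem_cons.2 ⟨so_2_3_3_213, List.forall_mem_cons.2 ⟨so_2_3_3_340, List.forall_mem_cons.2 ⟨so_2_3_4_128, List.forall_mem_cons.2 ⟨so_2_3_4_191, List.forall_mem_nil _⟩⟩⟩⟩⟩⟩⟩⟩⟩⟩⟩⟩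

def ch_0_6 : List ℕ := [sl_2_3_4_206, sl_2_3_4_250, sl_2_3_4_352, sl_2_3_4_383, sl_2_3_5_128, sl_2_3_6_128, sl_2_3_6_255, sl_2_3_6_431, sl_2_3_6_511, sl_2_3_7_128, sl_2_3_7_164, sl_2_3_8_128]

theorem ch_0_6_ok : ∀ s ∈ ch_0_6, s < 2 ^ 1024 ∧ SlotOK s :=
  List.forall_mem_cons.2 ⟨so_2_3_4_206, List.forall_mem_cons.2 ⟨so_2_3_4_250, List.forall_mem_cons.2 ⟨so_2_3_4_352, List.forall_mem_cons.2 ⟨so_2_3_4_383, List.forall_mem_cons.2 ⟨so_2_3_5_128, List.forall_mem_cons.2 ⟨so_2_3_6_128, List.forall_mem_cons.2 ⟨so_2_3_6_255, List.forall_mem_cons.2 ⟨so_2_3_6_431, List.forall_mem_cons.2 ⟨so_2_3_6_511, List.forall_mem_cons.2 ⟨so_2_3_7_128, List.forall_mem_cons.2 ⟨so_2_3_7_164, List.forall_mem_cons.2 ⟨so_2_3_8_128, List.forall_mem_nil _⟩⟩⟩⟩⟩⟩⟩⟩⟩⟩⟩⟩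

def ch_0_7 : List ℕ := [sl_2_3_8_149, sl_2_3_8_179, sl_2_3_8_255, sl_2_3_9_128, sl_2_3_12_128, sl_2_3_16_128, sl_2_3_16_191, sl_2_3_16_383, sl_2_4_9_128, sl_2_4_9_191]

theorem ch_0_7_ok : ∀ s ∈ ch_0_7, s < 2 ^ 1024 ∧ SlotOK s :=
  List.forall_mem_cons.2 ⟨so_2_3_8_149, List.forall_mem_cons.2 ⟨so_2_3_8_179, List.forall_mem_cons.2 ⟨so_2_3_8_255, List.forall_mem_cons.2 ⟨so_2_3_9_128, List.forall_mem_cons.2 ⟨so_2_3_12_128, List.forall_mem_cons.2 ⟨so_2_3_16_128, List.forall_mem_cons.2 ⟨so_2_3_16_191, List.forall_mem_cons.2 ⟨so_2_3_16_383, List.forall_mem_cons.2 ⟨so_2_4_9_128, List.forall_mem_cons.2 ⟨so_2_4_9_191, List.forall_mem_nil _⟩⟩⟩⟩⟩⟩⟩⟩⟩⟩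

end Pool.H94.Pol
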